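import Pool.Agent.Lib.MP_8cc25e_nt.Final1

/-!
The same lifting argument for the sums of `(2k)! (3k)! / k!^5`.
-/

namespace Pool.Agent.MP8cc25e

open Finset Polynomial

/-- Truncated generating polynomial. -/
noncomputable def YS (p : ℕ) : ℤ[X] := ∑ n ∈ range p, C (sg n : ℤ) * X ^ n

lemma YS_coeff (p n : ℕ) : (YS p).coeff n = if n < p then (sg n : ℤ) else 0 := by
  unfold YS
  rw [finsetSum_coeff]
  simp only [coeff_C_mul_X_pow]
  rw [sum_ite_eq (range p) n (fun k => (sg k : ℤ))]
  simp only [mem_range]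

lemma YS_eval (p : ℕ) (z : ℤ) : (YS p).eval z = ∑ n ∈ range p, (sg n : ℤ) * z ^ n := by
  unfold YS
  rw [eval_finsetSum]
  simp

lemma sg_rec (n : ℕ) : ((n : ℤ) + 1) ^ 3 * sg (n + 1)
    = (108 * (n : ℤ) ^ 3 + 162 * (n : ℤ) ^ 2 + 78 * n + 12) * sg n := by
  have h : ((n : ℚ) + 1) ^ 3 * sg (n + 1)
      = (108 * (n : ℚ) ^ 3 + 162 * (n : ℚ) ^ 2 + 78 * n + 12) * sg n := by
    have hn1 : (n : ℚ) + 1 ≠ 0 := by positivity
    have hn2 : 2 * (n : ℚ) + 1 ≠ 0 := by positivity
    have s1 : ((2 * (n + 1)).choose (n + 1) : ℚ)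
        = 2 * (2 * (n : ℚ) + 1) * ((2 * n).choose n) / (n + 1) := by
      rw [eq_div_iff hn1]
      exact centralSucc n
    have a1 := choose_succ_succ_mul (3 * n + 2) n
    have a2 := choose_succ_left (3 * n + 1) n
    have a3 := choose_succ_left (3 * n) n
    rw [show 3 * n + 2 + 1 = 3 * (n + 1) by ring] at a1
    rw [show 3 * n + 1 + 1 = 3 * n + 2 by ring] at a2
    push_cast at a1 a2 a3
    have e3 : ((3 * n + 1).choose n : ℚ)
        = ((3 * n).choose n) * (3 * (n : ℚ) + 1) / (2 * n + 1) := by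
      rw [eq_div_iff hn2]
      linarith
    have e2 : ((3 * n + 2).choose n : ℚ)
        = ((3 * n + 1).choose n) * (3 * (n : ℚ) + 2) / (2 * n + 2) := by
      rw [eq_div_iff (by positivity)]
      linarith
    have e1 : ((3 * (n + 1)).choose (n + 1) : ℚ)
        = 3 * ((3 * n + 2).choose n) := by
      have : ((3 * (n + 1)).choose (n + 1) : ℚ) * ((n : ℚ) + 1)
          = (3 * ((3 * n + 2).choose n)) * ((n : ℚ) + 1) := by linarith
      exact mul_right_cancel₀ hn1 this
    unfold sg
    push_cast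
    rw [s1, e1, e2, e3]
    field_simp
    ring
  exact_mod_cast h

/-- The differential operator. -/
noncomputable def LS {R : Type*} [CommRing R] (f : R[X]) : R[X] :=
  th (th (th f)) - X * (108 * th (th (th f)) + 162 * th (th f) + 78 * th f + 12 * f)

lemma LS_coeff {R : Type*} [CommRing R] (f : R[X]) (n : ℕ) :
    (LS f).coeff (n + 1) = ((n : R) + 1) ^ 3 * f.coeff (n + 1)
      - (108 * (n : R) ^ 3 + 162 * (n : R) ^ 2 + 78 * n + 12) * f.coeff n := by
  unfold LS
  have hc : ∀ (k : ℕ) (g : R[X]) (m : ℕ), (((k : ℕ) : R[X]) * g).coeff m = (k : R) * g.coeff m := by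
    intro k g m
    rw [← C_eq_natCast, coeff_C_mul]
  have hc' : ∀ (g : R[X]) (m : ℕ), ((108 : R[X]) * g).coeff m = 108 * g.coeff m ∧
      ((162 : R[X]) * g).coeff m = 162 * g.coeff m ∧ ((78 : R[X]) * g).coeff m = 78 * g.coeff m ∧
      ((12 : R[X]) * g).coeff m = 12 * g.coeff m := by
    intro g m
    exact ⟨by exact_mod_cast hc 108 g m, by exact_mod_cast hc 162 g m, by exact_mod_cast hc 78 g m,
      by exact_mod_cast hc 12 g m⟩
  rw [coeff_sub, coeff_X_mul]
  simp only [coeff_add, (hc' _ _).1, (hc' _ _).2.1, (hc' _ _).2.2.1, (hc' _ _).2.2.2, th_coeff]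
  push_cast
  ring

lemma LS_coeff_zero {R : Type*} [CommRing R] (f : R[X]) : (LS f).coeff 0 = 0 := by
  unfold LS
  simp [coeff_zero_eq_eval_zero]
  simp [th]

theorem LS_YS (p : ℕ) (hp : 0 < p) :
    LS (YS p) = C (-((p : ℤ) ^ 3 * sg p)) * X ^ p := by
  ext n
  rw [coeff_C_mul_X_pow]
  rcases n with _ | n
  · rw [LS_coeff_zero, if_neg (by omega)]
  · rw [LS_coeff, YS_coeff, YS_coeff]
    have hr := sg_rec n
    rcases lt_trichotomy (n + 1) p with h | h | h
    · rw [if_pos (by omega), if_pos (by omega), if_neg (by omega)]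
      linarith
    · rw [if_neg (by omega), if_pos (by omega), if_pos (by omega)]
      subst h
      push_cast
      linarith
    · rw [if_neg (by omega), if_neg (by omega), if_neg (by omega)]
      ring

/-- The first integral. -/
noncomputable def IS (f : ℤ[X]) : ℤ[X] :=
  (1 - 108 * X) * (2 * f * th (th f) - th f ^ 2) - 108 * X * f * th f - 24 * X * f ^ 2

lemma th_IS (f : ℤ[X]) : th (IS f) = 2 * f * LS f := by
  unfold IS LS th
  simp only [derivative_sub, derivative_mul, derivative_add, derivative_pow, derivative_X,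
    derivative_one, derivative_ofNat, Nat.cast_ofNat]
  have hC : (C (2 : ℤ) : ℤ[X]) = 2 := rfl
  rw [hC]
  ring

theorem IS_dvd (p : ℕ) (hp : p.Prime) (n : ℕ) : (p : ℤ) ^ 2 ∣ (IS (YS p)).coeff n := by
  have hp2 := hp.two_le
  have hpz : (p : ℤ) ≠ 0 := by exact_mod_cast hp.ne_zero
  have key := congrArg (fun f => coeff f n) (th_IS (YS p))
  simp only [th_coeff] at key
  have e : 2 * YS p * (C (-((p : ℤ) ^ 3 * sg p)) * X ^ p)
      = C (2 * -((p : ℤ) ^ 3 * sg p)) * (X ^ p * YS p) := by
    have h2 : (2 : ℤ[X]) = C 2 := rfl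
    rw [h2, C_mul]
    ring
  rw [LS_YS p hp.pos, e, coeff_C_mul, coeff_X_pow_mul'] at key
  rcases Nat.eq_zero_or_pos n with h0 | hn
  · subst h0
    have : (IS (YS p)).coeff 0 = 0 := by
      rw [coeff_zero_eq_eval_zero]
      unfold IS th
      simp
    rw [this]
    exact dvd_zero _
  by_cases hd : p ∣ n
  · obtain ⟨j, hj⟩ := hd
    rcases j with _ | _ | j
    · omega
    · have hn' : n = p := by omega
      subst hn'
      rw [if_pos le_rfl, Nat.sub_self, YS_coeff, if_pos (by omega)] at key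
      have g0 : sg 0 = 1 := by decide
      rw [g0] at key
      push_cast at key
      have : (IS (YS n)).coeff n = (n : ℤ) ^ 2 * (-2 * sg n) := by
        apply mul_left_cancel₀ hpz
        rw [key]
        ring
      rw [this]
      exact Dvd.intro _ rfl
    · have hn' : n = 2 * p + p * j := by rw [hj]; ring
      have hpj : 0 ≤ p * j := Nat.zero_le _
      rw [if_pos (by omega), YS_coeff, if_neg (by omega)] at key
      have hnz : (n : ℤ) ≠ 0 := by exact_mod_cast hn.ne'
      have : (IS (YS p)).coeff n = 0 := by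
        apply mul_left_cancel₀ hnz
        rw [key]
        ring
      rw [this]
      exact dvd_zero _
  · have hcop : IsCoprime ((p : ℤ) ^ 2) (n : ℤ) := by
      apply IsCoprime.pow_left
      rw [Nat.isCoprime_iff_coprime]
      exact (Nat.Prime.coprime_iff_not_dvd hp).mpr hd
    apply hcop.dvd_of_dvd_mul_left
    rw [key]
    exact ⟨-(2 * (p * sg p)) * (if p ≤ n then (YS p).coeff (n - p) else 0), by ring⟩

theorem IS_eval_dvd (p : ℕ) (hp : p.Prime) (z : ℤ) : (p : ℤ) ^ 2 ∣ (IS (YS p)).eval z := by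
  have h : C ((p : ℤ) ^ 2) ∣ IS (YS p) := by
    rw [C_dvd_iff_dvd_coeff]
    exact IS_dvd p hp
  obtain ⟨J, hJ⟩ := h
  rw [hJ, eval_mul, eval_C]
  exact Dvd.intro _ rfl

section mult

variable {F : Type*} [Field F]

lemma no_triple_S (p : ℕ) (hp : p.Prime) [CharP F p] (f : F[X]) (hf : f ≠ 0)
    (hdeg : f.natDegree < p) (hL : LS f = 0) (z : F) (hz : z ≠ 0)
    (hP : 1 - 108 * z ≠ 0) (h0 : f.eval z = 0) (h1 : (th f).eval z = 0) :
    (th (th f)).eval z ≠ 0 := by
  intro h2
  obtain ⟨q, hq, hqz⟩ := exists_eq_pow_rootMultiplicity_mul_and_not_dvd f hf z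
  set j := rootMultiplicity z f with hj
  have hq0 : q.eval z ≠ 0 := by
    intro h
    exact hqz (dvd_iff_isRoot.mpr h)
  have hjp : j < p := by
    have hd : (X - C z) ^ j ∣ f := ⟨q, hq⟩
    have h3 := natDegree_le_of_dvd hd hf
    rw [natDegree_pow, natDegree_X_sub_C, mul_one] at h3
    omega
  have nz : ∀ k : ℕ, 0 < k → k < p → ((k : ℕ) : F) ≠ 0 := by
    intro k hk0 hkp h
    rw [CharP.cast_eq_zero_iff F p k] at h
    exact absurd (Nat.le_of_dvd hk0 h) (by omega)
  rcases j with _ | _ | _ | m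
  · rw [hq] at h0
    simp at h0
    exact hq0 h0
  · rw [hq, th_mult] at h1
    simp only [pow_zero, one_mul, eval_add, eval_mul, eval_natCast, eval_X, eval_sub, eval_C,
      sub_self, zero_mul, add_zero] at h1
    rcases mul_eq_zero.mp h1 with h | h
    · rcases mul_eq_zero.mp h with h' | h'
      · exact nz (0 + 1) (by norm_num) (by omega) h'
      · exact hz h'
    · exact hq0 h
  · rw [hq, th_mult, th_mult] at h2
    simp only [pow_zero, one_mul, eval_add, eval_mul, eval_natCast, eval_X, eval_sub, eval_C,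
      sub_self, zero_mul, add_zero] at h2
    rcases mul_eq_zero.mp h2 with h | h
    · rcases mul_eq_zero.mp h with h' | h'
      · exact nz (0 + 1) (by norm_num) (by omega) h'
      · exact hz h'
    · rcases mul_eq_zero.mp h with h' | h'
      · rcases mul_eq_zero.mp h' with h'' | h''
        · exact nz (0 + 1 + 1) (by norm_num) (by omega) h''
        · exact hz h''
      · exact hq0 h'
  · set q1 := ((m + 2 + 1 : ℕ) : F[X]) * X * q + (X - C z) * th q with hq1
    set q2 := ((m + 1 + 1 : ℕ) : F[X]) * X * q1 + (X - C z) * th q1 with hq2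
    set q3 := ((m + 1 : ℕ) : F[X]) * X * q2 + (X - C z) * th q2 with hq3
    have t1 : th f = (X - C z) ^ (m + 2) * q1 := by
      rw [hq]
      exact th_mult z q (m + 2)
    have t2 : th (th f) = (X - C z) ^ (m + 1) * q2 := by
      rw [t1]
      exact th_mult z q1 (m + 1)
    have t3 : th (th (th f)) = (X - C z) ^ m * q3 := by
      rw [t2]
      exact th_mult z q2 m
    have e1 : q1.eval z = ((m + 3 : ℕ) : F) * z * q.eval z := by
      rw [hq1]
      simp only [eval_add, eval_mul, eval_natCast, eval_X, eval_sub, eval_C, sub_self, zero_mul,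
        add_zero]
    have e2 : q2.eval z = ((m + 2 : ℕ) : F) * z * q1.eval z := by
      rw [hq2]
      simp only [eval_add, eval_mul, eval_natCast, eval_X, eval_sub, eval_C, sub_self, zero_mul,
        add_zero]
    have e3 : q3.eval z = ((m + 1 : ℕ) : F) * z * q2.eval z := by
      rw [hq3]
      simp only [eval_add, eval_mul, eval_natCast, eval_X, eval_sub, eval_C, sub_self, zero_mul,
        add_zero]
    have hLf : (X - C z) ^ m * ((1 - 108 * X) * q3
        - (X - C z) * (162 * X * q2 + 78 * X * ((X - C z) * q1)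
          + 12 * X * ((X - C z) ^ 2 * q))) = 0 := by
      rw [← hL]
      unfold LS
      rw [t3, t2, t1]
      conv_rhs => rw [hq]
      ring
    have hne : (X - C z) ^ m ≠ 0 := pow_ne_zero _ (X_sub_C_ne_zero z)
    have hLf2 := (mul_eq_zero.mp hLf).resolve_left hne
    have hev := congrArg (eval z) hLf2
    simp only [eval_sub, eval_mul, eval_X, eval_C, sub_self, zero_mul, sub_zero, eval_one,
      eval_ofNat, eval_zero] at hev
    rcases mul_eq_zero.mp hev with h | h
    · exact hP h
    · rw [e3, e2, e1] at h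
      have n1 := nz (m + 1) (by omega) (by omega)
      have n2 := nz (m + 2) (by omega) (by omega)
      have n3 := nz (m + 3) (by omega) (by omega)
      have : ((m + 1 : ℕ) : F) * z * (((m + 2 : ℕ) : F) * z * (((m + 3 : ℕ) : F) * z * q.eval z)) ≠ 0 :=
        mul_ne_zero (mul_ne_zero n1 hz) (mul_ne_zero (mul_ne_zero n2 hz)
          (mul_ne_zero (mul_ne_zero n3 hz) hq0))
      exact this h

end mult

/-- A zero of the truncated sum modulo `p` away from the singular points is a zero modulo `p^2`. -/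
theorem lift_s (p : ℕ) (hp : p.Prime) (h2p' : p ≠ 2) (z : ℤ) (hz : ¬ (p : ℤ) ∣ z)
    (hP : ¬ (p : ℤ) ∣ 1 - 108 * z) (h0 : (p : ℤ) ∣ (YS p).eval z) :
    (p : ℤ) ^ 2 ∣ (YS p).eval z := by
  have hpz : Prime (p : ℤ) := Nat.prime_iff_prime_int.mp hp
  have hI := IS_eval_dvd p hp z
  have hev : (IS (YS p)).eval z = (1 - 108 * z)
      * (2 * (YS p).eval z * (th (th (YS p))).eval z - ((th (YS p)).eval z) ^ 2)
      - 108 * z * (YS p).eval z * (th (YS p)).eval z
      - 24 * z * ((YS p).eval z) ^ 2 := by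
    unfold IS
    simp only [eval_sub, eval_mul, eval_pow, eval_X, eval_one, eval_ofNat]
  rw [hev] at hI
  set y0 := (YS p).eval z with hy0
  set y1 := (th (YS p)).eval z with hy1
  set y2 := (th (th (YS p))).eval z with hy2
  obtain ⟨a, ha⟩ := h0
  have h1 : (p : ℤ) ∣ y1 := by
    have hI1 : (p : ℤ) ∣ (1 - 108 * z) * y1 ^ 2 := by
      obtain ⟨c, hc⟩ := hI
      rw [ha] at hc
      exact ⟨(1 - 108 * z) * 2 * a * y2 - 108 * z * a * y1
        - 24 * z * p * a ^ 2 - p * c, by linear_combination (-1 : ℤ) * hc⟩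
    rcases hpz.dvd_or_dvd hI1 with h | h
    · exact absurd h hP
    · exact hpz.dvd_of_dvd_pow h
  obtain ⟨b, hb⟩ := h1
  have h2 : ¬ (p : ℤ) ∣ y2 := by
    intro hd
    have hfact : Fact p.Prime := ⟨hp⟩
    let φ := Int.castRingHom (ZMod p)
    set f : (ZMod p)[X] := (YS p).map φ with hf
    have thmap : ∀ g : ℤ[X], th (g.map φ) = (th g).map φ := by
      intro g
      unfold th
      rw [Polynomial.map_mul, Polynomial.map_X, derivative_map]
    have fz : ∀ g : ℤ[X], (g.map φ).eval (z : ZMod p) = ((g.eval z : ℤ) : ZMod p) := by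
      intro g
      rw [show (z : ZMod p) = φ z from rfl, eval_map_apply]
      rfl
    have hfne : f ≠ 0 := by
      intro h
      have hc := congrArg (fun g => coeff g 0) h
      simp only [hf, coeff_map, coeff_zero] at hc
      rw [YS_coeff, if_pos hp.pos] at hc
      have g0 : sg 0 = 1 := by decide
      rw [g0] at hc
      simp at hc
    have hdeg : f.natDegree < p := by
      have h3 : (YS p).natDegree ≤ p - 1 := by
        unfold YS
        apply natDegree_sum_le_of_forall_le
        intro n hn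
        rw [mem_range] at hn
        exact (natDegree_C_mul_X_pow_le _ _).trans (by omega)
      have h4 : f.natDegree ≤ (YS p).natDegree := natDegree_map_le
      have := hp.pos
      omega
    have hLL : LS f = 0 := by
      have h5 : LS f = (LS (YS p)).map φ := by
        unfold LS
        rw [hf, thmap, thmap, thmap]
        simp only [Polynomial.map_sub, Polynomial.map_mul, Polynomial.map_add,
          Polynomial.map_X, Polynomial.map_ofNat]
      have c1 : φ (-((p : ℤ) ^ 3 * sg p)) = 0 := by simp [φ]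
      rw [h5, LS_YS p hp.pos, Polynomial.map_mul, Polynomial.map_C, c1]
      simp
    have hz' : (z : ZMod p) ≠ 0 := by
      intro h
      exact hz ((ZMod.intCast_zmod_eq_zero_iff_dvd z p).mp h)
    have hP' : (1 : ZMod p) - 108 * z ≠ 0 := by
      intro h
      apply hP
      rw [← ZMod.intCast_zmod_eq_zero_iff_dvd]
      push_cast
      exact h
    refine no_triple_S p hp f hfne hdeg hLL (z : ZMod p) hz' hP' ?_ ?_ ?_
    · rw [hf, fz, ← hy0, ha]
      push_cast
      simp
    · rw [hf, thmap, fz, ← hy1, hb]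
      push_cast
      simp
    · rw [hf, thmap, thmap, fz, ← hy2]
      exact (ZMod.intCast_zmod_eq_zero_iff_dvd y2 p).mpr hd
  have h2p : ¬ (p : ℤ) ∣ 2 := by
    intro h
    have hpn : p ∣ 2 := by exact_mod_cast h
    exact h2p' ((Nat.prime_dvd_prime_iff_eq hp Nat.prime_two).mp hpn)
  have h3 : (p : ℤ) ^ 2 ∣ (p : ℤ) * ((1 - 108 * z) * 2 * a * y2) := by
    obtain ⟨c, hc⟩ := hI
    rw [ha, hb] at hc
    exact ⟨c + (1 - 108 * z) * b ^ 2 + 108 * z * a * b
      + 24 * z * a ^ 2, by linear_combination hc⟩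
  have h4 : (p : ℤ) ∣ (1 - 108 * z) * 2 * a * y2 := by
    rw [pow_two] at h3
    exact Int.dvd_of_mul_dvd_mul_left hpz.ne_zero h3
  have h5 : (p : ℤ) ∣ a := by
    rcases hpz.dvd_or_dvd h4 with h | h
    · rcases hpz.dvd_or_dvd h with h' | h'
      · rcases hpz.dvd_or_dvd h' with h'' | h''
        · exact absurd h'' hP
        · exact absurd h'' h2p
      · exact h'
    · exact absurd h h2
  obtain ⟨d, hd⟩ := h5
  rw [ha, hd]
  exact ⟨d, by ring⟩

end Pool.Agent.MP8cc25e
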