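import Pool.Agent.Lib.MP_8cc25e_nt.Inert

/-!
The truncated generating polynomial satisfies the differential equation exactly modulo `p^2`;
its first integral vanishes modulo `p^2`; zeros modulo `p` are zeros modulo `p^2`.
-/

namespace Pool.Agent.MP8cc25e

open Finset Polynomial

/-- Truncated generating polynomial. -/
noncomputable def YY (p : ℕ) : ℤ[X] := ∑ n ∈ range p, C (gg n : ℤ) * X ^ n

lemma YY_coeff (p n : ℕ) : (YY p).coeff n = if n < p then (gg n : ℤ) else 0 := by
  unfold YY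
  rw [finsetSum_coeff]
  simp only [coeff_C_mul_X_pow]
  rw [sum_ite_eq (range p) n (fun k => (gg k : ℤ))]
  simp only [mem_range]

/-- Euler derivation. -/
noncomputable def th {R : Type*} [CommRing R] (f : R[X]) : R[X] := X * derivative f

lemma th_coeff {R : Type*} [CommRing R] (f : R[X]) (n : ℕ) :
    (th f).coeff n = (n : R) * f.coeff n := by
  unfold th
  cases n with
  | zero => simp
  | succ n =>
    rw [coeff_X_mul, coeff_derivative]
    push_cast
    ring

lemma gg_rec (n : ℕ) :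
    ((n : ℤ) + 2) ^ 3 * gg (n + 2)
      = (28 * ((n : ℤ) + 1) ^ 3 + 42 * ((n : ℤ) + 1) ^ 2 + 22 * ((n : ℤ) + 1) + 4) * gg (n + 1)
        + (128 * (n : ℤ) ^ 3 + 384 * (n : ℤ) ^ 2 + 352 * n + 96) * gg n := by
  have h : ((n : ℚ) + 2) ^ 3 * gg (n + 2)
      = (28 * ((n : ℚ) + 1) ^ 3 + 42 * ((n : ℚ) + 1) ^ 2 + 22 * ((n : ℚ) + 1) + 4) * gg (n + 1)
        + (128 * (n : ℚ) ^ 3 + 384 * (n : ℚ) ^ 2 + 352 * n + 96) * gg n := by
    have hn1 : (n : ℚ) + 1 ≠ 0 := by positivity
    have hn2 : (n : ℚ) + 2 ≠ 0 := by positivity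
    have s1 : ((2 * (n + 1)).choose (n + 1) : ℚ)
        = 2 * (2 * (n : ℚ) + 1) * ((2 * n).choose n) / (n + 1) := by
      rw [eq_div_iff hn1]
      exact centralSucc n
    have s2 : ((2 * (n + 2)).choose (n + 2) : ℚ)
        = 2 * (2 * (n : ℚ) + 3) * ((2 * (n + 1)).choose (n + 1)) / (n + 2) := by
      have := centralSucc (n + 1)
      push_cast at this
      rw [eq_div_iff hn2, show n + 2 = n + 1 + 1 by ring]
      linarith
    unfold gg
    push_cast
    rw [s2, s1, franel_succ2 n]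
    field_simp
    ring
  exact_mod_cast h

/-- The differential operator. -/
noncomputable def LL {R : Type*} [CommRing R] (f : R[X]) : R[X] :=
  th (th (th f)) - X * (28 * th (th (th f)) + 42 * th (th f) + 22 * th f + 4 * f)
    - X ^ 2 * (128 * th (th (th f)) + 384 * th (th f) + 352 * th f + 96 * f)

lemma LL_coeff {R : Type*} [CommRing R] (f : R[X]) (n : ℕ) :
    (LL f).coeff (n + 2) = ((n : R) + 2) ^ 3 * f.coeff (n + 2)
      - (28 * ((n : R) + 1) ^ 3 + 42 * ((n : R) + 1) ^ 2 + 22 * ((n : R) + 1) + 4) * f.coeff (n + 1)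
      - (128 * (n : R) ^ 3 + 384 * (n : R) ^ 2 + 352 * n + 96) * f.coeff n := by
  unfold LL
  have h2 : ∀ g : R[X], (X ^ 2 * g).coeff (n + 2) = g.coeff n := by
    intro g
    rw [coeff_X_pow_mul]
  have hc : ∀ (k : ℕ) (g : R[X]) (m : ℕ), (((k : ℕ) : R[X]) * g).coeff m = (k : R) * g.coeff m := by
    intro k g m
    rw [← C_eq_natCast, coeff_C_mul]
  have hc' : ∀ (g : R[X]) (m : ℕ), ((28 : R[X]) * g).coeff m = 28 * g.coeff m ∧
      ((42 : R[X]) * g).coeff m = 42 * g.coeff m ∧ ((22 : R[X]) * g).coeff m = 22 * g.coeff m ∧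
      ((4 : R[X]) * g).coeff m = 4 * g.coeff m ∧ ((128 : R[X]) * g).coeff m = 128 * g.coeff m ∧
      ((384 : R[X]) * g).coeff m = 384 * g.coeff m ∧ ((352 : R[X]) * g).coeff m = 352 * g.coeff m ∧
      ((96 : R[X]) * g).coeff m = 96 * g.coeff m := by
    intro g m
    exact ⟨by exact_mod_cast hc 28 g m, by exact_mod_cast hc 42 g m, by exact_mod_cast hc 22 g m,
      by exact_mod_cast hc 4 g m, by exact_mod_cast hc 128 g m, by exact_mod_cast hc 384 g m,
      by exact_mod_cast hc 352 g m, by exact_mod_cast hc 96 g m⟩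
  rw [coeff_sub, coeff_sub, h2, show n + 2 = (n + 1) + 1 by ring, coeff_X_mul]
  simp only [coeff_add, (hc' _ _).1, (hc' _ _).2.1, (hc' _ _).2.2.1, (hc' _ _).2.2.2.1,
    (hc' _ _).2.2.2.2.1, (hc' _ _).2.2.2.2.2.1, (hc' _ _).2.2.2.2.2.2.1,
    (hc' _ _).2.2.2.2.2.2.2, th_coeff]
  push_cast
  ring

lemma LL_coeff_zero {R : Type*} [CommRing R] (f : R[X]) : (LL f).coeff 0 = 0 := by
  unfold LL
  simp [coeff_zero_eq_eval_zero]
  simp [th]

lemma LL_coeff_one {R : Type*} [CommRing R] (f : R[X]) :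
    (LL f).coeff 1 = f.coeff 1 - 4 * f.coeff 0 := by
  unfold LL
  have h2 : ∀ g : R[X], (X ^ 2 * g).coeff 1 = 0 := by
    intro g
    rw [coeff_X_pow_mul']
    simp
  have h4 : ∀ (g : R[X]), ((4 : R[X]) * g).coeff 0 = 4 * g.coeff 0 := by
    intro g
    rw [← C_ofNat, coeff_C_mul]
  rw [coeff_sub, coeff_sub, h2, show (1 : ℕ) = 0 + 1 by ring, coeff_X_mul]
  simp [th_coeff, h4]

theorem LL_YY (p : ℕ) (hp : 2 ≤ p) :
    LL (YY p) = C (-((p : ℤ) ^ 3 * gg p)) * X ^ p
      + C (-(32 * (p : ℤ) * (4 * (p : ℤ) ^ 2 - 1) * gg (p - 1))) * X ^ (p + 1) := by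
  ext n
  rw [coeff_add, coeff_C_mul_X_pow, coeff_C_mul_X_pow]
  rcases n with _ | _ | n
  · rw [LL_coeff_zero]
    rw [if_neg (by omega), if_neg (by omega)]
    simp
  · rw [zero_add, LL_coeff_one, YY_coeff, YY_coeff]
    have g1 : gg 1 = 4 := by decide
    have g0 : gg 0 = 1 := by decide
    rw [if_pos (show 1 < p by omega), if_pos (show 0 < p by omega), if_neg (show ¬ 1 = p by omega),
      if_neg (show ¬ 1 = p + 1 by omega), g1, g0]
    norm_num
  · rw [LL_coeff, YY_coeff, YY_coeff, YY_coeff]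
    have hr := gg_rec n
    rcases lt_trichotomy (n + 2) p with h | h | h
    · rw [if_pos (by omega), if_pos (by omega), if_pos (by omega), if_neg (by omega),
        if_neg (by omega)]
      linarith
    · rw [if_neg (by omega), if_pos (by omega), if_pos (by omega), if_pos (by omega),
        if_neg (by omega)]
      subst h
      push_cast
      linarith
    · rcases Nat.eq_or_lt_of_le (Nat.succ_le_of_lt h) with h' | h'
      · rw [if_neg (by omega), if_neg (by omega), if_pos (by omega), if_neg (by omega),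
          if_pos (by omega)]
        have hn : p = n + 1 := by omega
        subst hn
        rw [Nat.add_sub_cancel]
        push_cast
        ring
      · rw [if_neg (by omega), if_neg (by omega), if_neg (by omega), if_neg (by omega),
          if_neg (by omega)]
        ring

/-- The first integral. -/
noncomputable def II (f : ℤ[X]) : ℤ[X] :=
  (1 - 28 * X - 128 * X ^ 2) * (2 * f * th (th f) - th f ^ 2)
    - (28 * X + 256 * X ^ 2) * f * th f - (8 * X + 96 * X ^ 2) * f ^ 2

lemma th_II (f : ℤ[X]) : th (II f) = 2 * f * LL f := by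
  unfold II LL th
  simp only [derivative_sub, derivative_mul, derivative_add, derivative_pow, derivative_X,
    derivative_one, derivative_ofNat, Nat.cast_ofNat]
  have hC : (C (2 : ℤ) : ℤ[X]) = 2 := rfl
  rw [hC]
  ring

end Pool.Agent.MP8cc25e
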