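import Pool.Agent.Lib.MP_8cc25e_nt.ModP

/-!
The complex multiplication point: vanishing modulo `p` when `-15` is not a square.
-/

namespace Pool.Agent.MP8cc25e

open Finset

section

variable {K : Type*} [Field K] (p : ℕ) [hp : Fact p.Prime] [CharP K p]

include hp in
lemma sg_zero (k : ℕ) (hk : k < p) (h : p ≤ 3 * k) : (sg k : K) = 0 := by
  rw [CharP.cast_eq_zero_iff K p]
  have h1 : (3 * k).choose k * k.factorial * (3 * k - k).factorial = (3 * k).factorial :=
    Nat.choose_mul_factorial_mul_factorial (by omega)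
  have h2 : (2 * k).choose k * k.factorial * (2 * k - k).factorial = (2 * k).factorial :=
    Nat.choose_mul_factorial_mul_factorial (by omega)
  rw [show 3 * k - k = 2 * k by omega, ← h2, show 2 * k - k = k by omega] at h1
  have h3 : p ∣ (3 * k).choose k * k.factorial
      * ((2 * k).choose k * k.factorial * k.factorial) := by
    rw [h1]
    exact hp.out.dvd_factorial.mpr h
  have h4 : ¬ p ∣ k.factorial := by
    rw [hp.out.dvd_factorial]
    omega
  unfold sg
  rcases (hp.out.dvd_mul).mp h3 with h5 | h5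
  · rcases (hp.out.dvd_mul).mp h5 with h6 | h6
    · exact Dvd.dvd.mul_left h6 _
    · exact absurd h6 h4
  · rcases (hp.out.dvd_mul).mp h5 with h6 | h6
    · rcases (hp.out.dvd_mul).mp h6 with h7 | h7
      · exact Dvd.dvd.mul_right (dvd_pow h7 (by norm_num)) _
      · exact absurd h7 h4
    · exact absurd h6 h4

include hp in
lemma gg_dvd (k : ℕ) (hk : k < p) (h : p ≤ 2 * k) : p ∣ gg k := by
  have h2 : (2 * k).choose k * k.factorial * (2 * k - k).factorial = (2 * k).factorial :=
    Nat.choose_mul_factorial_mul_factorial (by omega)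
  have h3 : p ∣ (2 * k).choose k * k.factorial * (2 * k - k).factorial := by
    rw [h2]
    exact hp.out.dvd_factorial.mpr h
  have h4 : ¬ p ∣ k.factorial := by
    rw [hp.out.dvd_factorial]
    omega
  rw [show 2 * k - k = k by omega] at h3
  unfold gg
  rcases (hp.out.dvd_mul).mp h3 with h6 | h6
  · rcases (hp.out.dvd_mul).mp h6 with h7 | h7
    · exact Dvd.dvd.mul_right h7 _
    · exact absurd h7 h4
  · exact absurd h6 h4

include hp in
lemma gg_zero (k : ℕ) (hk : k < p) (h : p ≤ 2 * k) : (gg k : K) = 0 := by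
  rw [CharP.cast_eq_zero_iff K p]
  exact gg_dvd p k hk h

/-- Truncated sum with coefficients `s`, cut at `b k < p`. -/
def trunc (b : ℕ) (s : ℕ → ℕ) (w : K) : K :=
  ∑ k ∈ range p, if b * k < p then (s k : K) * w ^ k else 0

lemma trunc_scale (a b : ℕ) (s : ℕ → ℕ) (c u w : K) (h : u ^ a = w * (1 + c * u) ^ b) :
    ∑ k ∈ range p, (if b * k < p then (s k : K) * (u ^ (a * k) * (1 + c * u) ^ (p - 1 - b * k))
        else 0) = (1 + c * u) ^ (p - 1) * trunc p b s w := by
  unfold trunc
  rw [mul_sum]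
  apply sum_congr rfl
  intro k _
  split_ifs with hk
  · have e : (1 + c * u) ^ (p - 1) = (1 + c * u) ^ (b * k) * (1 + c * u) ^ (p - 1 - b * k) := by
      rw [← pow_add]
      congr 1
      omega
    rw [e, pow_mul u a k, h, mul_pow, pow_mul (1 + c * u) b k]
    ring
  · simp

include hp in
lemma sB (u : K) : ∑ k ∈ range p, (if 3 * k < p then (sg k : K) * (u ^ (2 * k) * (1 + 4 * u) ^ (p - 1 - 3 * k))
        else 0) = ∑ N ∈ range p, ((iB N : ℤ) : K) * u ^ N := by
  rw [transform_mod p 2 3 (by norm_num) sg 4 u (fun k hk h => sg_zero p k hk h)]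
  apply sum_congr rfl
  intro N hN
  rw [mem_range] at hN
  congr 1
  unfold iB
  push_cast
  simp only [one_mul]
  symm
  apply sum_subset
  · intro k hk
    simp only [mem_range] at *
    omega
  · intro k _ hk
    simp only [mem_range, not_lt] at hk
    rw [Nat.choose_eq_zero_of_lt (by omega)]
    simp

include hp in
lemma sC (u : K) : ∑ k ∈ range p, (if 3 * k < p then (sg k : K) * (u ^ (1 * k) * (1 + 16 * u) ^ (p - 1 - 3 * k))
        else 0) = ∑ N ∈ range p, ((iB N : ℤ) : K) * u ^ N := by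
  rw [transform_mod p 1 3 (by norm_num) sg 16 u (fun k hk h => sg_zero p k hk h)]
  apply sum_congr rfl
  intro N hN
  rw [mem_range] at hN
  congr 1
  rw [← iC_eq_iB]
  unfold iC
  push_cast
  simp only [one_mul]
  symm
  apply sum_subset
  · intro k hk
    simp only [mem_range] at *
    omega
  · intro k _ hk
    simp only [mem_range, not_lt] at hk
    rw [Nat.choose_eq_zero_of_lt (by omega)]
    simp

include hp in
lemma sA (u : K) : ∑ k ∈ range p, (if 2 * k < p then (gg k : K) * (u ^ (1 * k) * (1 + 8 * u) ^ (p - 1 - 2 * k))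
        else 0) = ∑ N ∈ range p, ((iB N : ℤ) : K) * u ^ N := by
  rw [transform_mod p 1 2 (by norm_num) gg 8 u (fun k hk h => gg_zero p k hk h)]
  apply sum_congr rfl
  intro N hN
  rw [mem_range] at hN
  congr 1
  rw [← iA_eq_iB]
  unfold iA
  push_cast
  simp only [one_mul]
  symm
  apply sum_subset
  · intro k hk
    simp only [mem_range] at *
    omega
  · intro k _ hk
    simp only [mem_range, not_lt] at hk
    rw [Nat.choose_eq_zero_of_lt (by omega)]
    simp

include hp in
/-- Two truncated sums related through the Domb polynomial. -/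
lemma link_CB (u w1 w2 : K) (h1 : u ^ 1 = w1 * (1 + 16 * u) ^ 3) (h2 : u ^ 2 = w2 * (1 + 4 * u) ^ 3) :
    (1 + 16 * u) ^ (p - 1) * trunc p 3 sg w1 = (1 + 4 * u) ^ (p - 1) * trunc p 3 sg w2 := by
  rw [← trunc_scale p 1 3 sg 16 u w1 h1, ← trunc_scale p 2 3 sg 4 u w2 h2, sB p u, sC p u]

include hp in
lemma link_AB (u w1 w2 : K) (h1 : u ^ 1 = w1 * (1 + 8 * u) ^ 2) (h2 : u ^ 2 = w2 * (1 + 4 * u) ^ 3) :
    (1 + 8 * u) ^ (p - 1) * trunc p 2 gg w1 = (1 + 4 * u) ^ (p - 1) * trunc p 3 sg w2 := by
  rw [← trunc_scale p 1 2 gg 8 u w1 h1, ← trunc_scale p 2 3 sg 4 u w2 h2, sA p u, sB p u]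

include hp in
/-- If the Frobenius moves a square root of `-15`, the hypergeometric sum at `-1/27` vanishes. -/
lemma sum27_zero (h3 : 5 < p) (r : K) (hr : r ^ 2 = -15) (hrp : r ^ p = -r) :
    trunc p 3 sg (-(27 : K)⁻¹) = 0 ∧ ∃ u : K, 64 * u ^ 2 + 11 * u + 1 = 0 := by
  have hpp := hp.out
  have h2 : (2 : K) ≠ 0 := by
    have := cast_ne_zero_of_lt (K := K) p (j := 2) (by norm_num) (by omega)
    exact_mod_cast this
  have h3' : (3 : K) ≠ 0 := by
    have := cast_ne_zero_of_lt (K := K) p (j := 3) (by norm_num) (by omega)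
    exact_mod_cast this
  have h5' : (5 : K) ≠ 0 := by
    have := cast_ne_zero_of_lt (K := K) p (j := 5) (by norm_num) (by omega)
    exact_mod_cast this
  have h128 : (128 : K) ≠ 0 := by
    rw [show (128 : K) = 2 ^ 7 by norm_num]
    exact pow_ne_zero _ h2
  have h27 : (27 : K) ≠ 0 := by
    rw [show (27 : K) = 3 ^ 3 by norm_num]
    exact pow_ne_zero _ h3'
  obtain ⟨u, hu⟩ : ∃ u : K, u = (-11 + 3 * r) / 128 := ⟨_, rfl⟩
  have hu128 : 128 * u = -11 + 3 * r := by
    rw [hu]
    field_simp
  have hquad : 64 * u ^ 2 + 11 * u + 1 = 0 := by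
    have : 256 * (64 * u ^ 2 + 11 * u + 1) = 0 := by
      have e : 256 * (64 * u ^ 2 + 11 * u + 1)
          = (128 * u) ^ 2 + 22 * (128 * u) + 256 := by ring
      rw [e, hu128]
      linear_combination 9 * hr
    have h256 : (256 : K) ≠ 0 := by
      rw [show (256 : K) = 2 ^ 8 by norm_num]
      exact pow_ne_zero _ h2
    exact (mul_eq_zero.mp this).resolve_left h256
  refine ⟨?_, u, hquad⟩
  have frob : ∀ n : ℤ, ((n : ℤ) : K) ^ p = ((n : ℤ) : K) := by
    intro n
    have h := ZMod.pow_card (p := p) (n : ZMod p)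
    have h' : (ZMod.castHom (dvd_refl p) K) ((n : ZMod p) ^ p)
        = (ZMod.castHom (dvd_refl p) K) (n : ZMod p) := by rw [h]
    rw [map_pow, map_intCast] at h'
    exact h'
  have hup : 128 * u ^ p = -11 - 3 * r := by
    have h : (128 * u) ^ p = (-11 + 3 * r) ^ p := by rw [hu128]
    rw [mul_pow, add_pow_char, mul_pow, hrp] at h
    have f1 := frob 128
    have f2 := frob (-11)
    have f3 := frob 3
    push_cast at f1 f2 f3
    rw [f1, f2, f3] at h
    rw [h]
    ring
  have w1 : u ^ 1 = -(27 : K)⁻¹ * (1 + 16 * u) ^ 3 := by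
    field_simp
    linear_combination (64 * u + 1) * hquad
  have w2 : u ^ 2 = -(27 : K)⁻¹ * (1 + 4 * u) ^ 3 := by
    field_simp
    linear_combination (u + 1) * hquad
  have hl := link_CB p u _ _ w1 w2
  set S := trunc p 3 sg (-(27 : K)⁻¹) with hS
  have f4 := frob 4
  have f16 := frob 16
  push_cast at f4 f16
  have p4 : (1 + 4 * u) ^ p = 1 + 4 * u ^ p := by
    rw [add_pow_char, one_pow, mul_pow, f4]
  have p16 : (1 + 16 * u) ^ p = 1 + 16 * u ^ p := by
    rw [add_pow_char, one_pow, mul_pow, f16]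
  have hps : p = (p - 1) + 1 := by have := hpp.pos; omega
  have e16 : (1 + 16 * u) ^ p = (1 + 16 * u) ^ (p - 1) * (1 + 16 * u) := by
    conv_lhs => rw [hps]
    rw [pow_succ]
  have e4 : (1 + 4 * u) ^ p = (1 + 4 * u) ^ (p - 1) * (1 + 4 * u) := by
    conv_lhs => rw [hps]
    rw [pow_succ]
  have h6 : ((1 + 16 * u ^ p) * (1 + 4 * u) - (1 + 4 * u ^ p) * (1 + 16 * u)) * S = 0 := by
    rw [← p4, ← p16, e4, e16]
    linear_combination (1 + 4 * u) * (1 + 16 * u) * hl
  have h7 : (1 + 16 * u ^ p) * (1 + 4 * u) - (1 + 4 * u ^ p) * (1 + 16 * u) = 12 * (u ^ p - u) := by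
    ring
  rw [h7] at h6
  have h8 : 128 * (u ^ p - u) = -6 * r := by
    linear_combination hup - hu128
  have hr0 : r ≠ 0 := by
    intro h0
    rw [h0] at hr
    have : (15 : K) = 0 := by linear_combination hr
    rw [show (15 : K) = 3 * 5 by norm_num] at this
    rcases mul_eq_zero.mp this with h | h
    · exact h3' h
    · exact h5' h
  have h9 : u ^ p - u ≠ 0 := by
    intro h0
    rw [h0, mul_zero] at h8
    have : (6 : K) * r = 0 := by linear_combination h8
    rcases mul_eq_zero.mp this with h | h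
    · rw [show (6 : K) = 2 * 3 by norm_num] at h
      rcases mul_eq_zero.mp h with h' | h'
      · exact h2 h'
      · exact h3' h'
    · exact hr0 h
  rcases mul_eq_zero.mp h6 with h | h
  · exfalso
    rcases mul_eq_zero.mp h with h' | h'
    · rw [show (12 : K) = 2 * 2 * 3 by norm_num] at h'
      rcases mul_eq_zero.mp h' with h'' | h''
      · rcases mul_eq_zero.mp h'' with h3'' | h3'' <;> exact h2 h3''
      · exact h3' h''
    · exact h9 h'
  · exact h

end

end Pool.Agent.MP8cc25e
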