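import Pool.Agent.Lib.MP_8cc25e_nt.Sums

/-!
Three binomial transforms with the same recurrence (alternating Domb numbers).
-/

namespace Pool.Agent.MP8cc25e

open Finset

/-- Transform with binomial `(N+k choose 3k)`, level `u^2/(1+4u)^3`. -/
def tB (N : ℕ) : ℚ :=
  ∑ k ∈ range (N + 1), (sg k : ℚ) * ((N + k).choose (3 * k)) * (-4) ^ N / 16 ^ k

/-- Transform with binomial `(N+2k choose 3k)`, level `u/(1+16u)^3`. -/
def tC (N : ℕ) : ℚ :=
  ∑ k ∈ range (N + 1), (sg k : ℚ) * ((N + 2 * k).choose (3 * k)) * (-16) ^ N / (-16) ^ k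

/-- Transform with binomial `(N+k choose 2k)`, level `u/(1+8u)^2`. -/
def tA (N : ℕ) : ℚ :=
  ∑ k ∈ range (N + 1), (gg k : ℚ) * ((N + k).choose (2 * k)) * (-8) ^ N / (-8) ^ k

/-- Right factor of the recurrence. -/
def pol (N : ℚ) : ℚ := 2 * (2 * N + 3) * (5 * (N + 1) ^ 2 + 5 * (N + 1) + 2)

lemma centralSucc (k : ℕ) :
    ((2 * (k + 1)).choose (k + 1) : ℚ) * ((k : ℚ) + 1)
      = 2 * (2 * (k : ℚ) + 1) * (2 * k).choose k := by
  have h := Nat.succ_mul_centralBinom_succ k
  rw [Nat.centralBinom_eq_two_mul_choose, Nat.centralBinom_eq_two_mul_choose] at h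
  have h2 : (((k + 1) * (2 * (k + 1)).choose (k + 1) : ℕ) : ℚ)
      = ((2 * (2 * k + 1) * (2 * k).choose k : ℕ) : ℚ) := by rw [h]
  push_cast at h2
  linarith

lemma tripleSucc (k : ℕ) :
    ((3 * (k + 1)).choose (k + 1) : ℚ) * (2 * ((k : ℚ) + 1) * (2 * (k : ℚ) + 1))
      = 3 * (3 * (k : ℚ) + 1) * (3 * (k : ℚ) + 2) * (3 * k).choose k := by
  have e : 3 * (k + 1) = (3 * k + 2) + 1 := by ring
  have a1 := choose_succ_left (3 * k) k
  have a2 := choose_succ_left (3 * k + 1) k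
  have a3 := choose_succ_right (3 * k + 2) k
  have a4 := choose_succ_left (3 * k + 2) (k + 1)
  push_cast at a1 a2 a3 a4
  rw [e]
  have hk1 : (2 * (k : ℚ) + 1) ≠ 0 := by positivity
  have hk2 : (2 * (k : ℚ) + 2) ≠ 0 := by positivity
  have hk3 : ((k : ℚ) + 1) ≠ 0 := by positivity
  have b1 : ((3 * k + 1).choose k : ℚ) = ((3 * k).choose k) * (3 * (k : ℚ) + 1) / (2 * k + 1) := by
    rw [eq_div_iff hk1]
    linarith
  have b2 : ((3 * k + 1 + 1).choose k : ℚ)
      = ((3 * k).choose k) * (3 * (k : ℚ) + 1) * (3 * (k : ℚ) + 2) / ((2 * k + 1) * (2 * k + 2)) := by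
    rw [b1] at a2
    rw [eq_div_iff (mul_ne_zero hk1 hk2)]
    field_simp at a2
    linarith
  have e2 : 3 * k + 1 + 1 = 3 * k + 2 := by ring
  rw [e2] at b2
  have b3 : ((3 * k + 2).choose (k + 1) : ℚ) = 2 * ((3 * k + 2).choose k : ℚ) := by
    apply mul_right_cancel₀ hk3
    rw [a3]
    ring
  have b4 : 2 * ((3 * k + 2 + 1).choose (k + 1) : ℚ) = 3 * ((3 * k + 2).choose (k + 1) : ℚ) := by
    apply mul_right_cancel₀ hk3
    linarith
  have b5 : ((3 * k + 2 + 1).choose (k + 1) : ℚ) = 3 * ((3 * k + 2).choose k : ℚ) := by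
    rw [b3] at b4
    linarith
  rw [b5, b2]
  field_simp

lemma sgSucc (k : ℕ) :
    (sg (k + 1) : ℚ) * ((k : ℚ) + 1) ^ 3
      = 6 * (2 * (k : ℚ) + 1) * (3 * (k : ℚ) + 1) * (3 * (k : ℚ) + 2) * sg k := by
  have hk1 : (2 * (k : ℚ) + 1) ≠ 0 := by positivity
  have hk3 : ((k : ℚ) + 1) ≠ 0 := by positivity
  have h1 : ((2 * (k + 1)).choose (k + 1) : ℚ)
      = 2 * (2 * (k : ℚ) + 1) * (2 * k).choose k / (k + 1) := by
    rw [eq_div_iff hk3]; exact centralSucc k
  have h2 : ((3 * (k + 1)).choose (k + 1) : ℚ)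
      = 3 * (3 * (k : ℚ) + 1) * (3 * (k : ℚ) + 2) * (3 * k).choose k
        / (2 * ((k : ℚ) + 1) * (2 * (k : ℚ) + 1)) := by
    rw [eq_div_iff (by positivity)]; exact tripleSucc k
  unfold sg
  push_cast
  rw [h1, h2]
  field_simp
  ring

lemma tB_partial (N m : ℕ) :
    ∑ k ∈ range m, (((N : ℚ) + 2) ^ 3 * ((sg k : ℚ) * ((N + 2 + k).choose (3 * k)) * (-4) ^ (N + 2) / 16 ^ k)
      + pol N * ((sg k : ℚ) * ((N + 1 + k).choose (3 * k)) * (-4) ^ (N + 1) / 16 ^ k)
      + 64 * ((N : ℚ) + 1) ^ 3 * ((sg k : ℚ) * ((N + k).choose (3 * k)) * (-4) ^ N / 16 ^ k))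
    = -192 * (3 * (N : ℚ) + 4) * (m : ℚ) ^ 4 * sg m * ((N + 2 + m).choose (3 * m)) * (-4) ^ N / 16 ^ m
      / (((N : ℚ) + 1 + m) * ((N : ℚ) + 2 + m)) := by
  induction m with
  | zero => simp
  | succ m ih =>
    rw [sum_range_succ, ih]
    have hn1 : (N : ℚ) + 1 + m ≠ 0 := by positivity
    have hn2 : (N : ℚ) + 2 + m ≠ 0 := by positivity
    have hn3 : (N : ℚ) + 3 + m ≠ 0 := by positivity
    have hm1 : 3 * (m : ℚ) + 1 ≠ 0 := by positivity
    have hm2 : 3 * (m : ℚ) + 2 ≠ 0 := by positivity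
    have hm3 : (m : ℚ) + 1 ≠ 0 := by positivity
    have c1 : ((N + 1 + m).choose (3 * m) : ℚ)
        = ((N + 2 + m).choose (3 * m)) * ((N : ℚ) + 2 - 2 * m) / (N + 2 + m) := by
      have := choose_succ_left (N + 1 + m) (3 * m)
      rw [show N + 1 + m + 1 = N + 2 + m by ring] at this
      push_cast at this
      rw [eq_div_iff hn2]
      linarith
    have c0 : ((N + m).choose (3 * m) : ℚ)
        = ((N + 2 + m).choose (3 * m)) * ((N : ℚ) + 2 - 2 * m) * ((N : ℚ) + 1 - 2 * m)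
          / ((N + 1 + m) * (N + 2 + m)) := by
      have := choose_succ_left (N + m) (3 * m)
      rw [show N + m + 1 = N + 1 + m by ring, c1] at this
      push_cast at this
      rw [eq_div_iff (mul_ne_zero hn1 hn2)]
      field_simp at this
      linarith
    have c2 : ((N + 2 + (m + 1)).choose (3 * (m + 1)) : ℚ)
        = ((N + 2 + m).choose (3 * m)) * ((N : ℚ) + 3 + m) * ((N : ℚ) + 2 - 2 * m)
          * ((N : ℚ) + 1 - 2 * m) / ((3 * m + 1) * (3 * m + 2) * (3 * (m + 1))) := by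
      have a1 := choose_succ_right (N + 2 + m) (3 * m)
      have a2 := choose_succ_right (N + 2 + m) (3 * m + 1)
      have a3 := choose_succ_right (N + 2 + m) (3 * m + 2)
      have a4 := choose_succ_left (N + 2 + m) (3 * m + 3)
      rw [show N + 2 + (m + 1) = N + 2 + m + 1 by ring, show 3 * (m + 1) = 3 * m + 3 by ring]
      rw [show 3 * m + 1 + 1 = 3 * m + 2 by ring] at a2
      rw [show 3 * m + 2 + 1 = 3 * m + 3 by ring] at a3
      push_cast at a1 a2 a3 a4
      rw [eq_div_iff (by positivity)]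
      have e1 : ((N + 2 + m).choose (3 * m + 1) : ℚ)
          = ((N + 2 + m).choose (3 * m)) * ((N : ℚ) + 2 + m - 3 * m) / (3 * m + 1) := by
        rw [eq_div_iff hm1]; linarith
      have e2 : ((N + 2 + m).choose (3 * m + 2) : ℚ)
          = ((N + 2 + m).choose (3 * m)) * ((N : ℚ) + 2 + m - 3 * m)
            * ((N : ℚ) + 2 + m - (3 * m + 1)) / ((3 * m + 1) * (3 * m + 2)) := by
        rw [e1] at a2
        rw [eq_div_iff (mul_ne_zero hm1 hm2)]
        field_simp at a2
        linarith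
      have hmz : (3 * ((m : ℚ) + 1)) ≠ 0 := by positivity
      have e3 : ((N + 2 + m).choose (3 * m + 3) : ℚ)
          = ((N + 2 + m).choose (3 * m)) * ((N : ℚ) + 2 + m - 3 * m)
            * ((N : ℚ) + 2 + m - (3 * m + 1)) * ((N : ℚ) + 2 + m - (3 * m + 2))
            / ((3 * m + 1) * (3 * m + 2) * (3 * (m + 1))) := by
        rw [e2] at a3
        rw [eq_div_iff (by positivity)]
        field_simp at a3
        linarith
      rw [e3] at a4
      by_cases hz : ((N : ℚ) + 2 + m + 1 - (3 * m + 3)) = 0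
      · have hz2 : (N : ℚ) = 2 * m := by linarith
        have hN : N = 2 * m := by exact_mod_cast hz2
        subst hN
        have h3 : 2 * m + 2 + m + 1 = 3 * m + 3 := by ring
        rw [h3, Nat.choose_self]
        have h4 : ((2 * m + 2 + m).choose (3 * m) : ℚ) = (3 * m + 2) * (3 * m + 1) / 2 := by
          rw [show 2 * m + 2 + m = 3 * m + 2 by ring, Nat.choose_symm_add,
            Nat.choose_two_right]
          rw [Nat.cast_div_charZero (by
            have := Nat.even_mul_pred_self (3 * m + 2)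
            exact even_iff_two_dvd.mp this)]
          rw [show (3 * m + 2 - 1 : ℕ) = 3 * m + 1 by omega]
          push_cast
          ring
        rw [h4]
        push_cast
        ring
      · have a5 : ((N + 2 + m + 1).choose (3 * m + 3) : ℚ) * ((N : ℚ) + 2 + m + 1 - (3 * m + 3))
            = (((N + 2 + m).choose (3 * m)) * ((N : ℚ) + 3 + m) * ((N : ℚ) + 2 - 2 * m)
          * ((N : ℚ) + 1 - 2 * m) / ((3 * m + 1) * (3 * m + 2) * (3 * (m + 1))))
            * ((N : ℚ) + 2 + m + 1 - (3 * m + 3)) := by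
          rw [← a4]
          field_simp
          ring
        have a6 := mul_right_cancel₀ hz a5
        rw [a6]
        field_simp
    have s1 : (sg (m + 1) : ℚ)
        = 6 * (2 * (m : ℚ) + 1) * (3 * (m : ℚ) + 1) * (3 * (m : ℚ) + 2) * sg m / (m + 1) ^ 3 := by
      rw [eq_div_iff (by positivity)]
      exact sgSucc m
    rw [c1, c0, s1, c2]
    unfold pol
    push_cast
    rw [pow_succ, pow_succ, pow_succ (16 : ℚ)]
    field_simp
    ring

end Pool.Agent.MP8cc25e
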