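import Pool.Agent.Lib.MP_8cc25e_nt.Domb

/-!
The other two binomial transforms.
-/

namespace Pool.Agent.MP8cc25e

open Finset

lemma choose_succ_succ_mul (n k : ℕ) :
    ((n + 1).choose (k + 1) : ℚ) * ((k : ℚ) + 1) = ((n : ℚ) + 1) * n.choose k := by
  have h := Nat.add_one_mul_choose_eq n k
  have h2 : (((n + 1) * n.choose k : ℕ) : ℚ) = (((n + 1).choose (k + 1) * (k + 1) : ℕ) : ℚ) := by
    rw [h]
  push_cast at h2
  linarith

lemma tC_partial (N m : ℕ) :
    ∑ k ∈ range m, (((N : ℚ) + 2) ^ 3 * ((sg k : ℚ) * ((N + 2 + 2 * k).choose (3 * k)) * (-16) ^ (N + 2) / (-16) ^ k)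
      + pol N * ((sg k : ℚ) * ((N + 1 + 2 * k).choose (3 * k)) * (-16) ^ (N + 1) / (-16) ^ k)
      + 64 * ((N : ℚ) + 1) ^ 3 * ((sg k : ℚ) * ((N + 2 * k).choose (3 * k)) * (-16) ^ N / (-16) ^ k))
    = -768 * (3 * (N : ℚ) + 5) * (m : ℚ) ^ 4 * sg m * ((N + 2 + 2 * m).choose (3 * m)) * (-16) ^ N / (-16) ^ m
      / (((N : ℚ) + 1 + 2 * m) * ((N : ℚ) + 2 + 2 * m)) := by
  induction m with
  | zero => simp
  | succ m ih =>
    rw [sum_range_succ, ih]
    have hn1 : (N : ℚ) + 1 + 2 * m ≠ 0 := by positivity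
    have hn2 : (N : ℚ) + 2 + 2 * m ≠ 0 := by positivity
    have hn3 : (N : ℚ) + 3 + 2 * m ≠ 0 := by positivity
    have hn4 : (N : ℚ) + 4 + 2 * m ≠ 0 := by positivity
    have hm1 : 3 * (m : ℚ) + 1 ≠ 0 := by positivity
    have hm2 : 3 * (m : ℚ) + 2 ≠ 0 := by positivity
    have hm3 : 3 * (m : ℚ) + 3 ≠ 0 := by positivity
    have hm4 : (m : ℚ) + 1 ≠ 0 := by positivity
    have c1 : ((N + 1 + 2 * m).choose (3 * m) : ℚ)
        = ((N + 2 + 2 * m).choose (3 * m)) * ((N : ℚ) + 2 - m) / (N + 2 + 2 * m) := by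
      have := choose_succ_left (N + 1 + 2 * m) (3 * m)
      rw [show N + 1 + 2 * m + 1 = N + 2 + 2 * m by ring] at this
      push_cast at this
      rw [eq_div_iff hn2]
      linarith
    have c0 : ((N + 2 * m).choose (3 * m) : ℚ)
        = ((N + 2 + 2 * m).choose (3 * m)) * ((N : ℚ) + 2 - m) * ((N : ℚ) + 1 - m)
          / ((N + 1 + 2 * m) * (N + 2 + 2 * m)) := by
      have := choose_succ_left (N + 2 * m) (3 * m)
      rw [show N + 2 * m + 1 = N + 1 + 2 * m by ring, c1] at this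
      push_cast at this
      rw [eq_div_iff (mul_ne_zero hn1 hn2)]
      field_simp at this
      linarith
    have c2 : ((N + 2 + 2 * (m + 1)).choose (3 * (m + 1)) : ℚ)
        = ((N + 2 + 2 * m).choose (3 * m)) * ((N : ℚ) + 4 + 2 * m) * ((N : ℚ) + 3 + 2 * m)
          * ((N : ℚ) + 2 - m) / ((3 * m + 1) * (3 * m + 2) * (3 * m + 3)) := by
      have a1 := choose_succ_right (N + 2 + 2 * m) (3 * m)
      have a2 := choose_succ_succ_mul (N + 2 + 2 * m) (3 * m + 1)
      have a3 := choose_succ_succ_mul (N + 2 + 2 * m + 1) (3 * m + 2)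
      rw [show N + 2 + 2 * (m + 1) = N + 2 + 2 * m + 1 + 1 by ring,
        show 3 * (m + 1) = 3 * m + 2 + 1 by ring]
      push_cast at a1 a2 a3
      have e1 : ((N + 2 + 2 * m).choose (3 * m + 1) : ℚ)
          = ((N + 2 + 2 * m).choose (3 * m)) * ((N : ℚ) + 2 - m) / (3 * m + 1) := by
        rw [eq_div_iff hm1]; linarith
      have e2 : ((N + 2 + 2 * m + 1).choose (3 * m + 2) : ℚ)
          = ((N : ℚ) + 3 + 2 * m) * ((N + 2 + 2 * m).choose (3 * m + 1)) / (3 * m + 2) := by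
        rw [eq_div_iff hm2]
        linarith
      have e3 : ((N + 2 + 2 * m + 1 + 1).choose (3 * m + 2 + 1) : ℚ)
          = ((N : ℚ) + 4 + 2 * m) * ((N + 2 + 2 * m + 1).choose (3 * m + 2)) / (3 * m + 3) := by
        rw [eq_div_iff hm3]
        linarith
      rw [e3, e2, e1]
      field_simp
    have s1 : (sg (m + 1) : ℚ)
        = 6 * (2 * (m : ℚ) + 1) * (3 * (m : ℚ) + 1) * (3 * (m : ℚ) + 2) * sg m / (m + 1) ^ 3 := by
      rw [eq_div_iff (by positivity)]
      exact sgSucc m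
    rw [c1, c0, s1, c2]
    unfold pol
    push_cast
    rw [pow_succ (-16 : ℚ) (N + 1), pow_succ (-16 : ℚ) N, pow_succ (-16 : ℚ) m]
    have h16 : ((-16 : ℚ)) ^ m ≠ 0 := pow_ne_zero _ (by norm_num)
    field_simp
    ring

/-- The recurrence for the Franel numbers, division free shape used below. -/
lemma franel_succ2 (m : ℕ) :
    (franel (m + 2) : ℚ) = ((7 * (m : ℚ) ^ 2 + 21 * m + 16) * franel (m + 1)
      + 8 * ((m : ℚ) + 1) ^ 2 * franel m) / ((m : ℚ) + 2) ^ 2 := by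
  rw [eq_div_iff (by positivity)]
  linarith [franel_rec m]

lemma tA_partial (N m : ℕ) :
    ∑ k ∈ range (m + 1), (((N : ℚ) + 2) ^ 3 * ((gg k : ℚ) * ((N + 2 + k).choose (2 * k)) * (-8) ^ (N + 2) / (-8) ^ k)
      + pol N * ((gg k : ℚ) * ((N + 1 + k).choose (2 * k)) * (-8) ^ (N + 1) / (-8) ^ k)
      + 64 * ((N : ℚ) + 1) ^ 3 * ((gg k : ℚ) * ((N + k).choose (2 * k)) * (-8) ^ N / (-8) ^ k))
    = -128 * (2 * (N : ℚ) + 3) * ((2 * m).choose m) * ((N + 2 + m).choose (2 * m)) * (-8) ^ N / (-8) ^ m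
      / (((N : ℚ) + 1 + m) * ((N : ℚ) + 2 + m)) * (-(((N : ℚ) + 2 - m) * ((N : ℚ) + 1 + m)) / 8)
      * (((m : ℚ) + 1) ^ 2 * franel (m + 1)
          - ((N : ℚ) + 2 + m) * ((N : ℚ) + 1 - m) * franel m) := by
  induction m with
  | zero =>
    have f0 : franel 0 = 1 := by decide
    have f1 : franel 1 = 2 := by decide
    rw [sum_range_one]
    simp only [gg, f0, mul_zero, Nat.choose_self, add_zero, Nat.choose_zero_right, pow_zero,
      Nat.cast_zero, f1]
    unfold pol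
    rw [pow_succ (-8 : ℚ) (N + 1), pow_succ (-8 : ℚ) N]
    have hn1 : (N : ℚ) + 1 ≠ 0 := by positivity
    have hn2 : (N : ℚ) + 2 ≠ 0 := by positivity
    push_cast
    field_simp
    ring
  | succ m ih =>
    rw [sum_range_succ, ih]
    have hn1 : (N : ℚ) + 1 + m ≠ 0 := by positivity
    have hn2 : (N : ℚ) + 2 + m ≠ 0 := by positivity
    have hn3 : (N : ℚ) + 3 + m ≠ 0 := by positivity
    have hm1 : 2 * (m : ℚ) + 1 ≠ 0 := by positivity
    have hm2 : 2 * (m : ℚ) + 2 ≠ 0 := by positivity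
    have hm3 : (m : ℚ) + 1 ≠ 0 := by positivity
    have hm4 : (m : ℚ) + 2 ≠ 0 := by positivity
    have c2 : ((N + 2 + (m + 1)).choose (2 * (m + 1)) : ℚ)
        = ((N + 2 + m).choose (2 * m)) * ((N : ℚ) + 3 + m) * ((N : ℚ) + 2 - m)
          / ((2 * m + 1) * (2 * m + 2)) := by
      have a1 := choose_succ_right (N + 2 + m) (2 * m)
      have a2 := choose_succ_succ_mul (N + 2 + m) (2 * m + 1)
      rw [show N + 2 + (m + 1) = N + 2 + m + 1 by ring, show 2 * (m + 1) = 2 * m + 1 + 1 by ring]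
      push_cast at a1 a2
      have e1 : ((N + 2 + m).choose (2 * m + 1) : ℚ)
          = ((N + 2 + m).choose (2 * m)) * ((N : ℚ) + 2 - m) / (2 * m + 1) := by
        rw [eq_div_iff hm1]; linarith
      have e2 : ((N + 2 + m + 1).choose (2 * m + 1 + 1) : ℚ)
          = ((N : ℚ) + 3 + m) * ((N + 2 + m).choose (2 * m + 1)) / (2 * m + 2) := by
        rw [eq_div_iff hm2]; linarith
      rw [e2, e1]
      field_simp
    have c1 : ((N + 1 + (m + 1)).choose (2 * (m + 1)) : ℚ)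
        = ((N + 2 + m).choose (2 * m)) * ((N : ℚ) + 2 - m) * ((N : ℚ) + 1 - m)
          / ((2 * m + 1) * (2 * m + 2)) := by
      have a1 := choose_succ_right (N + 2 + m) (2 * m)
      have a2 := choose_succ_right (N + 2 + m) (2 * m + 1)
      rw [show N + 1 + (m + 1) = N + 2 + m by ring, show 2 * (m + 1) = 2 * m + 1 + 1 by ring]
      push_cast at a1 a2
      have e1 : ((N + 2 + m).choose (2 * m + 1) : ℚ)
          = ((N + 2 + m).choose (2 * m)) * ((N : ℚ) + 2 - m) / (2 * m + 1) := by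
        rw [eq_div_iff hm1]; linarith
      have e2 : ((N + 2 + m).choose (2 * m + 1 + 1) : ℚ)
          = ((N + 2 + m).choose (2 * m + 1)) * ((N : ℚ) + 1 - m) / (2 * m + 2) := by
        rw [eq_div_iff hm2]; linarith
      rw [e2, e1]
      field_simp
    have c0 : ((N + (m + 1)).choose (2 * (m + 1)) : ℚ)
        = ((N + 2 + m).choose (2 * m)) * ((N : ℚ) + 2 - m) * ((N : ℚ) + 1 - m) * ((N : ℚ) - m)
          / ((2 * m + 1) * (2 * m + 2) * (N + 2 + m)) := by
      have := choose_succ_left (N + (m + 1)) (2 * (m + 1))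
      rw [show N + (m + 1) + 1 = N + 1 + (m + 1) by ring, c1] at this
      push_cast at this
      rw [eq_div_iff (by positivity)]
      have h5 : (((N + (m + 1)).choose (2 * (m + 1)) : ℕ) : ℚ) * ((N : ℚ) + 2 + m)
          = ((N + 2 + m).choose (2 * m)) * ((N : ℚ) + 2 - m) * ((N : ℚ) + 1 - m)
            / ((2 * m + 1) * (2 * m + 2)) * ((N : ℚ) - m) := by
        rw [show ((N : ℚ) + 2 + m) = (N : ℚ) + ((m : ℚ) + 1) + 1 by ring, this]
        ring
      calc _ = (((N + (m + 1)).choose (2 * (m + 1)) : ℕ) : ℚ) * ((N : ℚ) + 2 + m)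
            * ((2 * m + 1) * (2 * m + 2)) := by ring
        _ = _ := by
          rw [h5]
          field_simp
    have s1 : ((2 * (m + 1)).choose (m + 1) : ℚ)
        = 2 * (2 * (m : ℚ) + 1) * ((2 * m).choose m) / (m + 1) := by
      rw [eq_div_iff hm3]
      exact centralSucc m
    have g1 : (gg (m + 1) : ℚ) = 2 * (2 * (m : ℚ) + 1) * ((2 * m).choose m) / (m + 1) * franel (m + 1) := by
      unfold gg
      push_cast
      rw [s1]
    rw [g1, s1, c1, c0, c2, franel_succ2 m]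
    unfold pol
    push_cast
    rw [pow_succ (-8 : ℚ) (N + 1), pow_succ (-8 : ℚ) N, pow_succ (-8 : ℚ) m]
    have h8 : ((-8 : ℚ)) ^ m ≠ 0 := pow_ne_zero _ (by norm_num)
    field_simp
    ring

end Pool.Agent.MP8cc25e
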