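import Pool.Agent.Lib.MP_8cc25e_nt.Domb2

/-!
The three transforms are equal.
-/

namespace Pool.Agent.MP8cc25e

open Finset

lemma tB_ext (N m : ℕ) (h : N + 1 ≤ m) :
    tB N = ∑ k ∈ range m, (sg k : ℚ) * ((N + k).choose (3 * k)) * (-4) ^ N / 16 ^ k := by
  unfold tB
  apply sum_subset
  · intro k hk
    simp only [mem_range] at *
    omega
  · intro k _ hk
    simp only [mem_range, not_lt] at hk
    rw [Nat.choose_eq_zero_of_lt (by omega)]
    simp

lemma tC_ext (N m : ℕ) (h : N + 1 ≤ m) :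
    tC N = ∑ k ∈ range m, (sg k : ℚ) * ((N + 2 * k).choose (3 * k)) * (-16) ^ N / (-16) ^ k := by
  unfold tC
  apply sum_subset
  · intro k hk
    simp only [mem_range] at *
    omega
  · intro k _ hk
    simp only [mem_range, not_lt] at hk
    rw [Nat.choose_eq_zero_of_lt (by omega)]
    simp

lemma tA_ext (N m : ℕ) (h : N + 1 ≤ m) :
    tA N = ∑ k ∈ range m, (gg k : ℚ) * ((N + k).choose (2 * k)) * (-8) ^ N / (-8) ^ k := by
  unfold tA
  apply sum_subset
  · intro k hk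
    simp only [mem_range] at *
    omega
  · intro k _ hk
    simp only [mem_range, not_lt] at hk
    rw [Nat.choose_eq_zero_of_lt (by omega)]
    simp

lemma tB_rec (N : ℕ) :
    ((N : ℚ) + 2) ^ 3 * tB (N + 2) + pol N * tB (N + 1) + 64 * ((N : ℚ) + 1) ^ 3 * tB N = 0 := by
  rw [tB_ext (N + 2) (N + 3) (by omega), tB_ext (N + 1) (N + 3) (by omega),
    tB_ext N (N + 3) (by omega), mul_sum, mul_sum, mul_sum, ← sum_add_distrib, ← sum_add_distrib,
    tB_partial N (N + 3), Nat.choose_eq_zero_of_lt (by omega : N + 2 + (N + 3) < 3 * (N + 3))]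
  simp

lemma tC_rec (N : ℕ) :
    ((N : ℚ) + 2) ^ 3 * tC (N + 2) + pol N * tC (N + 1) + 64 * ((N : ℚ) + 1) ^ 3 * tC N = 0 := by
  rw [tC_ext (N + 2) (N + 3) (by omega), tC_ext (N + 1) (N + 3) (by omega),
    tC_ext N (N + 3) (by omega), mul_sum, mul_sum, mul_sum, ← sum_add_distrib, ← sum_add_distrib,
    tC_partial N (N + 3), Nat.choose_eq_zero_of_lt (by omega : N + 2 + 2 * (N + 3) < 3 * (N + 3))]
  simp

lemma tA_rec (N : ℕ) :
    ((N : ℚ) + 2) ^ 3 * tA (N + 2) + pol N * tA (N + 1) + 64 * ((N : ℚ) + 1) ^ 3 * tA N = 0 := by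
  rw [tA_ext (N + 2) (N + 3) (by omega), tA_ext (N + 1) (N + 3) (by omega),
    tA_ext N (N + 3) (by omega), mul_sum, mul_sum, mul_sum, ← sum_add_distrib, ← sum_add_distrib,
    show N + 3 = (N + 2) + 1 by ring, tA_partial N (N + 2)]
  push_cast
  ring

/-- A sequence with this recurrence is determined by its first two terms. -/
lemma rec_unique (s t : ℕ → ℚ)
    (hs : ∀ N : ℕ, ((N : ℚ) + 2) ^ 3 * s (N + 2) + pol N * s (N + 1)
      + 64 * ((N : ℚ) + 1) ^ 3 * s N = 0)
    (ht : ∀ N : ℕ, ((N : ℚ) + 2) ^ 3 * t (N + 2) + pol N * t (N + 1)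
      + 64 * ((N : ℚ) + 1) ^ 3 * t N = 0)
    (h0 : s 0 = t 0) (h1 : s 1 = t 1) (N : ℕ) : s N = t N := by
  have key : ∀ N : ℕ, s N = t N ∧ s (N + 1) = t (N + 1) := by
    intro N
    induction N with
    | zero => exact ⟨h0, h1⟩
    | succ N ih =>
      refine ⟨ih.2, ?_⟩
      have a := hs N
      have b := ht N
      rw [ih.1, ih.2] at a
      have c : ((N : ℚ) + 2) ^ 3 * s (N + 2) = ((N : ℚ) + 2) ^ 3 * t (N + 2) := by linarith
      exact mul_left_cancel₀ (by positivity) c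
  exact (key N).1

theorem tC_eq_tB (N : ℕ) : tC N = tB N := by
  apply rec_unique _ _ tC_rec tB_rec
  · norm_num [tC, tB, sg, sum_range_succ]
  · norm_num [tC, tB, sg, sum_range_succ, Nat.choose]

theorem tA_eq_tB (N : ℕ) : tA N = tB N := by
  apply rec_unique _ _ tA_rec tB_rec
  · norm_num [tA, tB, sg, gg, franel, sum_range_succ]
  · norm_num [tA, tB, sg, gg, franel, sum_range_succ, Nat.choose]

end Pool.Agent.MP8cc25e
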