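import Pool.Agent.Lib.MP_8cc25e_nt.Lift2

/-!
Lift theorem in the variable `m`, and the inert half.
-/

namespace Pool.Agent.MP8cc25e

open Finset Polynomial

lemma YY_eval (p : ℕ) (z : ℤ) : (YY p).eval z = ∑ n ∈ range p, (gg n : ℤ) * z ^ n := by
  unfold YY
  rw [eval_finsetSum]
  simp

lemma NN_YY (p : ℕ) (m z : ℤ) (h : (p : ℤ) ^ 2 ∣ m * z - 1) :
    (p : ℤ) ^ 2 ∣ m ^ (p - 1) * (YY p).eval z - NN p m := by
  rw [YY_eval, NN, mul_sum, ← sum_sub_distrib]
  apply dvd_sum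
  intro n hn
  rw [mem_range] at hn
  have e : m ^ (p - 1) = m ^ (p - 1 - n) * m ^ n := by
    rw [← pow_add]
    congr 1
    omega
  have h2 : m ^ (p - 1) * ((gg n : ℤ) * z ^ n) - (gg n : ℤ) * m ^ (p - 1 - n)
      = ((m * z) ^ n - 1 ^ n) * ((gg n : ℤ) * m ^ (p - 1 - n)) := by
    rw [e, mul_pow]
    ring
  rw [h2]
  exact Dvd.dvd.mul_right (h.trans (sub_dvd_pow_sub_pow _ _ n)) _

/-- A zero of the truncated sum modulo `p` away from the singular points is a zero modulo `p^2`. -/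
theorem lift_z (p : ℕ) (hp : p.Prime) (z : ℤ) (hz : ¬ (p : ℤ) ∣ z)
    (hP : ¬ (p : ℤ) ∣ 1 - 28 * z - 128 * z ^ 2) (h0 : (p : ℤ) ∣ (YY p).eval z) :
    (p : ℤ) ^ 2 ∣ (YY p).eval z := by
  have hpz : Prime (p : ℤ) := Nat.prime_iff_prime_int.mp hp
  have hI := II_eval_dvd p hp z
  have hev : (II (YY p)).eval z = (1 - 28 * z - 128 * z ^ 2)
      * (2 * (YY p).eval z * (th (th (YY p))).eval z - ((th (YY p)).eval z) ^ 2)
      - (28 * z + 256 * z ^ 2) * (YY p).eval z * (th (YY p)).eval z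
      - (8 * z + 96 * z ^ 2) * ((YY p).eval z) ^ 2 := by
    unfold II
    simp only [eval_sub, eval_mul, eval_add, eval_pow, eval_X, eval_one, eval_ofNat]
  rw [hev] at hI
  set y0 := (YY p).eval z with hy0
  set y1 := (th (YY p)).eval z with hy1
  set y2 := (th (th (YY p))).eval z with hy2
  obtain ⟨a, ha⟩ := h0
  -- first the derivative
  have h1 : (p : ℤ) ∣ y1 := by
    have hI1 : (p : ℤ) ∣ (1 - 28 * z - 128 * z ^ 2) * y1 ^ 2 := by
      obtain ⟨c, hc⟩ := hI
      rw [ha] at hc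
      exact ⟨(1 - 28 * z - 128 * z ^ 2) * 2 * a * y2 - (28 * z + 256 * z ^ 2) * a * y1
        - (8 * z + 96 * z ^ 2) * p * a ^ 2 - p * c, by linear_combination (-1 : ℤ) * hc⟩
    rcases hpz.dvd_or_dvd hI1 with h | h
    · exact absurd h hP
    · exact hpz.dvd_of_dvd_pow h
  obtain ⟨b, hb⟩ := h1
  -- second derivative is a unit
  have h2 : ¬ (p : ℤ) ∣ y2 := by
    intro hd
    have hfact : Fact p.Prime := ⟨hp⟩
    let φ := Int.castRingHom (ZMod p)
    set f : (ZMod p)[X] := (YY p).map φ with hf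
    have thmap : ∀ g : ℤ[X], th (g.map φ) = (th g).map φ := by
      intro g
      unfold th
      rw [Polynomial.map_mul, Polynomial.map_X, derivative_map]
    have fz : ∀ g : ℤ[X], (g.map φ).eval (z : ZMod p) = ((g.eval z : ℤ) : ZMod p) := by
      intro g
      rw [show (z : ZMod p) = φ z from rfl, eval_map_apply]
      rfl
    have hfne : f ≠ 0 := by
      intro h
      have hc := congrArg (fun g => coeff g 0) h
      simp only [hf, coeff_map, coeff_zero] at hc
      rw [YY_coeff, if_pos hp.pos] at hc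
      have g0 : gg 0 = 1 := by decide
      rw [g0] at hc
      simp at hc
    have hdeg : f.natDegree < p := by
      have h3 : (YY p).natDegree ≤ p - 1 := by
        unfold YY
        apply natDegree_sum_le_of_forall_le
        intro n hn
        rw [mem_range] at hn
        exact (natDegree_C_mul_X_pow_le _ _).trans (by omega)
      have h4 : f.natDegree ≤ (YY p).natDegree := natDegree_map_le
      have := hp.pos
      omega
    have hLL : LL f = 0 := by
      have h5 : LL f = (LL (YY p)).map φ := by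
        unfold LL
        rw [hf, thmap, thmap, thmap]
        simp only [Polynomial.map_sub, Polynomial.map_mul, Polynomial.map_add, Polynomial.map_pow,
          Polynomial.map_X, Polynomial.map_ofNat]
      have c1 : φ (-((p : ℤ) ^ 3 * gg p)) = 0 := by simp [φ]
      have c2 : φ (-(32 * (p : ℤ) * (4 * (p : ℤ) ^ 2 - 1) * gg (p - 1))) = 0 := by simp [φ]
      rw [h5, LL_YY p hp.two_le, Polynomial.map_add, Polynomial.map_mul, Polynomial.map_mul,
        Polynomial.map_C, Polynomial.map_C, c1, c2]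
      simp
    have hz' : (z : ZMod p) ≠ 0 := by
      intro h
      exact hz ((ZMod.intCast_zmod_eq_zero_iff_dvd z p).mp h)
    have hP' : (1 : ZMod p) - 28 * z - 128 * (z : ZMod p) ^ 2 ≠ 0 := by
      intro h
      apply hP
      rw [← ZMod.intCast_zmod_eq_zero_iff_dvd]
      push_cast
      exact h
    refine no_triple p hp f hfne hdeg hLL (z : ZMod p) hz' hP' ?_ ?_ ?_
    · rw [hf, fz, ← hy0, ha]
      push_cast
      simp
    · rw [hf, thmap, fz, ← hy1, hb]
      push_cast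
      simp
    · rw [hf, thmap, thmap, fz, ← hy2]
      exact (ZMod.intCast_zmod_eq_zero_iff_dvd y2 p).mpr hd
  have h2p : ¬ (p : ℤ) ∣ 2 := by
    intro h
    have : (p : ℤ) ∣ 1 - 28 * z - 128 * z ^ 2 ∨ True := Or.inr trivial
    have hpn : p ∣ 2 := by exact_mod_cast h
    have hp2 : p = 2 := (Nat.prime_dvd_prime_iff_eq hp Nat.prime_two).mp hpn
    subst hp2
    have e0 : (YY 2).eval z = 1 + 4 * z := by
      rw [YY_eval, sum_range_succ, sum_range_one]
      have g0 : gg 0 = 1 := by decide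
      have g1 : gg 1 = 4 := by decide
      rw [g0, g1]
      push_cast
      ring
    rw [← hy0] at e0
    rw [e0] at ha
    push_cast at ha
    omega
  have h3 : (p : ℤ) ^ 2 ∣ (p : ℤ) * ((1 - 28 * z - 128 * z ^ 2) * 2 * a * y2) := by
    obtain ⟨c, hc⟩ := hI
    rw [ha, hb] at hc
    exact ⟨c + (1 - 28 * z - 128 * z ^ 2) * b ^ 2 + (28 * z + 256 * z ^ 2) * a * b
      + (8 * z + 96 * z ^ 2) * a ^ 2, by linear_combination hc⟩
  have h4 : (p : ℤ) ∣ (1 - 28 * z - 128 * z ^ 2) * 2 * a * y2 := by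
    rw [pow_two] at h3
    exact Int.dvd_of_mul_dvd_mul_left hpz.ne_zero h3
  have h5 : (p : ℤ) ∣ a := by
    rcases hpz.dvd_or_dvd h4 with h | h
    · rcases hpz.dvd_or_dvd h with h' | h'
      · rcases hpz.dvd_or_dvd h' with h'' | h''
        · exact absurd h'' hP
        · exact absurd h'' h2p
      · exact h'
    · exact absurd h h2
  obtain ⟨d, hd⟩ := h5
  rw [ha, hd]
  exact ⟨d, by ring⟩

theorem lift_m (p : ℕ) (hp : p.Prime) (m : ℤ) (hm : ¬ (p : ℤ) ∣ m * (m - 32) * (m + 4))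
    (h0 : (p : ℤ) ∣ NN p m) : (p : ℤ) ^ 2 ∣ NN p m := by
  have hpz : Prime (p : ℤ) := Nat.prime_iff_prime_int.mp hp
  have hm0 : ¬ (p : ℤ) ∣ m := fun h => hm (Dvd.dvd.mul_right (Dvd.dvd.mul_right h _) _)
  have hcop : IsCoprime m ((p : ℤ) ^ 2) :=
    (IsCoprime.pow_left ((Prime.coprime_iff_not_dvd hpz).mpr hm0)).symm
  obtain ⟨z, b, hzb⟩ := hcop
  have hmz : (p : ℤ) ^ 2 ∣ m * z - 1 := ⟨-b, by linear_combination hzb⟩
  have hp2 : (p : ℤ) ∣ (p : ℤ) ^ 2 := dvd_pow_self _ (by norm_num)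
  have hmz1 : (p : ℤ) ∣ m * z - 1 := hp2.trans hmz
  have hN := NN_YY p m z hmz
  have hY : (p : ℤ) ∣ (YY p).eval z := by
    have h1 : (p : ℤ) ∣ m ^ (p - 1) * (YY p).eval z := by
      have h2 := dvd_add (hp2.trans hN) h0
      simpa using h2
    rcases hpz.dvd_or_dvd h1 with h | h
    · exact absurd (hpz.dvd_of_dvd_pow h) hm0
    · exact h
  have hz : ¬ (p : ℤ) ∣ z := by
    intro h
    have h1 : (p : ℤ) ∣ 1 := by
      obtain ⟨c, hc⟩ := hmz1
      obtain ⟨d, hd⟩ := h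
      exact ⟨m * d - c, by rw [hd] at hc; linear_combination (-1 : ℤ) * hc⟩
    exact hpz.not_isUnit (isUnit_of_dvd_one h1)
  have hP : ¬ (p : ℤ) ∣ 1 - 28 * z - 128 * z ^ 2 := by
    intro h
    apply hm
    obtain ⟨c, hc⟩ := hmz1
    obtain ⟨d, hd⟩ := h
    -- m (m-32)(m+4) = m (m^2 - 28 m - 128), and m^2 (1 - 28 z - 128 z^2) = m^2 - 28 m (mz) - 128 (mz)^2
    refine ⟨m * (m ^ 2 * d + 28 * m * c + 128 * (m * z + 1) * c), ?_⟩
    have e1 : m * z = 1 + p * c := by linear_combination hc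
    linear_combination m * (m ^ 2 * hd + (28 * m + 128 * (m * z + 1)) * e1)
  have h2 := lift_z p hp z hz hP hY
  have h3 := dvd_sub (Dvd.dvd.mul_left h2 (m ^ (p - 1))) hN
  simpa using h3

theorem inert_half (p : ℕ) (hp : p.Prime) (h7 : 7 < p)
    (h : p % 30 = 7 ∨ p % 30 = 11 ∨ p % 30 = 13 ∨ p % 30 = 29) :
    (p : ℤ) ^ 2 ∣ NN p 5 ∧ (p : ℤ) ^ 2 ∣ NN p (-49) := by
  obtain ⟨a, b⟩ := both_mod_p p hp h7 h
  have small : ∀ q : ℕ, q < 8 → 1 < q → ¬ p ∣ q := by
    intro q h1 h2 h3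
    have := Nat.le_of_dvd (by omega) h3
    omega
  constructor
  · apply lift_m p hp 5 _ a
    intro hd
    have h1 : (p : ℤ) ∣ ((3 ^ 5 * 5 : ℕ) : ℤ) := by
      have : (5 : ℤ) * (5 - 32) * (5 + 4) = -((3 ^ 5 * 5 : ℕ) : ℤ) := by norm_num
      rw [this] at hd
      exact (dvd_neg.mp hd)
    have h2 : p ∣ 3 ^ 5 * 5 := by exact_mod_cast h1
    rcases hp.dvd_mul.mp h2 with h3 | h3
    · exact small 3 (by norm_num) (by norm_num) (hp.dvd_of_dvd_pow h3)
    · exact small 5 (by norm_num) (by norm_num) h3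
  · apply lift_m p hp (-49) _ b
    intro hd
    have h1 : (p : ℤ) ∣ ((3 ^ 6 * 5 * 7 ^ 2 : ℕ) : ℤ) := by
      have : (-49 : ℤ) * (-49 - 32) * (-49 + 4) = -((3 ^ 6 * 5 * 7 ^ 2 : ℕ) : ℤ) := by norm_num
      rw [this] at hd
      exact (dvd_neg.mp hd)
    have h2 : p ∣ 3 ^ 6 * 5 * 7 ^ 2 := by exact_mod_cast h1
    rcases hp.dvd_mul.mp h2 with h3 | h3
    · rcases hp.dvd_mul.mp h3 with h4 | h4
      · exact small 3 (by norm_num) (by norm_num) (hp.dvd_of_dvd_pow h4)
      · exact small 5 (by norm_num) (by norm_num) h4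
    · exact small 7 (by norm_num) (by norm_num) (hp.dvd_of_dvd_pow h3)

end Pool.Agent.MP8cc25e
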