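import Pool.Agent.Lib.MP_8cc25e_nt.CM

/-!
For primes with `-15` a non-square the two sums vanish modulo `p`.
-/

namespace Pool.Agent.MP8cc25e

open Finset

/-- The integer `m^(p-1) Z_p(m)`. -/
def NN (p : ℕ) (m : ℤ) : ℤ := ∑ n ∈ range p, (gg n : ℤ) * m ^ (p - 1 - n)

lemma NN_cast {K : Type*} [Field K] (p : ℕ) [hp : Fact p.Prime] [CharP K p] (m : ℤ)
    (hm : ((m : ℤ) : K) ≠ 0) :
    ((NN p m : ℤ) : K) = ((m : ℤ) : K) ^ (p - 1) * trunc p 2 gg (((m : ℤ) : K)⁻¹) := by
  unfold NN trunc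
  push_cast
  rw [mul_sum]
  apply sum_congr rfl
  intro n hn
  rw [mem_range] at hn
  split_ifs with h
  · have e : ((m : ℤ) : K) ^ (p - 1) = ((m : ℤ) : K) ^ (p - 1 - n) * ((m : ℤ) : K) ^ n := by
      rw [← pow_add]
      congr 1
      omega
    rw [e, inv_pow]
    field_simp
  · rw [gg_zero p n hn (by omega)]
    simp

lemma legendre_neg15 (p : ℕ) [hp : Fact p.Prime]
    (h : p % 30 = 7 ∨ p % 30 = 11 ∨ p % 30 = 13 ∨ p % 30 = 29) : legendreSym p (-15) = -1 := by
  rw [jacobiSym.legendreSym.to_jacobiSym]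
  have hodd : Odd p := by
    rw [Nat.odd_iff]
    omega
  rw [jacobiSym.mod_right _ hodd]
  have h60 : p % (4 * (-15 : ℤ).natAbs) = p % 60 := by norm_num
  rw [h60]
  have hc : p % 60 = 7 ∨ p % 60 = 37 ∨ p % 60 = 11 ∨ p % 60 = 41 ∨ p % 60 = 13 ∨ p % 60 = 43 ∨
      p % 60 = 29 ∨ p % 60 = 59 := by omega
  rcases hc with h | h | h | h | h | h | h | h <;> rw [h] <;> norm_num

lemma both_aux {K : Type*} [Field K] (p : ℕ) [hp : Fact p.Prime] [CharP K p] (h7 : 7 < p)
    (r : K) (hr : r ^ 2 = -15) (hrp : r ^ p = -r) :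
    (p : ℤ) ∣ NN p 5 ∧ (p : ℤ) ∣ NN p (-49) := by
  obtain ⟨hS, u, hu⟩ := sum27_zero (K := K) p (by omega) r hr hrp
  have h3' : (3 : K) ≠ 0 := by
    have := cast_ne_zero_of_lt (K := K) p (j := 3) (by norm_num) (by omega)
    exact_mod_cast this
  have h5' : (5 : K) ≠ 0 := by
    have := cast_ne_zero_of_lt (K := K) p (j := 5) (by norm_num) (by omega)
    exact_mod_cast this
  have h7' : (7 : K) ≠ 0 := by
    have := cast_ne_zero_of_lt (K := K) p (j := 7) (by norm_num) (by omega)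
    exact_mod_cast this
  have h27 : (27 : K) ≠ 0 := by
    rw [show (27 : K) = 3 ^ 3 by norm_num]
    exact pow_ne_zero _ h3'
  have h49 : (-49 : K) ≠ 0 := by
    rw [show (-49 : K) = -(7 ^ 2) by norm_num]
    exact neg_ne_zero.mpr (pow_ne_zero _ h7')
  constructor
  · have hu0 : u ≠ 0 := by
      intro h0
      rw [h0] at hu
      norm_num at hu
    have h8 : (1 + 8 * u) ≠ 0 := by
      intro h0
      have : (5 : K) * u = 0 := by
        have e : (5 : K) * u = (1 + 8 * u) ^ 2 := by linear_combination -hu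
        rw [e, h0]
        norm_num
      rcases mul_eq_zero.mp this with h' | h'
      · exact h5' h'
      · exact hu0 h'
    have l := link_AB p u (5 : K)⁻¹ (-(27 : K)⁻¹) (by field_simp; linear_combination -hu)
      (by field_simp; linear_combination (u + 1) * hu)
    rw [hS, mul_zero] at l
    have l2 : trunc p 2 gg (5 : K)⁻¹ = 0 :=
      (mul_eq_zero.mp l).resolve_left (pow_ne_zero _ h8)
    have c := NN_cast (K := K) p 5 (by push_cast; exact h5')
    rw [← CharP.intCast_eq_zero_iff K p, c]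
    push_cast
    rw [l2, mul_zero]
  · have l := link_AB p (-1 : K) (-49 : K)⁻¹ (-(27 : K)⁻¹)
      (by rw [show (1 + 8 * (-1 : K)) ^ 2 = (-49) * (-1) by norm_num, inv_mul_cancel_left₀ h49,
            pow_one])
      (by field_simp; norm_num)
    rw [hS, mul_zero] at l
    have h8 : (1 + 8 * (-1 : K)) ≠ 0 := by
      rw [show (1 + 8 * (-1 : K)) = -7 by norm_num]
      exact neg_ne_zero.mpr h7'
    have l2 : trunc p 2 gg (-49 : K)⁻¹ = 0 :=
      (mul_eq_zero.mp l).resolve_left (pow_ne_zero _ h8)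
    have c := NN_cast (K := K) p (-49) (by push_cast; exact h49)
    rw [← CharP.intCast_eq_zero_iff K p, c]
    push_cast
    rw [l2, mul_zero]

theorem both_mod_p (p : ℕ) (hp : p.Prime) (h7 : 7 < p)
    (h : p % 30 = 7 ∨ p % 30 = 11 ∨ p % 30 = 13 ∨ p % 30 = 29) :
    (p : ℤ) ∣ NN p 5 ∧ (p : ℤ) ∣ NN p (-49) := by
  have hf : Fact p.Prime := ⟨hp⟩
  obtain ⟨r, hr⟩ := IsAlgClosed.exists_pow_nat_eq (-15 : AlgebraicClosure (ZMod p)) (n := 2)
    (by norm_num)
  refine both_aux p h7 r hr ?_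
  have h1 := legendreSym.eq_pow p (-15)
  rw [legendre_neg15 p h] at h1
  have h2 := congrArg (algebraMap (ZMod p) (AlgebraicClosure (ZMod p))) h1
  rw [map_pow] at h2
  have hodd : r ^ p = r ^ (2 * (p / 2) + 1) := by
    congr 1
    omega
  rw [hodd, pow_succ, pow_mul, hr]
  have h3 : (-15 : AlgebraicClosure (ZMod p))
      = algebraMap (ZMod p) (AlgebraicClosure (ZMod p)) (((-15 : ℤ) : ZMod p)) := by
    rw [map_intCast]
    norm_num
  rw [h3, ← h2]
  simp

end Pool.Agent.MP8cc25e
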