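import Pool.Agent.Lib.MP_8cc25e_nt.Lift

/-!
From zero modulo `p` to zero modulo `p^2`.
-/

namespace Pool.Agent.MP8cc25e

open Finset Polynomial

lemma RHS_coeff (p n : ℕ) (e1 e2 : ℤ) :
    (2 * YY p * (C e1 * X ^ p + C e2 * X ^ (p + 1))).coeff n
      = 2 * ((if p ≤ n then e1 * (YY p).coeff (n - p) else 0)
        + (if p + 1 ≤ n then e2 * (YY p).coeff (n - (p + 1)) else 0)) := by
  have e : 2 * YY p * (C e1 * X ^ p + C e2 * X ^ (p + 1))
      = C (2 * e1) * (X ^ p * YY p) + C (2 * e2) * (X ^ (p + 1) * YY p) := by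
    have h2 : (2 : ℤ[X]) = C 2 := rfl
    rw [h2, C_mul, C_mul]
    ring
  rw [e, coeff_add, coeff_C_mul, coeff_C_mul, coeff_X_pow_mul', coeff_X_pow_mul']
  split_ifs <;> ring

theorem II_dvd (p : ℕ) (hp : p.Prime) (n : ℕ) : (p : ℤ) ^ 2 ∣ (II (YY p)).coeff n := by
  have hp2 := hp.two_le
  have hpz : (p : ℤ) ≠ 0 := by exact_mod_cast hp.ne_zero
  have hfact : Fact p.Prime := ⟨hp⟩
  obtain ⟨g, hg⟩ := gg_dvd p (p - 1) (by omega) (by omega)
  have hg' : (gg (p - 1) : ℤ) = p * g := by exact_mod_cast hg
  have key := congrArg (fun f => coeff f n) (th_II (YY p))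
  simp only [th_coeff] at key
  rw [LL_YY p hp2, RHS_coeff] at key
  rcases Nat.eq_zero_or_pos n with h0 | hn
  · subst h0
    have : (II (YY p)).coeff 0 = 0 := by
      rw [coeff_zero_eq_eval_zero]
      unfold II th
      simp
    rw [this]
    exact dvd_zero _
  by_cases hd : p ∣ n
  · obtain ⟨j, hj⟩ := hd
    rcases j with _ | _ | _ | j
    · omega
    · -- n = p
      have hn' : n = p := by omega
      subst hn'
      rw [if_pos le_rfl, if_neg (by omega), Nat.sub_self, YY_coeff, if_pos (by omega)] at key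
      have g0 : gg 0 = 1 := by decide
      rw [g0] at key
      push_cast at key
      have : (II (YY n)).coeff n = (n : ℤ) ^ 2 * (-2 * gg n) := by
        apply mul_left_cancel₀ hpz
        rw [key]
        ring
      rw [this]
      exact Dvd.intro _ rfl
    · have hn' : n = 2 * p := by omega
      rw [if_pos (by omega), if_pos (by omega), YY_coeff, YY_coeff, if_neg (by omega),
        if_pos (by omega), show n - (p + 1) = p - 1 by omega, hg'] at key
      have : (II (YY p)).coeff n = (p : ℤ) ^ 2 * (-(32 * (4 * (p : ℤ) ^ 2 - 1) * g ^ 2)) := by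
        apply mul_left_cancel₀ (mul_ne_zero two_ne_zero hpz)
        have hn2 : (n : ℤ) = 2 * p := by exact_mod_cast hn'
        rw [hn2] at key
        rw [key]
        ring
      rw [this]
      exact Dvd.intro _ rfl
    · have hn' : n = 3 * p + p * j := by rw [hj]; ring
      have hpj : 0 ≤ p * j := Nat.zero_le _
      rw [if_pos (by omega), if_pos (by omega), YY_coeff, YY_coeff, if_neg (by omega),
        if_neg (by omega)] at key
      have hnz : (n : ℤ) ≠ 0 := by exact_mod_cast hn.ne'
      have : (II (YY p)).coeff n = 0 := by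
        apply mul_left_cancel₀ hnz
        rw [key]
        ring
      rw [this]
      exact dvd_zero _
  · have hcop : IsCoprime ((p : ℤ) ^ 2) (n : ℤ) := by
      apply IsCoprime.pow_left
      rw [Nat.isCoprime_iff_coprime]
      exact (Nat.Prime.coprime_iff_not_dvd hp).mpr hd
    apply hcop.dvd_of_dvd_mul_left
    rw [key, hg']
    apply Dvd.dvd.mul_left
    apply dvd_add
    · split_ifs
      · exact ⟨-(p * gg p) * (YY p).coeff (n - p), by ring⟩
      · exact dvd_zero _
    · split_ifs
      · exact ⟨-(32 * (4 * (p : ℤ) ^ 2 - 1) * g) * (YY p).coeff (n - (p + 1)), by ring⟩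
      · exact dvd_zero _

theorem II_eval_dvd (p : ℕ) (hp : p.Prime) (z : ℤ) : (p : ℤ) ^ 2 ∣ (II (YY p)).eval z := by
  have h : C ((p : ℤ) ^ 2) ∣ II (YY p) := by
    rw [C_dvd_iff_dvd_coeff]
    exact II_dvd p hp
  obtain ⟨J, hJ⟩ := h
  rw [hJ, eval_mul, eval_C]
  exact Dvd.intro _ rfl

section mult

variable {F : Type*} [Field F]

lemma th_mult (z : F) (q : F[X]) (m : ℕ) :
    th ((X - C z) ^ (m + 1) * q)
      = (X - C z) ^ m * (((m + 1 : ℕ) : F[X]) * X * q + (X - C z) * th q) := by
  unfold th
  rw [derivative_mul, derivative_pow]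
  simp only [derivative_sub, derivative_X, derivative_C, sub_zero, mul_one, Nat.add_sub_cancel,
    C_eq_natCast]
  ring

/-- A nonzero polynomial of degree `< p` killed by the operator has at most double zeros away from
the singular points, so `f = th f = th (th f) = 0` at one point is impossible. -/
lemma no_triple (p : ℕ) (hp : p.Prime) [CharP F p] (f : F[X]) (hf : f ≠ 0)
    (hdeg : f.natDegree < p) (hL : LL f = 0) (z : F) (hz : z ≠ 0)
    (hP : 1 - 28 * z - 128 * z ^ 2 ≠ 0) (h0 : f.eval z = 0) (h1 : (th f).eval z = 0) :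
    (th (th f)).eval z ≠ 0 := by
  intro h2
  obtain ⟨q, hq, hqz⟩ := exists_eq_pow_rootMultiplicity_mul_and_not_dvd f hf z
  set j := rootMultiplicity z f with hj
  have hq0 : q.eval z ≠ 0 := by
    intro h
    exact hqz (dvd_iff_isRoot.mpr h)
  have hjp : j < p := by
    have hd : (X - C z) ^ j ∣ f := ⟨q, hq⟩
    have h3 := natDegree_le_of_dvd hd hf
    rw [natDegree_pow, natDegree_X_sub_C, mul_one] at h3
    omega
  have nz : ∀ k : ℕ, 0 < k → k < p → ((k : ℕ) : F) ≠ 0 := by
    intro k hk0 hkp h
    rw [CharP.cast_eq_zero_iff F p k] at h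
    exact absurd (Nat.le_of_dvd hk0 h) (by omega)
  rcases j with _ | _ | _ | m
  · rw [hq] at h0
    simp at h0
    exact hq0 h0
  · rw [hq, th_mult] at h1
    simp only [pow_zero, one_mul, eval_add, eval_mul, eval_natCast, eval_X, eval_sub, eval_C,
      sub_self, zero_mul, add_zero] at h1
    rcases mul_eq_zero.mp h1 with h | h
    · rcases mul_eq_zero.mp h with h' | h'
      · exact nz (0 + 1) (by norm_num) (by omega) h'
      · exact hz h'
    · exact hq0 h
  · rw [hq, th_mult, th_mult] at h2
    simp only [pow_zero, one_mul, eval_add, eval_mul, eval_natCast, eval_X, eval_sub, eval_C,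
      sub_self, zero_mul, add_zero] at h2
    rcases mul_eq_zero.mp h2 with h | h
    · rcases mul_eq_zero.mp h with h' | h'
      · exact nz (0 + 1) (by norm_num) (by omega) h'
      · exact hz h'
    · rcases mul_eq_zero.mp h with h' | h'
      · rcases mul_eq_zero.mp h' with h'' | h''
        · exact nz (0 + 1 + 1) (by norm_num) (by omega) h''
        · exact hz h''
      · exact hq0 h'
  · set q1 := ((m + 2 + 1 : ℕ) : F[X]) * X * q + (X - C z) * th q with hq1
    set q2 := ((m + 1 + 1 : ℕ) : F[X]) * X * q1 + (X - C z) * th q1 with hq2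
    set q3 := ((m + 1 : ℕ) : F[X]) * X * q2 + (X - C z) * th q2 with hq3
    have t1 : th f = (X - C z) ^ (m + 2) * q1 := by
      rw [hq]
      exact th_mult z q (m + 2)
    have t2 : th (th f) = (X - C z) ^ (m + 1) * q2 := by
      rw [t1]
      exact th_mult z q1 (m + 1)
    have t3 : th (th (th f)) = (X - C z) ^ m * q3 := by
      rw [t2]
      exact th_mult z q2 m
    have e1 : q1.eval z = ((m + 3 : ℕ) : F) * z * q.eval z := by
      rw [hq1]
      simp only [eval_add, eval_mul, eval_natCast, eval_X, eval_sub, eval_C, sub_self, zero_mul,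
        add_zero]
    have e2 : q2.eval z = ((m + 2 : ℕ) : F) * z * q1.eval z := by
      rw [hq2]
      simp only [eval_add, eval_mul, eval_natCast, eval_X, eval_sub, eval_C, sub_self, zero_mul,
        add_zero]
    have e3 : q3.eval z = ((m + 1 : ℕ) : F) * z * q2.eval z := by
      rw [hq3]
      simp only [eval_add, eval_mul, eval_natCast, eval_X, eval_sub, eval_C, sub_self, zero_mul,
        add_zero]
    have hLf : (X - C z) ^ m * ((1 - 28 * X - 128 * X ^ 2) * q3
        - (X - C z) * ((42 * X + 384 * X ^ 2) * q2 + (22 * X + 352 * X ^ 2) * ((X - C z) * q1)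
          + (4 * X + 96 * X ^ 2) * ((X - C z) ^ 2 * q))) = 0 := by
      rw [← hL]
      unfold LL
      rw [t3, t2, t1]
      conv_rhs => rw [hq]
      ring
    have hne : (X - C z) ^ m ≠ 0 := pow_ne_zero _ (X_sub_C_ne_zero z)
    have hLf2 := (mul_eq_zero.mp hLf).resolve_left hne
    have hev := congrArg (eval z) hLf2
    simp only [eval_sub, eval_mul, eval_X, eval_C, sub_self, zero_mul, sub_zero, eval_one,
      eval_ofNat, eval_pow, eval_zero] at hev
    rcases mul_eq_zero.mp hev with h | h
    · exact hP h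
    · rw [e3, e2, e1] at h
      have n1 := nz (m + 1) (by omega) (by omega)
      have n2 := nz (m + 2) (by omega) (by omega)
      have n3 := nz (m + 3) (by omega) (by omega)
      have : ((m + 1 : ℕ) : F) * z * (((m + 2 : ℕ) : F) * z * (((m + 3 : ℕ) : F) * z * q.eval z)) ≠ 0 :=
        mul_ne_zero (mul_ne_zero n1 hz) (mul_ne_zero (mul_ne_zero n2 hz)
          (mul_ne_zero (mul_ne_zero n3 hz) hq0))
      exact this h

end mult

end Pool.Agent.MP8cc25e
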