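import Pool.Agent.Lib.MP_8cc25e_nt.Domb3

/-!
Characteristic `p`: truncated binomial transforms are polynomials with Domb coefficients.
-/

namespace Pool.Agent.MP8cc25e

open Finset

/-- Integral form of `tB`. -/
def iB (N : ℕ) : ℤ := ∑ k ∈ range (N + 1), (sg k : ℤ) * ((N + k).choose (3 * k)) * (-4) ^ (N - 2 * k)

/-- Integral form of `tC`. -/
def iC (N : ℕ) : ℤ :=
  ∑ k ∈ range (N + 1), (sg k : ℤ) * ((N + 2 * k).choose (3 * k)) * (-16) ^ (N - 1 * k)

/-- Integral form of `tA`. -/
def iA (N : ℕ) : ℤ := ∑ k ∈ range (N + 1), (gg k : ℤ) * ((N + k).choose (2 * k)) * (-8) ^ (N - 1 * k)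

lemma iB_cast (N : ℕ) : (iB N : ℚ) = tB N := by
  unfold iB tB
  push_cast
  apply sum_congr rfl
  intro k _
  rcases le_or_gt (2 * k) N with h | h
  · have e : ((-4 : ℚ)) ^ N = (-4) ^ (N - 2 * k) * 16 ^ k := by
      rw [show (16 : ℚ) = (-4) ^ 2 by norm_num, ← pow_mul, ← pow_add]
      congr 1
      omega
    rw [e]
    field_simp
  · rw [Nat.choose_eq_zero_of_lt (by omega)]
    simp

lemma iC_cast (N : ℕ) : (iC N : ℚ) = tC N := by
  unfold iC tC
  push_cast
  apply sum_congr rfl
  intro k _
  rcases le_or_gt k N with h | h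
  · have e : ((-16 : ℚ)) ^ N = (-16) ^ (N - 1 * k) * (-16) ^ k := by
      rw [← pow_add]
      congr 1
      omega
    rw [e]
    have h16 : ((-16 : ℚ)) ^ k ≠ 0 := pow_ne_zero _ (by norm_num)
    field_simp
  · rw [Nat.choose_eq_zero_of_lt (by omega)]
    simp

lemma iA_cast (N : ℕ) : (iA N : ℚ) = tA N := by
  unfold iA tA
  push_cast
  apply sum_congr rfl
  intro k _
  rcases le_or_gt k N with h | h
  · have e : ((-8 : ℚ)) ^ N = (-8) ^ (N - 1 * k) * (-8) ^ k := by
      rw [← pow_add]
      congr 1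
      omega
    rw [e]
    have h8 : ((-8 : ℚ)) ^ k ≠ 0 := pow_ne_zero _ (by norm_num)
    field_simp
  · rw [Nat.choose_eq_zero_of_lt (by omega)]
    simp

lemma iC_eq_iB (N : ℕ) : iC N = iB N := by
  have h : (iC N : ℚ) = (iB N : ℚ) := by rw [iC_cast, iB_cast, tC_eq_tB]
  exact_mod_cast h

lemma iA_eq_iB (N : ℕ) : iA N = iB N := by
  have h : (iA N : ℚ) = (iB N : ℚ) := by rw [iA_cast, iB_cast, tA_eq_tB]
  exact_mod_cast h

section

variable {K : Type*} [Field K] (p : ℕ) [hp : Fact p.Prime] [CharP K p]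

include hp in
lemma cast_ne_zero_of_lt {j : ℕ} (h0 : 0 < j) (h : j < p) : (j : K) ≠ 0 := by
  intro h1
  rw [CharP.cast_eq_zero_iff K p j] at h1
  exact absurd (Nat.le_of_dvd h0 h1) (by omega)

include hp in
lemma choose_neg_mod (a : ℕ) (ha : a < p) (j : ℕ) (hj : j < p) :
    ((p - 1 - a).choose j : K) = (-1) ^ j * ((a + j).choose j : K) := by
  induction j with
  | zero => simp
  | succ j ih =>
    have ih' := ih (by omega)
    have hj0 : ((j + 1 : ℕ) : K) ≠ 0 := cast_ne_zero_of_lt p (by omega) hj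
    apply mul_right_cancel₀ hj0
    have e1 : ((p - 1 - a).choose (j + 1) : K) * ((j + 1 : ℕ) : K)
        = ((p - 1 - a).choose j : K) * (-((a : K) + 1 + j)) := by
      rcases le_or_gt j (p - 1 - a) with h | h
      · have h1 := Nat.choose_succ_right_eq (p - 1 - a) j
        have h2 : (((p - 1 - a).choose (j + 1) * (j + 1) : ℕ) : K)
            = (((p - 1 - a).choose j * (p - 1 - a - j) : ℕ) : K) := by rw [h1]
        rw [Nat.cast_mul, Nat.cast_mul] at h2
        rw [h2]
        congr 1
        have h3 : ((p - 1 - a - j : ℕ) : K) + ((a : K) + 1 + j) = ((p : ℕ) : K) := by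
          rw [show ((a : K) + 1 + j) = ((a + 1 + j : ℕ) : K) by push_cast; ring, ← Nat.cast_add]
          congr 1
          omega
        rw [CharP.cast_eq_zero K p] at h3
        exact eq_neg_of_add_eq_zero_left h3
      · rw [Nat.choose_eq_zero_of_lt h, Nat.choose_eq_zero_of_lt (by omega)]
        simp
    have e2 : ((a + (j + 1)).choose (j + 1) : K) * ((j + 1 : ℕ) : K)
        = ((a : K) + 1 + j) * ((a + j).choose j : K) := by
      have h1 := Nat.add_one_mul_choose_eq (a + j) j
      have h2 : (((a + j + 1).choose (j + 1) * (j + 1) : ℕ) : K)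
          = (((a + j + 1) * (a + j).choose j : ℕ) : K) := by rw [h1]
      rw [Nat.cast_mul, Nat.cast_mul] at h2
      rw [show a + (j + 1) = a + j + 1 by ring, h2]
      push_cast
      ring
    rw [e1, ih', mul_assoc ((-1 : K) ^ (j + 1)), e2]
    ring

include hp in
lemma shift_pow (a b k : ℕ) (hab : a ≤ b) (hk : b * k < p) (c u : K) :
    u ^ (a * k) * (1 + c * u) ^ (p - 1 - b * k)
      = ∑ N ∈ range p, ((N + (b - a) * k).choose (b * k) : K) * (-c) ^ (N - a * k) * u ^ N := by
  have hak : a * k ≤ b * k := Nat.mul_le_mul_right k hab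
  have hsplit : p = a * k + (p - a * k) := by omega
  conv_rhs => rw [hsplit]
  rw [sum_range_add]
  have z : ∑ x ∈ range (a * k), ((x + (b - a) * k).choose (b * k) : K) * (-c) ^ (x - a * k) * u ^ x
      = 0 := by
    apply sum_eq_zero
    intro x hx
    rw [mem_range] at hx
    have hb : (b - a) * k + a * k = b * k := by
      rw [← add_mul, Nat.sub_add_cancel hab]
    rw [Nat.choose_eq_zero_of_lt (by omega)]
    simp
  rw [z, zero_add, add_comm (1 : K), add_pow]
  have ext : ∑ m ∈ range (p - 1 - b * k + 1), (c * u) ^ m * 1 ^ (p - 1 - b * k - m)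
        * ((p - 1 - b * k).choose m : K)
      = ∑ m ∈ range (p - a * k), (c * u) ^ m * 1 ^ (p - 1 - b * k - m)
        * ((p - 1 - b * k).choose m : K) := by
    apply sum_subset
    · intro x hx
      simp only [mem_range] at *
      omega
    · intro x _ hx
      simp only [mem_range, not_lt] at hx
      rw [Nat.choose_eq_zero_of_lt (by omega)]
      simp
  rw [ext, mul_sum]
  apply sum_congr rfl
  intro j hj
  rw [mem_range] at hj
  rw [choose_neg_mod p (b * k) hk j (by omega)]
  have hb : (b - a) * k + a * k = b * k := by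
    rw [← add_mul, Nat.sub_add_cancel hab]
  rw [show a * k + j + (b - a) * k = b * k + j by omega, Nat.add_sub_cancel_left,
    Nat.choose_symm_add, one_pow, pow_add, mul_pow, neg_pow c j]
  ring

include hp in
lemma transform_mod (a b : ℕ) (hab : a ≤ b) (s : ℕ → ℕ) (c u : K)
    (hs : ∀ k < p, p ≤ b * k → (s k : K) = 0) :
    ∑ k ∈ range p, (if b * k < p then (s k : K) * (u ^ (a * k) * (1 + c * u) ^ (p - 1 - b * k))
        else 0)
      = ∑ N ∈ range p, (∑ k ∈ range p, (s k : K) * ((N + (b - a) * k).choose (b * k) : K)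
          * (-c) ^ (N - a * k)) * u ^ N := by
  simp_rw [sum_mul]
  rw [sum_comm]
  apply sum_congr rfl
  intro k hk
  rw [mem_range] at hk
  split_ifs with h
  · rw [shift_pow p a b k hab h, mul_sum]
    apply sum_congr rfl
    intro N _
    ring
  · rw [hs k hk (by omega)]
    simp

end

end Pool.Agent.MP8cc25e
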