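import Pool.Agent.Lib.MP_8cc25e_nt.Final1

/-!
Modulo `p^2`: solutions of the Domb recurrence have the block structure
`a (p j + i) = a (p j) (c i + p j c' i)`.
-/

namespace Pool.Agent.MP8cc25e

open Finset

/-- Right factor of the recurrence in a ring. -/
def polR {R : Type*} [CommRing R] (N : R) : R := 2 * (2 * N + 3) * (5 * (N + 1) ^ 2 + 5 * (N + 1) + 2)

/-- Its derivative. -/
def dpolR {R : Type*} [CommRing R] (N : R) : R := 60 * (N + 1) ^ 2 + 60 * (N + 1) + 18

lemma polR_add {R : Type*} [CommRing R] (e N : R) (he : e * e = 0) :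
    polR (e + N) = polR N + e * dpolR N := by
  unfold polR dpolR
  linear_combination (60 * (N + 1) + 20 * e + 30) * he

lemma cube_add {R : Type*} [CommRing R] (e N : R) (he : e * e = 0) :
    (e + N) ^ 3 = N ^ 3 + 3 * N ^ 2 * e := by
  linear_combination (3 * N + e) * he

section

variable (p : ℕ)

/-- Domb coefficients modulo `p^2`. -/
def cc (n : ℕ) : ZMod (p ^ 2) := ((iB n : ℤ) : ZMod (p ^ 2))

/-- Their derivative along the recurrence. -/
def cd : ℕ → ZMod (p ^ 2)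
  | 0 => 0
  | 1 => -6
  | (n + 2) => -(3 * ((n : ZMod (p ^ 2)) + 2) ^ 2 * cc p (n + 2) + polR (n : ZMod (p ^ 2)) * cd (n + 1)
      + dpolR (n : ZMod (p ^ 2)) * cc p (n + 1) + 64 * ((n : ZMod (p ^ 2)) + 1) ^ 3 * cd n
      + 192 * ((n : ZMod (p ^ 2)) + 1) ^ 2 * cc p n) * ((((n + 2 : ℕ) : ZMod (p ^ 2))) ^ 3)⁻¹

lemma iB_rec (N : ℕ) : ((N : ℤ) + 2) ^ 3 * iB (N + 2) + polR (N : ℤ) * iB (N + 1)
    + 64 * ((N : ℤ) + 1) ^ 3 * iB N = 0 := by
  have h := tB_rec N
  rw [← iB_cast, ← iB_cast, ← iB_cast] at h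
  unfold pol at h
  unfold polR
  exact_mod_cast h

lemma cc_rec (N : ℕ) : ((N : ZMod (p ^ 2)) + 2) ^ 3 * cc p (N + 2)
    + polR (N : ZMod (p ^ 2)) * cc p (N + 1) + 64 * ((N : ZMod (p ^ 2)) + 1) ^ 3 * cc p N = 0 := by
  have h := congrArg (fun x : ℤ => (x : ZMod (p ^ 2))) (iB_rec N)
  unfold cc
  unfold polR at h ⊢
  push_cast at h ⊢
  exact h

lemma cc_zero : cc p 0 = 1 := by
  have : iB 0 = 1 := by decide
  unfold cc
  rw [this]
  simp

lemma cc_one : cc p 1 = -4 := by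
  have : iB 1 = -4 := by decide
  unfold cc
  rw [this]
  push_cast
  ring

variable [hp : Fact p.Prime]

include hp in
lemma natCast_unit {n : ℕ} (h : ¬ p ∣ n) : IsUnit ((n : ℕ) : ZMod (p ^ 2)) := by
  rw [ZMod.isUnit_iff_coprime]
  exact (Nat.Coprime.pow_left 2 ((Nat.Prime.coprime_iff_not_dvd hp.out).mpr h)).symm

include hp in
lemma natCast_unit_lt {n : ℕ} (h0 : 0 < n) (h : n < p) : IsUnit ((n : ℕ) : ZMod (p ^ 2)) := by
  apply natCast_unit
  intro hd
  exact absurd (Nat.le_of_dvd h0 hd) (by omega)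

omit hp in
lemma pp_zero : (p : ZMod (p ^ 2)) * (p : ZMod (p ^ 2)) = 0 := by
  rw [← Nat.cast_mul, ← pow_two]
  exact ZMod.natCast_self _

omit hp in
lemma pj_sq (j : ℕ) : ((p * j : ℕ) : ZMod (p ^ 2)) * ((p * j : ℕ) : ZMod (p ^ 2)) = 0 := by
  push_cast
  linear_combination (j : ZMod (p ^ 2)) ^ 2 * pp_zero p

include hp in
lemma cd_rec (n : ℕ) (h : n + 2 < p) :
    ((n : ZMod (p ^ 2)) + 2) ^ 3 * cd p (n + 2) + 3 * ((n : ZMod (p ^ 2)) + 2) ^ 2 * cc p (n + 2)
      + polR (n : ZMod (p ^ 2)) * cd p (n + 1) + dpolR (n : ZMod (p ^ 2)) * cc p (n + 1)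
      + 64 * ((n : ZMod (p ^ 2)) + 1) ^ 3 * cd p n
      + 192 * ((n : ZMod (p ^ 2)) + 1) ^ 2 * cc p n = 0 := by
  have hu : IsUnit ((((n + 2 : ℕ) : ZMod (p ^ 2))) ^ 3) :=
    (natCast_unit_lt p (by omega) h).pow 3
  have h1 : ((((n + 2 : ℕ) : ZMod (p ^ 2))) ^ 3) * ((((n + 2 : ℕ) : ZMod (p ^ 2))) ^ 3)⁻¹ = 1 :=
    ZMod.mul_inv_of_unit _ hu
  have h2 : ((n : ZMod (p ^ 2)) + 2) = ((n + 2 : ℕ) : ZMod (p ^ 2)) := by push_cast; ring
  rw [cd, h2]
  linear_combination (-(3 * ((n + 2 : ℕ) : ZMod (p ^ 2)) ^ 2 * cc p (n + 2)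
      + polR (n : ZMod (p ^ 2)) * cd p (n + 1)
      + dpolR (n : ZMod (p ^ 2)) * cc p (n + 1) + 64 * ((n : ZMod (p ^ 2)) + 1) ^ 3 * cd p n
      + 192 * ((n : ZMod (p ^ 2)) + 1) ^ 2 * cc p n)) * h1

include hp in
theorem block (a : ℕ → ZMod (p ^ 2))
    (hrec : ∀ N : ℕ, ((N : ZMod (p ^ 2)) + 2) ^ 3 * a (N + 2) + polR (N : ZMod (p ^ 2)) * a (N + 1)
      + 64 * ((N : ZMod (p ^ 2)) + 1) ^ 3 * a N = 0) (h1 : a 1 = -4 * a 0) (j i : ℕ) (hi : i < p) :
    a (p * j + i) = a (p * j) * (cc p i + ((p * j : ℕ) : ZMod (p ^ 2)) * cd p i) := by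
  have he := pj_sq p j
  set e : ZMod (p ^ 2) := ((p * j : ℕ) : ZMod (p ^ 2)) with hedef
  have key : ∀ i : ℕ, i + 1 < p → a (p * j + i) = a (p * j) * (cc p i + e * cd p i) ∧
      a (p * j + (i + 1)) = a (p * j) * (cc p (i + 1) + e * cd p (i + 1)) := by
    intro i
    induction i with
    | zero =>
      intro h
      refine ⟨?_, ?_⟩
      · rw [cc_zero, cd]
        simp
      · rw [zero_add, cc_one, cd]
        rcases Nat.eq_zero_or_pos (p * j) with h0 | h0
        · have : e = 0 := by rw [hedef, h0]; simp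
          rw [h0, this, zero_add, h1]
          ring
        · have hr := hrec (p * j - 1)
          rw [show p * j - 1 + 2 = p * j + 1 by omega, show p * j - 1 + 1 = p * j by omega] at hr
          have hc : ((p * j - 1 : ℕ) : ZMod (p ^ 2)) = e - 1 := by
            rw [Nat.cast_sub (by omega), hedef]
            simp
          rw [hc] at hr
          unfold polR at hr
          linear_combination (1 - 3 * e) * hr + (a (p * j + 1) * (6 + 8 * e + 3 * e ^ 2)
            - a (p * j) * (20 * e + 30 - 60 * e ^ 2 - 90 * e - 54)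
            - 64 * (1 - 3 * e) * e * a (p * j - 1)) * he
    | succ i ih =>
      intro h
      obtain ⟨ih1, ih2⟩ := ih (by omega)
      refine ⟨ih2, ?_⟩
      have hr := hrec (p * j + i)
      have hcast : ((p * j + i : ℕ) : ZMod (p ^ 2)) = e + i := by
        rw [hedef]
        push_cast
        ring
      rw [hcast, show p * j + i + 1 = p * j + (i + 1) by ring, ih1, ih2, polR_add e i he,
        show e + (i : ZMod (p ^ 2)) + 2 = e + ((i : ZMod (p ^ 2)) + 2) by ring,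
        show e + (i : ZMod (p ^ 2)) + 1 = e + ((i : ZMod (p ^ 2)) + 1) by ring,
        cube_add e _ he, cube_add e _ he] at hr
      have c1 := cc_rec p i
      have c2 := cd_rec p i (by omega)
      have hu : IsUnit ((((i + 2 : ℕ) : ZMod (p ^ 2))) ^ 3) :=
        (natCast_unit_lt p (by omega) (by omega)).pow 3
      have hu2 : IsUnit (((i : ZMod (p ^ 2)) + 2) ^ 3 + 3 * ((i : ZMod (p ^ 2)) + 2) ^ 2 * e) := by
        rw [← cube_add e _ he]
        have : e + ((i : ZMod (p ^ 2)) + 2) = ((p * j + i + 2 : ℕ) : ZMod (p ^ 2)) := by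
          rw [hedef]
          push_cast
          ring
        rw [this]
        apply IsUnit.pow
        apply natCast_unit
        intro hd
        have h5 : p ∣ i + 2 := by
          have h6 : p ∣ p * j := Dvd.intro _ rfl
          have h7 : p * j + i + 2 = p * j + (i + 2) := by ring
          rw [h7] at hd
          exact (Nat.dvd_add_right h6).mp hd
        exact absurd (Nat.le_of_dvd (by omega) h5) (by omega)
      apply hu2.mul_left_cancel
      rw [show p * j + (i + 1 + 1) = p * j + i + 2 by ring, show i + 1 + 1 = i + 2 by ring]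
      linear_combination hr - a (p * j) * c1 - a (p * j) * e * c2
        - a (p * j) * (3 * ((i : ZMod (p ^ 2)) + 2) ^ 2 * cd p (i + 2) + dpolR (i : ZMod (p ^ 2)) * cd p (i + 1)
          + 192 * ((i : ZMod (p ^ 2)) + 1) ^ 2 * cd p i) * he
  rcases i with _ | i
  · rw [cc_zero, cd]
    simp
  · exact (key i hi).2

end

end Pool.Agent.MP8cc25e
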