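import Pool.Agent.Lib.MP_8cc25e_nt.PSq9

/-!
Evaluation of the second block.
-/

namespace Pool.Agent.MP8cc25e

open Finset

section

variable (p : ℕ) [hp : Fact p.Prime]

omit hp in
lemma blkB_Ico (N : ℕ) : ((blkB p 1 N : ℤ) : ZMod (p ^ 2))
    = ∑ k ∈ Ico p (2 * p), (sg k : ZMod (p ^ 2)) * ((N + (3 - 2) * k).choose (3 * k) : ZMod (p ^ 2))
      * (-4) ^ (N - 2 * k) := by
  rw [blkB_eq, sum_Ico_eq_sum_range, show 2 * p - p = p by omega]
  push_cast
  apply sum_congr rfl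
  intro i _
  simp only [mul_one, Nat.reduceSub, one_mul]

include hp in
lemma blkB_defect (h2 : 2 < p) (N : ℕ) : (p : ℤ) ^ 2 ∣ defect (blkB p 1) N := by
  have h1 := defectB_dvd p h2 1 N
  have h3 := defectB_dvd p h2 2 N
  have e : defect (blkB p 1) N = defect (bB (p * 2)) N - defect (bB (p * 1)) N := by
    unfold defect blkB
    ring
  rw [e]
  exact dvd_sub h3 h1

include hp in
theorem blockW (h7 : 7 < p) (j i : ℕ) (hi : i < p) :
    ((blkB p 1 (p * j + i) : ℤ) : ZMod (p ^ 2))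
      = wv p 3 j * (cc p i + ((p * j : ℕ) : ZMod (p ^ 2)) * cd p i) := by
  have h2 : 2 < p := by omega
  have h := block p (fun N => ((blkB p 1 N : ℤ) : ZMod (p ^ 2)))
    (fun N => defect_cast p (blkB p 1) N (blkB_defect p h2 N)) ?_ j i hi
  · rw [h]
    congr 1
    rcases j with _ | _ | m
    · exact blkB_small p h2 1 0 (by norm_num)
    · exact blkB_small p h2 1 1 (by norm_num)
    · have hv := valB p h2 1 m
      have s1 : sg 1 = 12 := by decide
      rw [s1, (constants p h7).1] at hv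
      rw [show p * (m + 1 + 1) = p * (2 * 1 + m) by ring, hv]
      unfold wv
      rw [show 2 * 1 + m + 1 = m + 3 by ring, show 3 * 1 = 3 by norm_num]
      push_cast
      ring
  · have e : ∀ N, N < p → blkB p 1 N = 0 := by
      intro N hN
      rw [blkB_eq]
      apply sum_eq_zero
      intro i _
      rw [Nat.choose_eq_zero_of_lt (by omega)]
      simp
    simp only [e 0 (by omega), e 1 (by omega)]
    simp

/-- The second block of the truncated sum. -/
def SW (w : ZMod (p ^ 2)) : ZMod (p ^ 2) := ∑ k ∈ Ico p (2 * p), (sg k : ZMod (p ^ 2)) * w ^ k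

open PowerSeries in
include hp in
theorem evW (h7 : 7 < p) (u w : ZMod (p ^ 2)) (hu : IsUnit (1 + 4 * u))
    (huw : u ^ 2 = w * (1 + 4 * u) ^ 3) :
    (1 + 4 * u ^ p) ^ 5 * SW p w
      = (1 + 4 * u) * (12 * (u ^ (p * 2) * (1 + 4 * u ^ p) * (Y0 p).eval u
        + (p : ZMod (p ^ 2)) * (2 * u ^ (p * 2) - 8 * u ^ p * u ^ (p * 2)) * (Y1 p).eval u)) := by
  have hpos := hp.out.pos
  have hg := second_block p (fun N => ((blkB p 1 N : ℤ) : ZMod (p ^ 2))) (blockW p h7)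
  have hI : ∀ k ∈ Ico p (2 * p), k ≤ 2 * p - 1 := by
    intro k hk
    rw [mem_Ico] at hk
    omega
  have hs := gen_sum 2 3 (2 * p - 1) (by norm_num) (4 : ZMod (p ^ 2))
    (fun k => (sg k : ZMod (p ^ 2))) (Ico p (2 * p)) hI
  have hmk : (PowerSeries.mk (fun N => ((blkB p 1 N : ℤ) : ZMod (p ^ 2))) : (ZMod (p ^ 2))⟦X⟧)
      = PowerSeries.mk fun N => ∑ k ∈ Ico p (2 * p), (sg k : ZMod (p ^ 2))
        * ((N + (3 - 2) * k).choose (3 * k) : ZMod (p ^ 2)) * (-4) ^ (N - 2 * k) := by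
    congr 1
    funext N
    exact blkB_Ico p N
  rw [← hmk, ← coe_cols] at hs
  set SB : Polynomial (ZMod (p ^ 2)) := ∑ k ∈ Ico p (2 * p),
      Polynomial.C ((fun k => (sg k : ZMod (p ^ 2))) k) * Polynomial.X ^ (2 * k)
      * (1 + Polynomial.C 4 * Polynomial.X) ^ (3 * (2 * p - 1 - k)) with hSB
  have key : (1 + C (4 : ZMod (p ^ 2)) * X ^ p) ^ 5 * (SB : (ZMod (p ^ 2))⟦X⟧)
      = (1 + C 4 * X) ^ (3 * (2 * p - 1) + 1) * (C (12 : ZMod (p ^ 2))
        * (X ^ (p * 2) * (1 + C (4 : ZMod (p ^ 2)) * X ^ p)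
        * ((Y0 p : Polynomial (ZMod (p ^ 2))) : (ZMod (p ^ 2))⟦X⟧)
        + (p : (ZMod (p ^ 2))⟦X⟧) * (C 2 * X ^ (p * 2) - C 8 * X ^ p * X ^ (p * 2))
          * ((Y1 p : Polynomial (ZMod (p ^ 2))) : (ZMod (p ^ 2))⟦X⟧))) := by
    rw [← hs, ← hg]
    ring
  have poly : (1 + Polynomial.C 4 * Polynomial.X ^ p) ^ 5 * SB
      = (1 + Polynomial.C 4 * Polynomial.X) ^ (3 * (2 * p - 1) + 1)
        * (Polynomial.C 12 * (Polynomial.X ^ (p * 2) * (1 + Polynomial.C 4 * Polynomial.X ^ p) * Y0 p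
        + (p : Polynomial (ZMod (p ^ 2)))
          * (Polynomial.C 2 * Polynomial.X ^ (p * 2)
            - Polynomial.C 8 * Polynomial.X ^ p * Polynomial.X ^ (p * 2)) * Y1 p)) := by
    have hcp : (((p : Polynomial (ZMod (p ^ 2))) : Polynomial (ZMod (p ^ 2)))
        : (ZMod (p ^ 2))⟦X⟧) = (p : (ZMod (p ^ 2))⟦X⟧) :=
      map_natCast (Polynomial.coeToPowerSeries.ringHom (R := ZMod (p ^ 2))) p
    apply Polynomial.coe_injective
    push_cast
    rw [hcp, key]
  have hev := congrArg (Polynomial.eval u) poly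
  simp only [Polynomial.eval_mul, Polynomial.eval_pow, Polynomial.eval_add, Polynomial.eval_one,
    Polynomial.eval_sub, Polynomial.eval_C, Polynomial.eval_X, Polynomial.eval_natCast] at hev
  rw [hSB, eval_cols p 2 3 (2 * p - 1) 4 (fun k => (sg k : ZMod (p ^ 2))) (Ico p (2 * p)) hI u w huw]
    at hev
  apply (hu.pow (3 * (2 * p - 1))).mul_left_cancel
  rw [pow_succ (1 + 4 * u) (3 * (2 * p - 1))] at hev
  unfold SW
  linear_combination hev

end

end Pool.Agent.MP8cc25e
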