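import Pool.Agent.Lib.MP_8cc25e_nt.PSq10

/-!
The ordinary case: the three truncated sums agree modulo `p^2`.
-/

namespace Pool.Agent.MP8cc25e

open Finset

section generic

variable {R : Type*} [CommRing R]

lemma unram (c u v X y y1 P : R) (PP : P * P = 0) (hu : IsUnit (1 + c * u))
    (ev : (1 + c * (u + P * v)) ^ 2 * X
      = (1 + c * u) * ((1 + c * (u + P * v)) * y - c * (P * (u + P * v) * y1))) :
    (X - y) * (1 + c * u) + c * (P * (v * y + u * y1)) = 0 := by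
  have h1 : P * X = P * y := by
    apply (hu.pow 2).mul_left_cancel
    linear_combination P * ev + ((1 + c * u) * (c * v * y - c * (u + P * v) * y1)
      - (2 * c * v * (1 + c * u) + c ^ 2 * P * v ^ 2) * X) * PP
  apply hu.mul_left_cancel
  rw [mul_zero]
  linear_combination ev - 2 * c * (1 + c * u) * v * h1
    - (c ^ 2 * v ^ 2 * X + c * (1 + c * u) * v * y1) * PP

lemma three_values (u v S A y y1 P : R) (PP : P * P = 0) (h2 : IsUnit (2 : R)) (h3 : IsUnit (3 : R))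
    (h4 : IsUnit (1 + 4 * u)) (h16 : IsUnit (1 + 16 * u)) (h8 : IsUnit (1 + 8 * u))
    (eB : (1 + 4 * (u + P * v)) ^ 2 * S
      = (1 + 4 * u) * ((1 + 4 * (u + P * v)) * y - 4 * (P * (u + P * v) * y1)))
    (eC : (1 + 16 * (u + P * v)) ^ 2 * S
      = (1 + 16 * u) * ((1 + 16 * (u + P * v)) * y - 16 * (P * (u + P * v) * y1)))
    (eA : (1 + 8 * (u + P * v)) ^ 2 * A
      = (1 + 8 * u) * ((1 + 8 * (u + P * v)) * y - 8 * (P * (u + P * v) * y1))) :
    S = y ∧ A = y ∧ P * (v * y + u * y1) = 0 := by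
  have b := unram 4 u v S y y1 P PP h4 eB
  have c := unram 16 u v S y y1 P PP h16 eC
  have a := unram 8 u v A y y1 P PP h8 eA
  have hS : S = y := by
    apply h3.mul_left_cancel
    linear_combination 4 * b - c
  have hD : P * (v * y + u * y1) = 0 := by
    apply (h2.pow 2).mul_left_cancel
    rw [hS] at b
    linear_combination b
  refine ⟨hS, ?_, hD⟩
  apply h8.mul_left_cancel
  linear_combination a - 8 * hD

lemma second_value (u v S1 y y1 P : R) (PP : P * P = 0) (hu : IsUnit u)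
    (h4 : IsUnit (1 + 4 * u)) (hw : (1 + 4 * u) ^ 3 = -27 * u ^ 2)
    (hD : P * (v * y + u * y1) = 0)
    (eW : (1 + 4 * (u + P * v)) ^ 5 * S1 = (1 + 4 * u) * (12 * ((u + P * v) ^ 2
        * (1 + 4 * (u + P * v)) * y
        + P * (2 * (u + P * v) ^ 2 - 8 * (u + P * v) * (u + P * v) ^ 2) * y1))) :
    27 * S1 = -12 * y := by
  have hn : IsUnit ((1 + 4 * u) + 20 * P * v) := by
    have h : ((1 + 4 * u) + 20 * P * v) * ((1 + 4 * u) - 20 * P * v) = (1 + 4 * u) ^ 2 := by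
      linear_combination (-400 * v ^ 2) * PP
    exact isUnit_of_mul_isUnit_left (h ▸ h4.pow 2)
  have key : ((1 + 4 * u) * ((1 + 4 * u) + 20 * P * v)) * ((1 + 4 * u) ^ 3 * S1 - 12 * u ^ 2 * y) = 0 := by
    have e1 : (1 + 4 * (u + P * v)) ^ 5 = (1 + 4 * u) ^ 5 + 20 * (1 + 4 * u) ^ 4 * P * v := by
      linear_combination (10 * (1 + 4 * u) ^ 3 * 16 * v ^ 2 + 10 * (1 + 4 * u) ^ 2 * 64 * P * v ^ 3
        + 5 * (1 + 4 * u) * 256 * P ^ 2 * v ^ 4 + 1024 * P ^ 3 * v ^ 5) * PP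
    have e2 : (u + P * v) ^ 2 * (1 + 4 * (u + P * v)) = u ^ 2 * (1 + 4 * u)
        + 2 * u * (1 + 4 * u) * P * v + 4 * u ^ 2 * P * v := by
      linear_combination (v ^ 2 * (1 + 4 * u) + 8 * u * v ^ 2 + 4 * P * v ^ 3) * PP
    have e3 : P * (2 * (u + P * v) ^ 2 - 8 * (u + P * v) * (u + P * v) ^ 2)
        = P * (2 * u ^ 2 - 8 * u ^ 3) := by
      linear_combination (4 * u * v + 2 * P * v ^ 2 - 24 * u ^ 2 * v - 24 * u * P * v ^ 2
        - 8 * P ^ 2 * v ^ 3) * PP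
    rw [e1, e2, e3] at eW
    linear_combination eW + 12 * (1 + 4 * u) * (2 * u - 8 * u ^ 2) * hD
  have k2 : (1 + 4 * u) ^ 3 * S1 - 12 * u ^ 2 * y = 0 := by
    apply (h4.mul hn).mul_left_cancel
    rw [key, mul_zero]
  apply (hu.pow 2).mul_left_cancel
  rw [hw] at k2
  linear_combination -k2

lemma at_minus_one (S S1 A y y1 P : R) (h2 : IsUnit (2 : R)) (h3 : IsUnit (3 : R))
    (h7 : IsUnit (7 : R))
    (hS : 27 * S1 = -12 * S)
    (eB : (1 + 4 * (-1 : R)) ^ 2 * S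
      = (1 + 4 * (-1)) * ((1 + 4 * (-1)) * y - 4 * (P * (-1) * y1)))
    (eA : (1 + 8 * (-1 : R)) ^ 2 * A
      = (1 + 8 * (-1)) * ((1 + 8 * (-1)) * y - 8 * (P * (-1) * y1)))
    (eW : (1 + 4 * (-1 : R)) ^ 5 * S1 = (1 + 4 * (-1)) * (12 * (1 * (1 + 4 * (-1)) * y
        + P * (2 * 1 - 8 * (-1) * 1) * y1))) : A = S := by
  have b : 3 * S = 3 * y - 4 * (P * y1) := by
    apply h3.mul_left_cancel
    linear_combination eB
  have a : 7 * A = 7 * y - 8 * (P * y1) := by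
    apply h7.mul_left_cancel
    linear_combination eA
  have w : 27 * S1 = -12 * y + 40 * (P * y1) := by
    apply (h3.pow 2).mul_left_cancel
    linear_combination -eW
  have z : P * y1 = 0 := by
    apply ((h2.pow 3).mul h3).mul_left_cancel
    linear_combination -w + hS - 4 * b
  have e1 : S = y := by
    apply h3.mul_left_cancel
    linear_combination b - 4 * z
  apply h7.mul_left_cancel
  linear_combination a - 7 * e1 - 8 * z

end generic

section

variable (p : ℕ) [hp : Fact p.Prime]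

include hp in
lemma pow_p (x : ZMod (p ^ 2)) : ∃ v : ZMod (p ^ 2), x ^ p = x + (p : ZMod (p ^ 2)) * v := by
  have hpos : 0 < p ^ 2 := Nat.pow_pos hp.out.pos
  have : NeZero (p ^ 2) := ⟨by omega⟩
  obtain ⟨n, rfl⟩ : ∃ n : ℕ, ((n : ℕ) : ZMod (p ^ 2)) = x := ⟨x.val, ZMod.natCast_zmod_val x⟩
  have h : (p : ℤ) ∣ (n : ℤ) ^ p - n := by
    rw [← ZMod.intCast_zmod_eq_zero_iff_dvd]
    push_cast
    rw [ZMod.pow_card]
    ring
  obtain ⟨v, hv⟩ := h
  refine ⟨(v : ZMod (p ^ 2)), ?_⟩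
  have h2 := congrArg (fun t : ℤ => (t : ZMod (p ^ 2))) hv
  push_cast at h2
  linear_combination h2

include hp in
lemma small_unit (h7 : 7 < p) {n : ℕ} (h0 : 0 < n) (h : n ≤ 7) : IsUnit ((n : ℕ) : ZMod (p ^ 2)) :=
  natCast_unit_lt p h0 (by omega)

include hp in
lemma sqrt_lift (h7 : 7 < p) (h : IsSquare (-15 : ZMod p)) : ∃ r : ZMod (p ^ 2), r ^ 2 = -15 := by
  obtain ⟨a, ha⟩ := h
  obtain ⟨n, rfl⟩ : ∃ n : ℤ, ((n : ℤ) : ZMod p) = a := ⟨_, ZMod.intCast_zmod_cast a⟩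
  have hd : (p : ℤ) ∣ n ^ 2 + 15 := by
    rw [← ZMod.intCast_zmod_eq_zero_iff_dvd]
    push_cast
    linear_combination -ha
  obtain ⟨t, ht⟩ := hd
  have u2 : IsUnit (2 : ZMod (p ^ 2)) := by exact_mod_cast small_unit p h7 (n := 2) (by norm_num) (by norm_num)
  have u3 : IsUnit (3 : ZMod (p ^ 2)) := by exact_mod_cast small_unit p h7 (n := 3) (by norm_num) (by norm_num)
  have u5 : IsUnit (5 : ZMod (p ^ 2)) := by exact_mod_cast small_unit p h7 (n := 5) (by norm_num) (by norm_num)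
  have e : ((n : ℤ) : ZMod (p ^ 2)) ^ 2 = -15 + (p : ZMod (p ^ 2)) * (t : ZMod (p ^ 2)) := by
    have h2 := congrArg (fun t : ℤ => (t : ZMod (p ^ 2))) ht
    push_cast at h2
    linear_combination h2
  have un : IsUnit ((n : ℤ) : ZMod (p ^ 2)) := by
    have h15 : IsUnit (-15 + (p : ZMod (p ^ 2)) * (t : ZMod (p ^ 2))) := by
      have h : (-15 + (p : ZMod (p ^ 2)) * (t : ZMod (p ^ 2)))
          * (-15 - (p : ZMod (p ^ 2)) * (t : ZMod (p ^ 2))) = (3 * 5) ^ 2 := by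
        linear_combination (-(t : ZMod (p ^ 2)) ^ 2) * pp_zero p
      exact isUnit_of_mul_isUnit_left (h ▸ (u3.mul u5).pow 2)
    rw [← e] at h15
    exact (isUnit_pow_iff (by norm_num)).mp h15
  obtain ⟨m, hm⟩ := (u2.mul un).exists_left_inv
  refine ⟨(n : ZMod (p ^ 2)) - (p : ZMod (p ^ 2)) * (t : ZMod (p ^ 2)) * m, ?_⟩
  linear_combination e - (p : ZMod (p ^ 2)) * (t : ZMod (p ^ 2)) * hm
    + ((t : ZMod (p ^ 2)) * m) ^ 2 * pp_zero p

include hp in
theorem ordinary (h7 : 7 < p) (h : IsSquare (-15 : ZMod p)) (w z5 z49 : ZMod (p ^ 2))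
    (hw : 27 * w = -1) (hz5 : 5 * z5 = 1) (hz49 : 49 * z49 = -1) :
    GG p z5 = SS p w ∧ GG p z49 = SS p w := by
  have u2 : IsUnit (2 : ZMod (p ^ 2)) := by exact_mod_cast small_unit p h7 (n := 2) (by norm_num) (by norm_num)
  have u3 : IsUnit (3 : ZMod (p ^ 2)) := by exact_mod_cast small_unit p h7 (n := 3) (by norm_num) (by norm_num)
  have u5 : IsUnit (5 : ZMod (p ^ 2)) := by exact_mod_cast small_unit p h7 (n := 5) (by norm_num) (by norm_num)
  have u7 : IsUnit (7 : ZMod (p ^ 2)) := by exact_mod_cast small_unit p h7 (n := 7) (by norm_num) (by norm_num)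
  obtain ⟨r, hr⟩ := sqrt_lift p h7 h
  obtain ⟨q, hq⟩ := (u2.pow 7).exists_left_inv
  obtain ⟨u, hu⟩ : ∃ u : ZMod (p ^ 2), 64 * u ^ 2 + 11 * u + 1 = 0 := by
    refine ⟨q * (-11 + 3 * r), ?_⟩
    apply (u2.pow 8).mul_left_cancel
    linear_combination (1 + (128 * q * 1)) * ((-11 + 3 * r) ^ 2) * hq
      + 2 * 11 * (-11 + 3 * r) * hq + 9 * hr
  have uu : IsUnit u := by
    have h1 : u * (-(64 * u + 11)) = 1 := by linear_combination -hu
    exact isUnit_of_mul_isUnit_left (h1 ▸ isUnit_one)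
  have c4 : (1 + 4 * u) ^ 3 = -27 * u ^ 2 := by linear_combination (u + 1) * hu
  have c16 : (1 + 16 * u) ^ 3 = -27 * u := by linear_combination (64 * u + 1) * hu
  have c8 : (1 + 8 * u) ^ 2 = 5 * u := by linear_combination hu
  have u27 : IsUnit (-27 : ZMod (p ^ 2)) := by
    rw [show (-27 : ZMod (p ^ 2)) = -(3 ^ 3) by norm_num]
    exact (u3.pow 3).neg
  have i4 : IsUnit (1 + 4 * u) := (isUnit_pow_iff (by norm_num : (3 : ℕ) ≠ 0)).mp
    (c4 ▸ u27.mul (uu.pow 2))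
  have i16 : IsUnit (1 + 16 * u) := (isUnit_pow_iff (by norm_num : (3 : ℕ) ≠ 0)).mp
    (c16 ▸ u27.mul uu)
  have i8 : IsUnit (1 + 8 * u) := (isUnit_pow_iff (by norm_num : (2 : ℕ) ≠ 0)).mp
    (c8 ▸ u5.mul uu)
  obtain ⟨v, hv⟩ := pow_p p u
  have hodd : Odd p := hp.out.odd_of_ne_two (by omega)
  have PP := pp_zero p
  have eB := evB p h7 u w i4 (by linear_combination -w * c4 + u ^ 2 * hw)
  have eC := evC p h7 u w i16 (by linear_combination -w * c16 + u * hw)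
  have eA := evA p h7 u z5 i8 (by linear_combination -z5 * c8 - u * hz5)
  have eW := evW p h7 u w i4 (by linear_combination -w * c4 + u ^ 2 * hw)
  rw [pow_mul u p 2, hv] at eW
  rw [hv] at eB eC eA
  obtain ⟨hS, hA, hD⟩ := three_values u v (SS p w) (GG p z5) _ _ _ PP u2 u3 i4 i16 i8 eB eC eA
  have hW := second_value u v (SW p w) _ _ _ PP uu i4 c4 hD eW
  have m1 : (-1 : ZMod (p ^ 2)) ^ p = -1 := hodd.neg_one_pow
  have m2 : (-1 : ZMod (p ^ 2)) ^ (p * 2) = 1 := by rw [pow_mul, m1]; norm_num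
  have j4 : IsUnit (1 + 4 * (-1 : ZMod (p ^ 2))) := by
    rw [show (1 + 4 * (-1 : ZMod (p ^ 2))) = -3 by norm_num]
    exact u3.neg
  have j8 : IsUnit (1 + 8 * (-1 : ZMod (p ^ 2))) := by
    rw [show (1 + 8 * (-1 : ZMod (p ^ 2))) = -7 by norm_num]
    exact u7.neg
  have fB := evB p h7 (-1) w j4 (by linear_combination hw)
  have fA := evA p h7 (-1) z49 j8 (by linear_combination -hz49)
  have fW := evW p h7 (-1) w j4 (by linear_combination hw)
  rw [m1, m2] at fW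
  rw [m1] at fB fA
  rw [← hS] at hW
  exact ⟨hA.trans hS.symm, at_minus_one (SS p w) (SW p w) (GG p z49) _ _ _ u2 u3 u7 hW fB fA fW⟩

end

end Pool.Agent.MP8cc25e
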