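import Pool.Agent.Lib.MP_8cc25e_nt.PSq11
import Pool.Agent.Lib.MP_8cc25e_nt.PSLift

/-!
All primes: the three integers `m^(p-1) Z_p(m)` and `(-27)^(p-1) S_p` agree modulo `p^2`.
-/

namespace Pool.Agent.MP8cc25e

open Finset

/-- The integer `(-27)^(p-1) S_p`. -/
def NS (p : ℕ) : ℤ := ∑ n ∈ range p, (sg n : ℤ) * (-27) ^ (p - 1 - n)

lemma NS_cast {K : Type*} [Field K] (p : ℕ) [hp : Fact p.Prime] [CharP K p]
    (hm : (-27 : K) ≠ 0) :
    ((NS p : ℤ) : K) = (-27 : K) ^ (p - 1) * trunc p 3 sg (-(27 : K)⁻¹) := by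
  unfold NS trunc
  push_cast
  rw [mul_sum]
  apply sum_congr rfl
  intro n hn
  rw [mem_range] at hn
  split_ifs with h
  · have e : (-27 : K) ^ (p - 1) = (-27 : K) ^ (p - 1 - n) * (-27 : K) ^ n := by
      rw [← pow_add]
      congr 1
      omega
    have e2 : (-(27 : K)⁻¹) ^ n = ((-27 : K) ^ n)⁻¹ := by
      rw [← inv_neg, inv_pow]
    rw [e, e2]
    field_simp
  · rw [sg_zero p n hn (by omega)]
    simp

lemma NS_aux {K : Type*} [Field K] (p : ℕ) [hp : Fact p.Prime] [CharP K p] (h7 : 7 < p)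
    (r : K) (hr : r ^ 2 = -15) (hrp : r ^ p = -r) : (p : ℤ) ∣ NS p := by
  obtain ⟨hS, u, hu⟩ := sum27_zero (K := K) p (by omega) r hr hrp
  have h3' : (3 : K) ≠ 0 := by
    have := cast_ne_zero_of_lt (K := K) p (j := 3) (by norm_num) (by omega)
    exact_mod_cast this
  have h27 : (-27 : K) ≠ 0 := by
    rw [show (-27 : K) = -(3 ^ 3) by norm_num]
    exact neg_ne_zero.mpr (pow_ne_zero _ h3')
  rw [← CharP.intCast_eq_zero_iff K p, NS_cast p h27, hS, mul_zero]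

theorem NS_mod_p (p : ℕ) (hp : p.Prime) (h7 : 7 < p)
    (h : p % 30 = 7 ∨ p % 30 = 11 ∨ p % 30 = 13 ∨ p % 30 = 29) : (p : ℤ) ∣ NS p := by
  have hf : Fact p.Prime := ⟨hp⟩
  obtain ⟨r, hr⟩ := IsAlgClosed.exists_pow_nat_eq (-15 : AlgebraicClosure (ZMod p)) (n := 2)
    (by norm_num)
  refine NS_aux p h7 r hr ?_
  have h1 := legendreSym.eq_pow p (-15)
  rw [legendre_neg15 p h] at h1
  have h2 := congrArg (algebraMap (ZMod p) (AlgebraicClosure (ZMod p))) h1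
  rw [map_pow] at h2
  have hodd : r ^ p = r ^ (2 * (p / 2) + 1) := by
    congr 1
    omega
  rw [hodd, pow_succ, pow_mul, hr]
  have h3 : (-15 : AlgebraicClosure (ZMod p))
      = algebraMap (ZMod p) (AlgebraicClosure (ZMod p)) (((-15 : ℤ) : ZMod p)) := by
    rw [map_intCast]
    norm_num
  rw [h3, ← h2]
  simp

lemma NS_YS (p : ℕ) (z : ℤ) (h : (p : ℤ) ^ 2 ∣ (-27) * z - 1) :
    (p : ℤ) ^ 2 ∣ (-27) ^ (p - 1) * (YS p).eval z - NS p := by
  rw [YS_eval, NS, mul_sum, ← sum_sub_distrib]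
  apply dvd_sum
  intro n hn
  rw [mem_range] at hn
  have e : (-27 : ℤ) ^ (p - 1) = (-27) ^ (p - 1 - n) * (-27) ^ n := by
    rw [← pow_add]
    congr 1
    omega
  have h2 : (-27 : ℤ) ^ (p - 1) * ((sg n : ℤ) * z ^ n) - (sg n : ℤ) * (-27) ^ (p - 1 - n)
      = (((-27) * z) ^ n - 1 ^ n) * ((sg n : ℤ) * (-27) ^ (p - 1 - n)) := by
    rw [e, mul_pow]
    ring
  rw [h2]
  exact Dvd.dvd.mul_right (h.trans (sub_dvd_pow_sub_pow _ _ n)) _

theorem inert_NS (p : ℕ) (hp : p.Prime) (h7 : 7 < p)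
    (h : p % 30 = 7 ∨ p % 30 = 11 ∨ p % 30 = 13 ∨ p % 30 = 29) : (p : ℤ) ^ 2 ∣ NS p := by
  have hpz : Prime (p : ℤ) := Nat.prime_iff_prime_int.mp hp
  have small : ∀ q : ℕ, q < 8 → 1 < q → ¬ p ∣ q := by
    intro q h1 h2 h3
    have := Nat.le_of_dvd (by omega) h3
    omega
  have h3 : ¬ (p : ℤ) ∣ 3 := by
    intro h
    exact small 3 (by norm_num) (by norm_num) (by exact_mod_cast h)
  have h5 : ¬ (p : ℤ) ∣ 5 := by
    intro h
    exact small 5 (by norm_num) (by norm_num) (by exact_mod_cast h)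
  have h27 : ¬ (p : ℤ) ∣ -27 := by
    intro h
    rw [show (-27 : ℤ) = -(3 ^ 3) by norm_num, dvd_neg] at h
    exact h3 (hpz.dvd_of_dvd_pow h)
  have hcop : IsCoprime (-27 : ℤ) ((p : ℤ) ^ 2) :=
    (IsCoprime.pow_left ((Prime.coprime_iff_not_dvd hpz).mpr h27)).symm
  obtain ⟨z, b, hzb⟩ := hcop
  have hmz : (p : ℤ) ^ 2 ∣ (-27) * z - 1 := ⟨-b, by linear_combination hzb⟩
  have hp2 : (p : ℤ) ∣ (p : ℤ) ^ 2 := dvd_pow_self _ (by norm_num)
  have hmz1 : (p : ℤ) ∣ (-27) * z - 1 := hp2.trans hmz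
  have hN := NS_YS p z hmz
  have h0 := NS_mod_p p hp h7 h
  have hY : (p : ℤ) ∣ (YS p).eval z := by
    have h1 : (p : ℤ) ∣ (-27) ^ (p - 1) * (YS p).eval z := by
      have h2 := dvd_add (hp2.trans hN) h0
      simpa using h2
    rcases hpz.dvd_or_dvd h1 with h | h
    · exact absurd (hpz.dvd_of_dvd_pow h) h27
    · exact h
  have hz : ¬ (p : ℤ) ∣ z := by
    intro h
    have h1 : (p : ℤ) ∣ 1 := by
      obtain ⟨c, hc⟩ := hmz1
      obtain ⟨d, hd⟩ := h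
      exact ⟨(-27) * d - c, by rw [hd] at hc; linear_combination (-1 : ℤ) * hc⟩
    exact hpz.not_isUnit (isUnit_of_dvd_one h1)
  have hP : ¬ (p : ℤ) ∣ 1 - 108 * z := by
    intro h
    have h1 : (p : ℤ) ∣ 5 := by
      obtain ⟨c, hc⟩ := hmz1
      obtain ⟨d, hd⟩ := h
      exact ⟨d - 4 * c, by linear_combination hd - 4 * hc⟩
    exact h5 h1
  have h2 := lift_s p hp (by omega) z hz hP hY
  have h3 := dvd_sub (Dvd.dvd.mul_left h2 ((-27) ^ (p - 1))) hN
  simpa using h3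

section

variable (p : ℕ) [hp : Fact p.Prime]

omit hp in
lemma NN_GG (m : ℤ) (z : ZMod (p ^ 2)) (h : ((m : ℤ) : ZMod (p ^ 2)) * z = 1) :
    ((NN p m : ℤ) : ZMod (p ^ 2)) = ((m : ℤ) : ZMod (p ^ 2)) ^ (p - 1) * GG p z := by
  unfold NN GG
  push_cast
  rw [mul_sum]
  apply sum_congr rfl
  intro n hn
  rw [mem_range] at hn
  have e : ((m : ℤ) : ZMod (p ^ 2)) ^ (p - 1)
      = ((m : ℤ) : ZMod (p ^ 2)) ^ (p - 1 - n) * ((m : ℤ) : ZMod (p ^ 2)) ^ n := by
    rw [← pow_add]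
    congr 1
    omega
  have e2 : ((m : ℤ) : ZMod (p ^ 2)) ^ n * z ^ n = 1 := by
    rw [← mul_pow, h, one_pow]
  rw [e]
  linear_combination (-(gg n : ZMod (p ^ 2)) * ((m : ℤ) : ZMod (p ^ 2)) ^ (p - 1 - n)) * e2

omit hp in
lemma NS_SS (z : ZMod (p ^ 2)) (h : (-27 : ZMod (p ^ 2)) * z = 1) :
    ((NS p : ℤ) : ZMod (p ^ 2)) = (-27 : ZMod (p ^ 2)) ^ (p - 1) * SS p z := by
  unfold NS SS
  push_cast
  rw [mul_sum]
  apply sum_congr rfl
  intro n hn
  rw [mem_range] at hn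
  have e : (-27 : ZMod (p ^ 2)) ^ (p - 1)
      = (-27 : ZMod (p ^ 2)) ^ (p - 1 - n) * (-27 : ZMod (p ^ 2)) ^ n := by
    rw [← pow_add]
    congr 1
    omega
  have e2 : (-27 : ZMod (p ^ 2)) ^ n * z ^ n = 1 := by
    rw [← mul_pow, h, one_pow]
  rw [e]
  linear_combination (-(sg n : ZMod (p ^ 2)) * (-27 : ZMod (p ^ 2)) ^ (p - 1 - n)) * e2

end

lemma square_neg15 (p : ℕ) (hp : p.Prime)
    (h : p % 30 = 1 ∨ p % 30 = 17 ∨ p % 30 = 19 ∨ p % 30 = 23) : IsSquare (-15 : ZMod p) := by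
  have hf : Fact p.Prime := ⟨hp⟩
  have hs : legendreSym p (-15) = 1 := by
    rw [jacobiSym.legendreSym.to_jacobiSym]
    have hodd : Odd p := by
      rw [Nat.odd_iff]
      omega
    rw [jacobiSym.mod_right _ hodd]
    have h60 : p % (4 * (-15 : ℤ).natAbs) = p % 60 := by norm_num
    rw [h60]
    have hc : p % 60 = 1 ∨ p % 60 = 31 ∨ p % 60 = 17 ∨ p % 60 = 47 ∨ p % 60 = 19 ∨ p % 60 = 49 ∨
        p % 60 = 23 ∨ p % 60 = 53 := by omega
    rcases hc with h | h | h | h | h | h | h | h <;> rw [h] <;> norm_num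
  have hne : (((-15 : ℤ)) : ZMod p) ≠ 0 := by
    intro h0
    rw [(legendreSym.eq_zero_iff p (-15)).mpr h0] at hs
    exact absurd hs (by norm_num)
  have := (legendreSym.eq_one_iff p hne).mp hs
  push_cast at this
  exact this

/-- All primes `p > 7`. -/
theorem all_primes (p : ℕ) (hp : p.Prime) (h7 : 7 < p) :
    (p : ℤ) ^ 2 ∣ NN p 5 * (-27) ^ (p - 1) - NS p * 5 ^ (p - 1) ∧
    (p : ℤ) ^ 2 ∣ NN p (-49) * (-27) ^ (p - 1) - NS p * (-49) ^ (p - 1) := by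
  have hf : Fact p.Prime := ⟨hp⟩
  have cls : (p % 30 = 7 ∨ p % 30 = 11 ∨ p % 30 = 13 ∨ p % 30 = 29) ∨
      (p % 30 = 1 ∨ p % 30 = 17 ∨ p % 30 = 19 ∨ p % 30 = 23) := by
    have n2 : ¬ 2 ∣ p := fun h => by
      have := (Nat.prime_dvd_prime_iff_eq Nat.prime_two hp).mp h
      omega
    have n3 : ¬ 3 ∣ p := fun h => by
      have := (Nat.prime_dvd_prime_iff_eq Nat.prime_three hp).mp h
      omega
    have n5 : ¬ 5 ∣ p := fun h => by
      have := (Nat.prime_dvd_prime_iff_eq Nat.prime_five hp).mp h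
      omega
    have m2 : p % 30 % 2 = p % 2 := Nat.mod_mod_of_dvd p (by norm_num)
    have m3 : p % 30 % 3 = p % 3 := Nat.mod_mod_of_dvd p (by norm_num)
    have m5 : p % 30 % 5 = p % 5 := Nat.mod_mod_of_dvd p (by norm_num)
    have n2' : p % 2 ≠ 0 := fun h => n2 (Nat.dvd_of_mod_eq_zero h)
    have n3' : p % 3 ≠ 0 := fun h => n3 (Nat.dvd_of_mod_eq_zero h)
    have n5' : p % 5 ≠ 0 := fun h => n5 (Nat.dvd_of_mod_eq_zero h)
    have hlt : p % 30 < 30 := Nat.mod_lt _ (by norm_num)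
    rw [← m2] at n2'
    rw [← m3] at n3'
    rw [← m5] at n5'
    clear n2 n3 n5 m2 m3 m5
    generalize p % 30 = r at *
    interval_cases r <;> simp_all
  rcases cls with h | h
  · obtain ⟨a, b⟩ := inert_half p hp h7 h
    have c := inert_NS p hp h7 h
    exact ⟨dvd_sub (Dvd.dvd.mul_right a _) (Dvd.dvd.mul_right c _),
      dvd_sub (Dvd.dvd.mul_right b _) (Dvd.dvd.mul_right c _)⟩
  · have hs := square_neg15 p hp h
    have u3 : IsUnit (3 : ZMod (p ^ 2)) := by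
      exact_mod_cast small_unit p h7 (n := 3) (by norm_num) (by norm_num)
    have u5 : IsUnit (5 : ZMod (p ^ 2)) := by
      exact_mod_cast small_unit p h7 (n := 5) (by norm_num) (by norm_num)
    have u7 : IsUnit (7 : ZMod (p ^ 2)) := by
      exact_mod_cast small_unit p h7 (n := 7) (by norm_num) (by norm_num)
    obtain ⟨w, hw⟩ := (u3.pow 3).exists_right_inv
    obtain ⟨z5, hz5⟩ := u5.exists_right_inv
    obtain ⟨z49, hz49⟩ := (u7.pow 2).exists_right_inv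
    have o := ordinary p h7 hs (-w) z5 (-z49) (by linear_combination -hw) hz5
      (by linear_combination -hz49)
    have n5 := NN_GG p 5 z5 (by push_cast; exact hz5)
    have n49 := NN_GG p (-49) (-z49) (by push_cast; linear_combination hz49)
    have ns := NS_SS p (-w) (by linear_combination hw)
    constructor
    · have : (((NN p 5 * (-27) ^ (p - 1) - NS p * 5 ^ (p - 1) : ℤ)) : ZMod (p ^ 2)) = 0 := by
        push_cast
        rw [n5, ns, o.1]
        push_cast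
        ring
      have h2 := (ZMod.intCast_zmod_eq_zero_iff_dvd _ (p ^ 2)).mp this
      exact_mod_cast h2
    · have : (((NN p (-49) * (-27) ^ (p - 1) - NS p * (-49) ^ (p - 1) : ℤ)) : ZMod (p ^ 2)) = 0 := by
        push_cast
        rw [n49, ns, o.2]
        push_cast
        ring
      have h2 := (ZMod.intCast_zmod_eq_zero_iff_dvd _ (p ^ 2)).mp this
      exact_mod_cast h2

end Pool.Agent.MP8cc25e
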