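import Pool.Agent.Lib.MP_8cc25e_nt.PSq1

/-!
Truncations at multiples of `p` satisfy the Domb recurrence modulo `p^2`.
-/

namespace Pool.Agent.MP8cc25e

open Finset

/-- Truncated transform B. -/
def bB (m N : ℕ) : ℤ := ∑ k ∈ range m, (sg k : ℤ) * ((N + k).choose (3 * k)) * (-4) ^ (N - 2 * k)

/-- Truncated transform C. -/
def bC (m N : ℕ) : ℤ := ∑ k ∈ range m, (sg k : ℤ) * ((N + 2 * k).choose (3 * k)) * (-16) ^ (N - 1 * k)

/-- Truncated transform A. -/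
def bA (m N : ℕ) : ℤ := ∑ k ∈ range m, (gg k : ℤ) * ((N + k).choose (2 * k)) * (-8) ^ (N - 1 * k)

lemma bB_cast (m N : ℕ) : (bB m N : ℚ)
    = ∑ k ∈ range m, (sg k : ℚ) * ((N + k).choose (3 * k)) * (-4) ^ N / 16 ^ k := by
  unfold bB
  push_cast
  apply sum_congr rfl
  intro k _
  rcases le_or_gt (2 * k) N with h | h
  · have e : ((-4 : ℚ)) ^ N = (-4) ^ (N - 2 * k) * 16 ^ k := by
      rw [show (16 : ℚ) = (-4) ^ 2 by norm_num, ← pow_mul, ← pow_add]
      congr 1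
      omega
    rw [e]
    field_simp
  · rw [Nat.choose_eq_zero_of_lt (by omega)]
    simp

lemma bC_cast (m N : ℕ) : (bC m N : ℚ)
    = ∑ k ∈ range m, (sg k : ℚ) * ((N + 2 * k).choose (3 * k)) * (-16) ^ N / (-16) ^ k := by
  unfold bC
  push_cast
  apply sum_congr rfl
  intro k _
  rcases le_or_gt k N with h | h
  · have e : ((-16 : ℚ)) ^ N = (-16) ^ (N - 1 * k) * (-16) ^ k := by
      rw [← pow_add]
      congr 1
      omega
    rw [e]
    have h16 : ((-16 : ℚ)) ^ k ≠ 0 := pow_ne_zero _ (by norm_num)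
    field_simp
  · rw [Nat.choose_eq_zero_of_lt (by omega)]
    simp

lemma bA_cast (m N : ℕ) : (bA m N : ℚ)
    = ∑ k ∈ range m, (gg k : ℚ) * ((N + k).choose (2 * k)) * (-8) ^ N / (-8) ^ k := by
  unfold bA
  push_cast
  apply sum_congr rfl
  intro k _
  rcases le_or_gt k N with h | h
  · have e : ((-8 : ℚ)) ^ N = (-8) ^ (N - 1 * k) * (-8) ^ k := by
      rw [← pow_add]
      congr 1
      omega
    rw [e]
    have h8 : ((-8 : ℚ)) ^ k ≠ 0 := pow_ne_zero _ (by norm_num)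
    field_simp
  · rw [Nat.choose_eq_zero_of_lt (by omega)]
    simp

/-- Defect of a sequence in the Domb recurrence. -/
def defect (a : ℕ → ℤ) (N : ℕ) : ℤ :=
  ((N : ℤ) + 2) ^ 3 * a (N + 2) + polR (N : ℤ) * a (N + 1) + 64 * ((N : ℤ) + 1) ^ 3 * a N

lemma defectB (m N : ℕ) : 16 ^ (m + 1) * (3 * (m : ℤ) + 2) * defect (bB (m + 1)) N
    = ((m : ℤ) + 1) ^ 3 * (-64 * (3 * (N : ℤ) + 4) * sg (m + 1)
      * ((N + (m + 1)).choose (3 * m + 1)) * (-4) ^ N) := by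
  have h := tB_partial N (m + 1)
  have d : (defect (bB (m + 1)) N : ℚ) = ∑ k ∈ range (m + 1),
      (((N : ℚ) + 2) ^ 3 * ((sg k : ℚ) * ((N + 2 + k).choose (3 * k)) * (-4) ^ (N + 2) / 16 ^ k)
      + pol N * ((sg k : ℚ) * ((N + 1 + k).choose (3 * k)) * (-4) ^ (N + 1) / 16 ^ k)
      + 64 * ((N : ℚ) + 1) ^ 3 * ((sg k : ℚ) * ((N + k).choose (3 * k)) * (-4) ^ N / 16 ^ k)) := by
    rw [sum_add_distrib, sum_add_distrib, ← mul_sum, ← mul_sum, ← mul_sum, ← bB_cast, ← bB_cast,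
      ← bB_cast]
    unfold defect polR pol
    push_cast
    ring
  rw [h] at d
  have a1 := choose_succ_succ_mul (N + (m + 1)) (3 * m + 1)
  have a2 := choose_succ_succ_mul (N + (m + 1) + 1) (3 * m + 2)
  rw [show 3 * m + 1 + 1 = 3 * m + 2 by ring] at a1
  rw [show 3 * m + 2 + 1 = 3 * (m + 1) by ring, show N + (m + 1) + 1 + 1 = N + 2 + (m + 1) by ring] at a2
  push_cast at a1 a2
  have e1 : ((N + (m + 1) + 1).choose (3 * m + 2) : ℚ)
      = ((N : ℚ) + (m + 1) + 1) * ((N + (m + 1)).choose (3 * m + 1)) / (3 * m + 2) := by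
    rw [eq_div_iff (by positivity)]
    linarith
  have e2 : ((N + 2 + (m + 1)).choose (3 * (m + 1)) : ℚ)
      = ((N : ℚ) + (m + 1) + 2) * ((N + (m + 1) + 1).choose (3 * m + 2)) / (3 * (m + 1)) := by
    rw [eq_div_iff (by positivity)]
    linarith
  rw [e2, e1] at d
  have q : (16 : ℚ) ^ (m + 1) * (3 * (m : ℚ) + 2) * (defect (bB (m + 1)) N : ℚ)
      = ((m : ℚ) + 1) ^ 3 * (-64 * (3 * (N : ℚ) + 4) * sg (m + 1)
      * ((N + (m + 1)).choose (3 * m + 1)) * (-4) ^ N) := by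
    rw [d]
    have hn1 : (N : ℚ) + 1 + (m + 1) ≠ 0 := by positivity
    have hn2 : (N : ℚ) + 2 + (m + 1) ≠ 0 := by positivity
    push_cast
    field_simp
    ring
  exact_mod_cast q

lemma defectC (m N : ℕ) : (-16) ^ (m + 1) * (3 * (m : ℤ) + 2) * defect (bC (m + 1)) N
    = ((m : ℤ) + 1) ^ 3 * (-256 * (3 * (N : ℤ) + 5) * sg (m + 1)
      * ((N + 2 * (m + 1)).choose (3 * m + 1)) * (-16) ^ N) := by
  have h := tC_partial N (m + 1)
  have d : (defect (bC (m + 1)) N : ℚ) = ∑ k ∈ range (m + 1),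
      (((N : ℚ) + 2) ^ 3 * ((sg k : ℚ) * ((N + 2 + 2 * k).choose (3 * k)) * (-16) ^ (N + 2) / (-16) ^ k)
      + pol N * ((sg k : ℚ) * ((N + 1 + 2 * k).choose (3 * k)) * (-16) ^ (N + 1) / (-16) ^ k)
      + 64 * ((N : ℚ) + 1) ^ 3 * ((sg k : ℚ) * ((N + 2 * k).choose (3 * k)) * (-16) ^ N / (-16) ^ k)) := by
    rw [sum_add_distrib, sum_add_distrib, ← mul_sum, ← mul_sum, ← mul_sum, ← bC_cast, ← bC_cast,
      ← bC_cast]
    unfold defect polR pol
    push_cast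
    ring
  rw [h] at d
  have a1 := choose_succ_succ_mul (N + 2 * (m + 1)) (3 * m + 1)
  have a2 := choose_succ_succ_mul (N + 2 * (m + 1) + 1) (3 * m + 2)
  rw [show 3 * m + 1 + 1 = 3 * m + 2 by ring] at a1
  rw [show 3 * m + 2 + 1 = 3 * (m + 1) by ring,
    show N + 2 * (m + 1) + 1 + 1 = N + 2 + 2 * (m + 1) by ring] at a2
  push_cast at a1 a2
  have e1 : ((N + 2 * (m + 1) + 1).choose (3 * m + 2) : ℚ)
      = ((N : ℚ) + 2 * (m + 1) + 1) * ((N + 2 * (m + 1)).choose (3 * m + 1)) / (3 * m + 2) := by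
    rw [eq_div_iff (by positivity)]
    linarith
  have e2 : ((N + 2 + 2 * (m + 1)).choose (3 * (m + 1)) : ℚ)
      = ((N : ℚ) + 2 * (m + 1) + 2) * ((N + 2 * (m + 1) + 1).choose (3 * m + 2)) / (3 * (m + 1)) := by
    rw [eq_div_iff (by positivity)]
    linarith
  rw [e2, e1] at d
  have q : (-16 : ℚ) ^ (m + 1) * (3 * (m : ℚ) + 2) * (defect (bC (m + 1)) N : ℚ)
      = ((m : ℚ) + 1) ^ 3 * (-256 * (3 * (N : ℚ) + 5) * sg (m + 1)
      * ((N + 2 * (m + 1)).choose (3 * m + 1)) * (-16) ^ N) := by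
    rw [d]
    have hn1 : (N : ℚ) + 1 + 2 * (m + 1) ≠ 0 := by positivity
    have hn2 : (N : ℚ) + 2 + 2 * (m + 1) ≠ 0 := by positivity
    have h16 : ((-16 : ℚ)) ^ (m + 1) ≠ 0 := pow_ne_zero _ (by norm_num)
    push_cast
    field_simp
    ring
  exact_mod_cast q

lemma defectA (m N : ℕ) : (-8) ^ m * defect (bA (m + 1)) N
    = 16 * (2 * (N : ℤ) + 3) * ((2 * m).choose m) * (-8) ^ N
      * (((m : ℤ) + 1) ^ 2 * ((N + 1 + m).choose (2 * m)) * franel (m + 1)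
        - (2 * (m : ℤ) + 1) * (2 * ((m : ℤ) + 1)) * ((N + 2 + m).choose (2 * m + 2)) * franel m) := by
  have h := tA_partial N m
  have d : (defect (bA (m + 1)) N : ℚ) = ∑ k ∈ range (m + 1),
      (((N : ℚ) + 2) ^ 3 * ((gg k : ℚ) * ((N + 2 + k).choose (2 * k)) * (-8) ^ (N + 2) / (-8) ^ k)
      + pol N * ((gg k : ℚ) * ((N + 1 + k).choose (2 * k)) * (-8) ^ (N + 1) / (-8) ^ k)
      + 64 * ((N : ℚ) + 1) ^ 3 * ((gg k : ℚ) * ((N + k).choose (2 * k)) * (-8) ^ N / (-8) ^ k)) := by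
    rw [sum_add_distrib, sum_add_distrib, ← mul_sum, ← mul_sum, ← mul_sum, ← bA_cast, ← bA_cast,
      ← bA_cast]
    unfold defect polR pol
    push_cast
    ring
  rw [h] at d
  have hn1 : (N : ℚ) + 1 + m ≠ 0 := by positivity
  have hn2 : (N : ℚ) + 2 + m ≠ 0 := by positivity
  have b1 := choose_succ_left (N + 1 + m) (2 * m)
  rw [show N + 1 + m + 1 = N + 2 + m by ring] at b1
  have b2 := choose_succ_right (N + 1 + m) (2 * m)
  have b3 := choose_succ_succ_mul (N + 1 + m) (2 * m + 1)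
  rw [show N + 1 + m + 1 = N + 2 + m by ring, show 2 * m + 1 + 1 = 2 * m + 2 by ring] at b3
  push_cast at b1 b2 b3
  have e1 : ((N + 2 + m).choose (2 * m + 2) : ℚ) * (2 * (m : ℚ) + 2) * (2 * (m : ℚ) + 1)
      = ((N : ℚ) + 2 + m) * (((N + 1 + m).choose (2 * m) : ℚ) * ((N : ℚ) + 1 - m)) := by
    have : ((N + 2 + m).choose (2 * m + 2) : ℚ) * (2 * (m : ℚ) + 2)
        = ((N : ℚ) + 2 + m) * ((N + 1 + m).choose (2 * m + 1)) := by linarith
    rw [this, mul_assoc, b2]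
    ring
  have e2 : ((N + 1 + m).choose (2 * m) : ℚ)
      = ((N + 2 + m).choose (2 * m)) * ((N : ℚ) + 2 - m) / (N + 2 + m) := by
    rw [eq_div_iff hn2]
    linarith
  have q : (-8 : ℚ) ^ m * (defect (bA (m + 1)) N : ℚ)
      = 16 * (2 * (N : ℚ) + 3) * ((2 * m).choose m) * (-8) ^ N
      * (((m : ℚ) + 1) ^ 2 * ((N + 1 + m).choose (2 * m)) * franel (m + 1)
        - (2 * (m : ℚ) + 1) * (2 * ((m : ℚ) + 1)) * ((N + 2 + m).choose (2 * m + 2)) * franel m) := by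
    have e3 : (2 * (m : ℚ) + 1) * (2 * ((m : ℚ) + 1)) * ((N + 2 + m).choose (2 * m + 2)) * franel m
        = ((N : ℚ) + 2 + m) * (((N + 1 + m).choose (2 * m) : ℚ) * ((N : ℚ) + 1 - m)) * franel m := by
      rw [← e1]
      ring
    rw [e3, d, e2]
    have h8 : ((-8 : ℚ)) ^ m ≠ 0 := pow_ne_zero _ (by norm_num)
    field_simp
    ring
  exact_mod_cast q

section

variable (p : ℕ) [hp : Fact p.Prime]

include hp in
lemma dvd_of_coprime_mul (u x : ℤ) (hu : ¬ (p : ℤ) ∣ u) (h : (p : ℤ) ^ 2 ∣ u * x) :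
    (p : ℤ) ^ 2 ∣ x := by
  have hpz : Prime (p : ℤ) := Nat.prime_iff_prime_int.mp hp.out
  have hcop : IsCoprime ((p : ℤ) ^ 2) u :=
    IsCoprime.pow_left ((Prime.coprime_iff_not_dvd hpz).mpr hu)
  exact hcop.dvd_of_dvd_mul_left h

include hp in
lemma not_dvd_pow (h2 : 2 < p) (b : ℤ) (m k : ℕ) (hb : b = 2 ^ k ∨ b = -2 ^ k) :
    ¬ (p : ℤ) ∣ b ^ m := by
  have hpz : Prime (p : ℤ) := Nat.prime_iff_prime_int.mp hp.out
  intro h
  have h1 := hpz.dvd_of_dvd_pow h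
  have h3 : (p : ℤ) ∣ 2 ^ k := by
    rcases hb with h4 | h4
    · rwa [h4] at h1
    · rw [h4] at h1
      exact dvd_neg.mp h1
  have h5 := hpz.dvd_of_dvd_pow h3
  have h6 : p ∣ 2 := by exact_mod_cast h5
  exact absurd (Nat.le_of_dvd (by norm_num) h6) (by omega)

include hp in
lemma defectB_dvd (h2 : 2 < p) (r N : ℕ) : (p : ℤ) ^ 2 ∣ defect (bB (p * r)) N := by
  have hpz : Prime (p : ℤ) := Nat.prime_iff_prime_int.mp hp.out
  rcases Nat.eq_zero_or_pos (p * r) with h0 | h0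
  · rw [h0]
    unfold defect bB
    simp
  · obtain ⟨m, hm⟩ : ∃ m, p * r = m + 1 := ⟨p * r - 1, by omega⟩
    have h := defectB m N
    rw [hm]
    have hpm : (p : ℤ) ∣ (m : ℤ) + 1 := ⟨r, by exact_mod_cast hm.symm⟩
    apply dvd_of_coprime_mul p (16 ^ (m + 1) * (3 * (m : ℤ) + 2))
    · intro hd
      rcases hpz.dvd_or_dvd hd with h' | h'
      · exact not_dvd_pow p h2 16 (m + 1) 4 (Or.inl (by norm_num)) h'
      · have : (p : ℤ) ∣ 1 := by
          have h3 : (1 : ℤ) = 3 * ((m : ℤ) + 1) - (3 * (m : ℤ) + 2) := by ring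
          rw [h3]
          exact dvd_sub (Dvd.dvd.mul_left hpm 3) h'
        exact hpz.not_isUnit (isUnit_of_dvd_one this)
    · rw [h]
      apply Dvd.dvd.mul_right
      exact (pow_dvd_pow_of_dvd hpm 2).trans (pow_dvd_pow _ (by norm_num))

include hp in
lemma defectC_dvd (h2 : 2 < p) (N : ℕ) : (p : ℤ) ^ 2 ∣ defect (bC p) N := by
  have hpz : Prime (p : ℤ) := Nat.prime_iff_prime_int.mp hp.out
  obtain ⟨m, hm⟩ : ∃ m, p = m + 1 := ⟨p - 1, by omega⟩
  have h := defectC m N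
  have hpm : (p : ℤ) = (m : ℤ) + 1 := by exact_mod_cast hm
  rw [← hm] at h
  apply dvd_of_coprime_mul p ((-16) ^ p * (3 * (m : ℤ) + 2))
  · intro hd
    rcases hpz.dvd_or_dvd hd with h' | h'
    · exact not_dvd_pow p h2 (-16) p 4 (Or.inr (by norm_num)) h'
    · have : (p : ℤ) ∣ 1 := by
        have h3 : (1 : ℤ) = 3 * (p : ℤ) - (3 * (m : ℤ) + 2) := by rw [hpm]; ring
        rw [h3]
        exact dvd_sub (Dvd.intro_left 3 rfl) h'
      exact hpz.not_isUnit (isUnit_of_dvd_one this)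
  · rw [h, ← hpm]
    apply Dvd.dvd.mul_right
    exact pow_dvd_pow _ (by norm_num)

include hp in
lemma defectA_dvd (h2 : 2 < p) (N : ℕ) : (p : ℤ) ^ 2 ∣ defect (bA p) N := by
  obtain ⟨m, hm⟩ : ∃ m, p = m + 1 := ⟨p - 1, by omega⟩
  have h := defectA m N
  have hpm : (p : ℤ) = (m : ℤ) + 1 := by exact_mod_cast hm
  rw [← hm] at h
  apply dvd_of_coprime_mul p ((-8) ^ m)
  · exact not_dvd_pow p h2 (-8) m 3 (Or.inr (by norm_num))
  · rw [h, ← hpm]
    have hc : (p : ℤ) ∣ ((2 * m).choose m : ℤ) := by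
      have h2' : (2 * m).choose m * m.factorial * (2 * m - m).factorial = (2 * m).factorial :=
        Nat.choose_mul_factorial_mul_factorial (by omega)
      have h3 : p ∣ (2 * m).choose m * m.factorial * (2 * m - m).factorial := by
        rw [h2']
        exact hp.out.dvd_factorial.mpr (by omega)
      have h4 : ¬ p ∣ m.factorial := by
        rw [hp.out.dvd_factorial]
        omega
      rw [show 2 * m - m = m by omega] at h3
      rcases (hp.out.dvd_mul).mp h3 with h6 | h6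
      · rcases (hp.out.dvd_mul).mp h6 with h7 | h7
        · exact_mod_cast h7
        · exact absurd h7 h4
      · exact absurd h6 h4
    obtain ⟨g, hg⟩ := hc
    rw [hg]
    exact ⟨16 * (2 * (N : ℤ) + 3) * g * (-8) ^ N
      * ((p : ℤ) * ((N + 1 + m).choose (2 * m)) * franel p
        - (2 * (m : ℤ) + 1) * 2 * ((N + 2 + m).choose (2 * m + 2)) * franel m), by ring⟩

end

end Pool.Agent.MP8cc25e
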