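import Pool.Agent.Lib.MP_8cc25e_nt.PSq2

/-!
Binomial coefficients modulo `p^2`, and the values of the truncated transforms at multiples of `p`.
-/

namespace Pool.Agent.MP8cc25e

open Finset

section

variable (p : ℕ) [hp : Fact p.Prime]

omit hp in
lemma pmul_congr (x y : ℕ) (h : x ≡ y [MOD p]) :
    (p : ZMod (p ^ 2)) * (x : ZMod (p ^ 2)) = (p : ZMod (p ^ 2)) * (y : ZMod (p ^ 2)) := by
  have h1 : p * x ≡ p * y [MOD p * p] := Nat.ModEq.mul_left' p h
  rw [← pow_two] at h1
  have h2 := (ZMod.natCast_eq_natCast_iff (p * x) (p * y) (p ^ 2)).mpr h1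
  push_cast at h2
  exact h2

omit hp in
lemma dvd_mul_zero {x y : ℕ} (hx : p ∣ x) (hy : p ∣ y) :
    (x : ZMod (p ^ 2)) * (y : ZMod (p ^ 2)) = 0 := by
  obtain ⟨a, rfl⟩ := hx
  obtain ⟨b, rfl⟩ := hy
  push_cast
  linear_combination (a : ZMod (p ^ 2)) * b * pp_zero p

include hp in
lemma lucas2 (a b c d : ℕ) (hb : b < p) (hd : d < p) :
    (p : ZMod (p ^ 2)) * ((p * a + b).choose (p * c + d) : ZMod (p ^ 2))
      = (p : ZMod (p ^ 2)) * ((a.choose c : ZMod (p ^ 2)) * (b.choose d : ZMod (p ^ 2))) := by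
  have h := @Choose.choose_modEq_choose_mod_mul_choose_div_nat (p * a + b) (p * c + d) p _
  have hpos := hp.out.pos
  rw [Nat.mul_add_mod, Nat.mod_eq_of_lt hb, Nat.mul_add_mod, Nat.mod_eq_of_lt hd,
    Nat.mul_add_div hpos, Nat.div_eq_of_lt hb, Nat.mul_add_div hpos, Nat.div_eq_of_lt hd,
    add_zero, add_zero] at h
  rw [pmul_congr p _ _ h]
  push_cast
  ring

include hp in
lemma dvd_choose_of_gt (a b c d : ℕ) (hb : b < p) (hd : d < p) (hbd : b < d) :
    p ∣ (p * a + b).choose (p * c + d) := by
  have h := @Choose.choose_modEq_choose_mod_mul_choose_div_nat (p * a + b) (p * c + d) p _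
  have hpos := hp.out.pos
  rw [Nat.mul_add_mod, Nat.mod_eq_of_lt hb, Nat.mul_add_mod, Nat.mod_eq_of_lt hd,
    Nat.choose_eq_zero_of_lt hbd, zero_mul] at h
  exact (Nat.modEq_zero_iff_dvd).mp h

include hp in
lemma dvd_choose_mul (a i : ℕ) (hi : ¬ p ∣ i) : p ∣ (p * a).choose i := by
  have h := dvd_choose_of_gt p a 0 (i / p) (i % p) hp.out.pos (Nat.mod_lt _ hp.out.pos)
    (Nat.pos_of_ne_zero (fun h0 => hi (Nat.dvd_of_mod_eq_zero h0)))
  rwa [add_zero, Nat.div_add_mod] at h

include hp in
/-- Babbage type congruence. -/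
theorem babbage (a b : ℕ) :
    ((p * a).choose (p * b) : ZMod (p ^ 2)) = (a.choose b : ZMod (p ^ 2)) := by
  induction a generalizing b with
  | zero =>
    rcases b with _ | b
    · simp
    · rw [mul_zero, Nat.choose_eq_zero_of_lt (Nat.mul_pos hp.out.pos (Nat.succ_pos b)),
        Nat.choose_eq_zero_of_lt (Nat.succ_pos b)]
  | succ a ih =>
    rcases b with _ | b
    · simp
    · have hpos := hp.out.pos
      rw [Nat.mul_succ, Nat.add_choose_eq]
      push_cast
      have hmem1 : ((p * (b + 1), 0) : ℕ × ℕ) ∈ antidiagonal (p * (b + 1)) := by simp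
      have hmem2 : ((p * b, p) : ℕ × ℕ) ∈ antidiagonal (p * (b + 1)) := by
        simp [Nat.mul_succ]
      have hne : ((p * (b + 1), 0) : ℕ × ℕ) ≠ (p * b, p) := by
        intro h
        have := congrArg Prod.snd h
        simp at this
        omega
      rw [← sum_subset (s₁ := {((p * (b + 1), 0) : ℕ × ℕ), (p * b, p)}), sum_pair hne]
      · simp only [Nat.choose_zero_right, Nat.choose_self, Nat.cast_one, mul_one]
        rw [ih, ih, Nat.choose_succ_succ]
        push_cast
        ring
      · intro x hx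
        simp only [mem_insert, mem_singleton] at hx
        rcases hx with rfl | rfl
        · exact hmem1
        · exact hmem2
      · rintro ⟨x, y⟩ hxy hnot
        rw [HasAntidiagonal.mem_antidiagonal] at hxy
        simp only at hxy
        simp only [mem_insert, mem_singleton, Prod.mk.injEq, not_or, not_and] at hnot
        obtain ⟨hn1, hn2⟩ := hnot
        rcases lt_trichotomy y p with h | h | h
        · rcases Nat.eq_zero_or_pos y with h0 | h0
          · exfalso
            apply hn1 _ h0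
            omega
          · have hy : p ∣ p.choose y := hp.out.dvd_choose_self (by omega) h
            have hx : p ∣ (p * a).choose x := by
              apply dvd_choose_mul
              intro hd
              have h3 : p ∣ x + y := by
                rw [hxy]
                exact Dvd.intro _ rfl
              have h4 : p ∣ y := (Nat.dvd_add_right hd).mp h3
              exact absurd (Nat.le_of_dvd h0 h4) (by omega)
            exact dvd_mul_zero p hx hy
        · exfalso
          apply hn2 _ h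
          rw [Nat.mul_succ] at hxy
          omega
        · rw [Nat.choose_eq_zero_of_lt h]
          simp

include hp in
lemma choose_pred (i : ℕ) (hi : i < p) :
    (p : ZMod (p ^ 2)) * ((p - 1).choose i : ZMod (p ^ 2)) = (p : ZMod (p ^ 2)) * (-1) ^ i := by
  induction i with
  | zero => simp
  | succ i ih =>
    have hu := natCast_unit_lt p (Nat.succ_pos i) hi
    apply hu.mul_right_cancel
    have h1 := Nat.choose_succ_right_eq (p - 1) i
    have h2 : ((p - 1).choose (i + 1) : ZMod (p ^ 2)) * ((i + 1 : ℕ) : ZMod (p ^ 2))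
        = ((p - 1).choose i : ZMod (p ^ 2)) * ((p - 1 - i : ℕ) : ZMod (p ^ 2)) := by
      rw [← Nat.cast_mul, h1, Nat.cast_mul]
    have h3 : ((p - 1 - i : ℕ) : ZMod (p ^ 2)) = (p : ZMod (p ^ 2)) - ((i + 1 : ℕ) : ZMod (p ^ 2)) := by
      rw [← Nat.cast_sub (by omega)]
      congr 1
      omega
    rw [mul_assoc, h2, h3]
    have ih' := ih (by omega)
    have pz := pp_zero p
    linear_combination ((p : ZMod (p ^ 2)) - ((i + 1 : ℕ) : ZMod (p ^ 2))) * ih' + (-1) ^ i * pz

/-- Coefficients of the correction. -/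
def kap (i : ℕ) : ZMod (p ^ 2) :=
  if 2 * i < p then -(((2 * i).choose i : ZMod (p ^ 2)) ^ 2) * ((2 * i : ℕ) : ZMod (p ^ 2))⁻¹ else 0

omit hp in
lemma split_B (N k : ℕ) : sg k * (N + k).choose (3 * k)
    = ((2 * k).choose k) ^ 2 * ((N + k).choose k * N.choose (2 * k)) := by
  have h := Nat.choose_mul (n := N + k) (k := 3 * k) (s := k) (by omega)
  rw [show N + k - k = N by omega, show 3 * k - k = 2 * k by omega] at h
  unfold sg
  rw [← h]
  ring

omit hp in
lemma split_C (N k : ℕ) : sg k * (N + 2 * k).choose (3 * k)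
    = ((2 * k).choose k) ^ 2 * ((N + 2 * k).choose (2 * k) * N.choose k) := by
  have h := Nat.choose_mul (n := N + 2 * k) (k := 3 * k) (s := 2 * k) (by omega)
  rw [show N + 2 * k - 2 * k = N by omega, show 3 * k - 2 * k = k by omega] at h
  have h2 : (3 * k).choose (2 * k) = (3 * k).choose k := by
    rw [← Nat.choose_symm (by omega : k ≤ 3 * k)]
    congr 1
    omega
  rw [h2] at h
  unfold sg
  rw [← h]
  ring

omit hp in
lemma split_A (N k : ℕ) : gg k * (N + k).choose (2 * k)
    = franel k * ((N + k).choose k * N.choose k) := by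
  have h := Nat.choose_mul (n := N + k) (k := 2 * k) (s := k) (by omega)
  rw [show N + k - k = N by omega, show 2 * k - k = k by omega] at h
  unfold gg
  rw [← h]
  ring

include hp in
/-- `n C(pj, n) = pj C(pj-1, n-1)` evaluated: for `n = p c + d`, `0 < d < p`. -/
lemma n_choose (j c d : ℕ) (hd0 : 0 < d) (hd : d < p) :
    ((p * c + d : ℕ) : ZMod (p ^ 2)) * ((p * j).choose (p * c + d) : ZMod (p ^ 2))
      = (p : ZMod (p ^ 2)) * (((j : ZMod (p ^ 2)) - c) * (j.choose c : ZMod (p ^ 2)) * (-1) ^ (d - 1)) := by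
  rcases j with _ | j
  · rw [mul_zero, Nat.choose_eq_zero_of_lt (by omega)]
    rcases c with _ | c
    · simp
    · rw [Nat.choose_eq_zero_of_lt (Nat.succ_pos c)]
      simp
  · have h1 := Nat.add_one_mul_choose_eq (p * (j + 1) - 1) (p * c + d - 1)
    have hpos := hp.out.pos
    have hj : 0 < p * (j + 1) := Nat.mul_pos hpos (Nat.succ_pos j)
    rw [show p * (j + 1) - 1 + 1 = p * (j + 1) by omega,
      show p * c + d - 1 + 1 = p * c + d by omega] at h1
    have h2 : ((p * (j + 1) : ℕ) : ZMod (p ^ 2)) * ((p * (j + 1) - 1).choose (p * c + d - 1) : ZMod (p ^ 2))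
        = ((p * (j + 1)).choose (p * c + d) : ZMod (p ^ 2)) * ((p * c + d : ℕ) : ZMod (p ^ 2)) := by
      rw [← Nat.cast_mul, h1, Nat.cast_mul]
    have h3 : p * (j + 1) - 1 = p * j + (p - 1) := by
      rw [Nat.mul_succ]
      omega
    have h4 : p * c + d - 1 = p * c + (d - 1) := by omega
    rw [h3, h4] at h2
    have h5 := lucas2 p j (p - 1) c (d - 1) (by omega) (by omega)
    have h6 := choose_pred p (d - 1) (by omega)
    have h7 : ((j + 1 : ℕ) : ZMod (p ^ 2)) * (j.choose c : ZMod (p ^ 2))
        = (((j + 1 : ℕ) : ZMod (p ^ 2)) - c) * ((j + 1).choose c : ZMod (p ^ 2)) := by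
      rcases le_or_gt c (j + 1) with h | h
      · have h8 := Nat.choose_mul_succ_eq j c
        rw [← Nat.cast_sub h, ← Nat.cast_mul, ← Nat.cast_mul]
        congr 1
        rw [mul_comm (j + 1), mul_comm (j + 1 - c)]
        exact h8
      · rw [Nat.choose_eq_zero_of_lt h, Nat.choose_eq_zero_of_lt (by omega : j < c)]
        simp
    rw [mul_comm, ← h2]
    push_cast at h7 ⊢
    linear_combination ((j : ZMod (p ^ 2)) + 1) * h5
      + ((j : ZMod (p ^ 2)) + 1) * (j.choose c : ZMod (p ^ 2)) * h6
      + (p : ZMod (p ^ 2)) * (-1) ^ (d - 1) * h7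

end

end Pool.Agent.MP8cc25e
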