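import Pool.Agent.Lib.MP_8cc25e_nt.PSq3

/-!
Values of the truncated transforms at multiples of `p`, modulo `p^2`.
-/

namespace Pool.Agent.MP8cc25e

open Finset

section

variable (p : ℕ) [hp : Fact p.Prime]

include hp in
lemma termB_zero (j r : ℕ) :
    ((sg (p * r) : ℕ) : ZMod (p ^ 2)) * ((p * j + p * r).choose (3 * (p * r)) : ZMod (p ^ 2))
      = (sg r : ZMod (p ^ 2)) * ((j + r).choose (3 * r) : ZMod (p ^ 2)) := by
  rw [← Nat.cast_mul, split_B, ← Nat.cast_mul, split_B]
  push_cast
  rw [show 2 * (p * r) = p * (2 * r) by ring, show p * j + p * r = p * (j + r) by ring, babbage,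
    babbage, babbage]

include hp in
lemma termB_pos (h2 : 2 < p) (j r i : ℕ) (h0 : 0 < i) (hi : i < p) :
    ((sg (p * r + i) : ℕ) : ZMod (p ^ 2))
        * ((p * j + (p * r + i)).choose (3 * (p * r + i)) : ZMod (p ^ 2))
      = (sg r : ZMod (p ^ 2)) * ((j + r).choose (3 * r) : ZMod (p ^ 2))
        * ((p : ZMod (p ^ 2)) * (((j : ZMod (p ^ 2)) - 2 * r) * kap p i)) := by
  have hs := split_B j r
  have hs' : (sg r : ZMod (p ^ 2)) * ((j + r).choose (3 * r) : ZMod (p ^ 2))
      = ((2 * r).choose r : ZMod (p ^ 2)) ^ 2 * (((j + r).choose r : ZMod (p ^ 2))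
        * (j.choose (2 * r) : ZMod (p ^ 2))) := by
    exact_mod_cast congrArg (fun x : ℕ => (x : ZMod (p ^ 2))) hs
  rw [← Nat.cast_mul, split_B, hs']
  push_cast
  unfold kap
  split_ifs with h
  · have n1 := n_choose p j (2 * r) (2 * i) (by omega) h
    have l1 := lucas2 p (2 * r) (2 * i) r i h hi
    have l2 := lucas2 p (j + r) i r i hi hi
    rw [show p * (2 * r) + 2 * i = 2 * (p * r + i) by ring] at n1 l1
    rw [show p * (j + r) + i = p * j + (p * r + i) by ring, Nat.choose_self] at l2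
    have hsign : ((-1 : ZMod (p ^ 2))) ^ (2 * i - 1) = -1 := Odd.neg_one_pow ⟨i - 1, by omega⟩
    rw [hsign] at n1
    push_cast at n1
    have hu2k : IsUnit ((2 * (p * r + i) : ℕ) : ZMod (p ^ 2)) := by
      apply natCast_unit
      intro hd
      rcases hp.out.dvd_mul.mp hd with h' | h'
      · exact absurd (Nat.le_of_dvd (by norm_num) h') (by omega)
      · have : p ∣ i := (Nat.dvd_add_right (Dvd.intro _ rfl)).mp h'
        exact absurd (Nat.le_of_dvd h0 this) (by omega)
    have hu2i : IsUnit ((2 * i : ℕ) : ZMod (p ^ 2)) := natCast_unit_lt p (by omega) h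
    have hinv : ((2 * i : ℕ) : ZMod (p ^ 2)) * ((2 * i : ℕ) : ZMod (p ^ 2))⁻¹ = 1 :=
      ZMod.mul_inv_of_unit _ hu2i
    set A := ((2 * (p * r + i)).choose (p * r + i) : ZMod (p ^ 2)) with hA
    set B := ((p * j + (p * r + i)).choose (p * r + i) : ZMod (p ^ 2)) with hB
    set D := ((p * j).choose (2 * (p * r + i)) : ZMod (p ^ 2)) with hD
    set a := ((2 * r).choose r : ZMod (p ^ 2)) with ha
    set a' := ((2 * i).choose i : ZMod (p ^ 2)) with ha'
    set b := ((j + r).choose r : ZMod (p ^ 2)) with hb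
    set d := (j.choose (2 * r) : ZMod (p ^ 2)) with hd
    set P := (p : ZMod (p ^ 2)) with hP
    have pz : P * P = 0 := pp_zero p
    push_cast at l2
    -- main relation
    have m1 : (2 * (P * r + i)) * (A ^ 2 * (B * D))
        = -(P * (((j : ZMod (p ^ 2)) - 2 * r) * d * (a ^ 2 * a' ^ 2 * b))) := by
      linear_combination A ^ 2 * B * n1 - A * B * ((j : ZMod (p ^ 2)) - 2 * r) * d * l1
        - a * a' * B * ((j : ZMod (p ^ 2)) - 2 * r) * d * l1
        - (a * a') ^ 2 * ((j : ZMod (p ^ 2)) - 2 * r) * d * l2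
    -- `P` kills the term
    have m2 : P * (A ^ 2 * (B * D)) = 0 := by
      have hu : IsUnit (2 * (P * r + i)) := by
        have := hu2k
        push_cast at this
        exact this
      apply hu.mul_left_cancel
      rw [mul_zero]
      linear_combination P * m1 - (((j : ZMod (p ^ 2)) - 2 * r) * d * (a ^ 2 * a' ^ 2 * b)) * pz
    apply hu2i.mul_left_cancel
    push_cast at hinv ⊢
    linear_combination m1 - 2 * r * m2
      - (P * (((j : ZMod (p ^ 2)) - 2 * r) * d * (a ^ 2 * a' ^ 2 * b))) * (-hinv)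
  · have hodd : 2 * i ≠ p := by
      intro h'
      have h3 := (Nat.Prime.eq_two_or_odd hp.out)
      omega
    have hd : p ∣ (2 * (p * r + i)).choose (p * r + i) := by
      have h3 := dvd_choose_of_gt p (2 * r + 1) (2 * i - p) r i (by omega) hi (by omega)
      have h4 : p * (2 * r + 1) + (2 * i - p) = 2 * (p * r + i) := by
        have : p * (2 * r + 1) = 2 * (p * r) + p := by ring
        omega
      rwa [h4] at h3
    have hz := dvd_mul_zero p hd hd
    linear_combination (((p * j + (p * r + i)).choose (p * r + i) : ZMod (p ^ 2))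
      * ((p * j).choose (2 * (p * r + i)) : ZMod (p ^ 2))) * hz

/-- Inverse of 16 modulo `p^2`. -/
def rho : ZMod (p ^ 2) := (16 : ZMod (p ^ 2))⁻¹

include hp in
lemma two_unit (h2 : 2 < p) : IsUnit (2 : ZMod (p ^ 2)) := by
  have := natCast_unit_lt p (n := 2) (by norm_num) h2
  exact_mod_cast this

include hp in
lemma rho_mul (h2 : 2 < p) : (16 : ZMod (p ^ 2)) * rho p = 1 := by
  have h : IsUnit (16 : ZMod (p ^ 2)) := by
    rw [show (16 : ZMod (p ^ 2)) = 2 ^ 4 by norm_num]
    exact (two_unit p h2).pow 4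
  exact ZMod.mul_inv_of_unit _ h

/-- The correction sum. -/
def eta : ZMod (p ^ 2) := ∑ i ∈ range p, if i = 0 then 0 else kap p i * rho p ^ i

/-- The value at `p`. -/
def beta : ZMod (p ^ 2) := (-4) ^ p * (1 + p * eta p)

omit hp in
lemma one_add_pow_nil (x : ZMod (p ^ 2)) (m : ℕ) :
    (1 + (p : ZMod (p ^ 2)) * x) ^ m = 1 + (p : ZMod (p ^ 2)) * ((m : ZMod (p ^ 2)) * x) := by
  induction m with
  | zero => simp
  | succ m ih =>
    rw [pow_succ (1 + (p : ZMod (p ^ 2)) * x) m, ih]
    push_cast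
    linear_combination ((m : ZMod (p ^ 2)) * x * x) * pp_zero p

/-- Block `r` of the transform B. -/
def blkB (r N : ℕ) : ℤ := bB (p * (r + 1)) N - bB (p * r) N

omit hp in
lemma blkB_eq (r N : ℕ) : blkB p r N
    = ∑ i ∈ range p, (sg (p * r + i) : ℤ) * ((N + (p * r + i)).choose (3 * (p * r + i)))
      * (-4) ^ (N - 2 * (p * r + i)) := by
  unfold blkB bB
  rw [Nat.mul_succ, sum_range_add]
  ring

include hp in
theorem valB (h2 : 2 < p) (r m : ℕ) :
    ((blkB p r (p * (2 * r + m)) : ℤ) : ZMod (p ^ 2))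
      = (sg r : ZMod (p ^ 2)) * ((2 * r + m + r).choose (3 * r) : ZMod (p ^ 2)) * beta p ^ m := by
  rw [blkB_eq]
  push_cast
  have hterm : ∀ i ∈ range p, (sg (p * r + i) : ZMod (p ^ 2))
      * ((p * (2 * r + m) + (p * r + i)).choose (3 * (p * r + i)) : ZMod (p ^ 2))
      * (-4) ^ (p * (2 * r + m) - 2 * (p * r + i))
      = (sg r : ZMod (p ^ 2)) * ((2 * r + m + r).choose (3 * r) : ZMod (p ^ 2)) * (-4) ^ (p * m)
        * (if i = 0 then 1 else (p : ZMod (p ^ 2)) * ((m : ZMod (p ^ 2)) * (kap p i * rho p ^ i))) := by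
    intro i hi
    rw [mem_range] at hi
    have hexp : p * (2 * r + m) = 2 * (p * r) + p * m := by ring
    split_ifs with h0
    · subst h0
      rw [add_zero, termB_zero p (2 * r + m) r, hexp, Nat.add_sub_cancel_left, mul_one]
    · rw [termB_pos p h2 (2 * r + m) r i (Nat.pos_of_ne_zero h0) hi]
      have hc : (((2 * r + m : ℕ) : ZMod (p ^ 2)) - 2 * r) = m := by push_cast; ring
      rw [hc]
      by_cases hbig : 2 * i ≤ p * m
      · have e1 : ((-4 : ZMod (p ^ 2))) ^ (p * m)
            = (-4) ^ (p * (2 * r + m) - 2 * (p * r + i)) * 16 ^ i := by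
          rw [show (16 : ZMod (p ^ 2)) = (-4) ^ 2 by norm_num, ← pow_mul, ← pow_add]
          congr 1
          rw [hexp]
          omega
        have e2 : (16 : ZMod (p ^ 2)) ^ i * rho p ^ i = 1 := by
          rw [← mul_pow, rho_mul p h2, one_pow]
        rw [e1]
        linear_combination (-(sg r : ZMod (p ^ 2)) * ((2 * r + m + r).choose (3 * r) : ZMod (p ^ 2))
          * (p * m * kap p i) * (-4) ^ (p * (2 * r + m) - 2 * (p * r + i))) * e2
      · rcases Nat.eq_zero_or_pos m with hm | hm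
        · subst hm
          simp
        · have hk : kap p i = 0 := by
            unfold kap
            rw [if_neg]
            have : p * 1 ≤ p * m := Nat.mul_le_mul_left p hm
            omega
          rw [hk]
          ring
  rw [sum_congr rfl hterm, ← mul_sum]
  have hsum : ∑ i ∈ range p, (if i = 0 then (1 : ZMod (p ^ 2))
      else (p : ZMod (p ^ 2)) * ((m : ZMod (p ^ 2)) * (kap p i * rho p ^ i))) = 1 + (p : ZMod (p ^ 2)) * ((m : ZMod (p ^ 2)) * eta p) := by
    unfold eta
    obtain ⟨q, hq⟩ : ∃ q, p = q + 1 := ⟨p - 1, by omega⟩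
    have : ∀ f g : ℕ → ZMod (p ^ 2), g 0 = 0 → (∀ i, i ≠ 0 → f i = (p : ZMod (p ^ 2)) * ((m : ZMod (p ^ 2)) * g i)) → f 0 = 1 →
        ∑ i ∈ range p, f i = 1 + (p : ZMod (p ^ 2)) * ((m : ZMod (p ^ 2)) * ∑ i ∈ range p, g i) := by
      intro f g hg hf hf0
      rw [show range p = range (q + 1) by rw [← hq], sum_range_succ', sum_range_succ' g, hf0, hg,
        add_zero, mul_sum, mul_sum, add_comm]
      congr 1
      apply sum_congr rfl
      intro i _
      rw [hf (i + 1) (Nat.succ_ne_zero i)]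
    apply this
    · simp
    · intro i hi
      simp [hi]
    · simp
  rw [hsum, beta, mul_pow, ← pow_mul, one_add_pow_nil]
  ring

include hp in
lemma blkB_small (h2 : 2 < p) (r j : ℕ) (h : j < 2 * r) :
    ((blkB p r (p * j) : ℤ) : ZMod (p ^ 2)) = 0 := by
  rw [blkB_eq]
  push_cast
  apply sum_eq_zero
  intro i hi
  rw [mem_range] at hi
  have hc : (j + r).choose (3 * r) = 0 := Nat.choose_eq_zero_of_lt (by omega)
  rcases Nat.eq_zero_or_pos i with h0 | h0
  · subst h0
    rw [add_zero, termB_zero p j r, hc]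
    simp
  · rw [termB_pos p h2 j r i h0 hi, hc]
    simp

end

end Pool.Agent.MP8cc25e
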