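import Pool.Agent.Lib.MP_8cc25e_nt.PSq4

/-!
Values of the transforms C and A at multiples of `p`, and the three constants `-4, -16, -8`.
-/

namespace Pool.Agent.MP8cc25e

open Finset

section

variable (p : ℕ) [hp : Fact p.Prime]

include hp in
lemma termC_pos (h2 : 2 < p) (j i : ℕ) (h0 : 0 < i) (hi : i < p) :
    ((sg i : ℕ) : ZMod (p ^ 2)) * ((p * j + 2 * i).choose (3 * i) : ZMod (p ^ 2))
      = (p : ZMod (p ^ 2)) * ((j : ZMod (p ^ 2)) * ((-1) ^ i * (2 * kap p i))) := by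
  rw [← Nat.cast_mul, split_C]
  push_cast
  unfold kap
  split_ifs with h
  · have n1 := n_choose p j 0 i h0 hi
    have l2 := lucas2 p j (2 * i) 0 (2 * i) h h
    rw [mul_zero, zero_add] at n1 l2
    rw [Nat.choose_self] at l2
    have hsign : ((-1 : ZMod (p ^ 2))) ^ (i - 1) = -(-1) ^ i := by
      obtain ⟨q, hq⟩ : ∃ q, i = q + 1 := ⟨i - 1, by omega⟩
      rw [hq, Nat.add_sub_cancel, pow_succ (-1 : ZMod (p ^ 2)) q]
      ring
    rw [hsign] at n1
    simp only [Nat.choose_zero_right, Nat.cast_one, Nat.cast_zero, sub_zero, mul_one] at n1 l2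
    have hui : IsUnit ((i : ℕ) : ZMod (p ^ 2)) := natCast_unit_lt p h0 hi
    have hu2i : IsUnit ((2 * i : ℕ) : ZMod (p ^ 2)) := natCast_unit_lt p (by omega) h
    have hinv : ((2 * i : ℕ) : ZMod (p ^ 2)) * ((2 * i : ℕ) : ZMod (p ^ 2))⁻¹ = 1 :=
      ZMod.mul_inv_of_unit _ hu2i
    apply hu2i.mul_left_cancel
    push_cast at hinv ⊢
    set A := ((2 * i).choose i : ZMod (p ^ 2)) with hA
    set B := ((p * j + 2 * i).choose (2 * i) : ZMod (p ^ 2)) with hB
    set D := ((p * j).choose i : ZMod (p ^ 2)) with hD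
    linear_combination 2 * A ^ 2 * B * n1 - 2 * A ^ 2 * (j : ZMod (p ^ 2)) * (-1) ^ i * l2
      + (2 * (p : ZMod (p ^ 2)) * (j : ZMod (p ^ 2)) * (-1) ^ i * A ^ 2) * hinv
  · have hodd : 2 * i ≠ p := by
      intro h'
      have h3 := (Nat.Prime.eq_two_or_odd hp.out)
      omega
    have hd : p ∣ (2 * i).choose i := by
      have h3 := dvd_choose_of_gt p 1 (2 * i - p) 0 i (by omega) hi (by omega)
      have h4 : p * 1 + (2 * i - p) = 2 * i := by omega
      rwa [h4, mul_zero, zero_add] at h3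
    have hz := dvd_mul_zero p hd hd
    linear_combination (((p * j + 2 * i).choose (2 * i) : ZMod (p ^ 2))
      * ((p * j).choose i : ZMod (p ^ 2))) * hz

/-- Correction coefficients for A. -/
def nu (i : ℕ) : ZMod (p ^ 2) := (franel i : ZMod (p ^ 2)) * (-1) ^ (i - 1) * ((i : ℕ) : ZMod (p ^ 2))⁻¹

include hp in
lemma termA_pos (j i : ℕ) (h0 : 0 < i) (hi : i < p) :
    ((gg i : ℕ) : ZMod (p ^ 2)) * ((p * j + i).choose (2 * i) : ZMod (p ^ 2))
      = (p : ZMod (p ^ 2)) * ((j : ZMod (p ^ 2)) * nu p i) := by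
  rw [← Nat.cast_mul, split_A]
  push_cast
  unfold nu
  have n1 := n_choose p j 0 i h0 hi
  have l2 := lucas2 p j i 0 i hi hi
  rw [mul_zero, zero_add] at n1 l2
  rw [Nat.choose_self] at l2
  simp only [Nat.choose_zero_right, Nat.cast_one, Nat.cast_zero, sub_zero, mul_one] at n1 l2
  have hui : IsUnit ((i : ℕ) : ZMod (p ^ 2)) := natCast_unit_lt p h0 hi
  have hinv : ((i : ℕ) : ZMod (p ^ 2)) * ((i : ℕ) : ZMod (p ^ 2))⁻¹ = 1 :=
    ZMod.mul_inv_of_unit _ hui
  apply hui.mul_left_cancel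
  set B := ((p * j + i).choose i : ZMod (p ^ 2)) with hB
  set D := ((p * j).choose i : ZMod (p ^ 2)) with hD
  linear_combination (franel i : ZMod (p ^ 2)) * B * n1
    + (franel i : ZMod (p ^ 2)) * (j : ZMod (p ^ 2)) * (-1) ^ (i - 1) * l2
    - ((p : ZMod (p ^ 2)) * (j : ZMod (p ^ 2)) * (franel i : ZMod (p ^ 2)) * (-1) ^ (i - 1)) * hinv

omit hp in
lemma sum_split (h2 : 2 < p) (m : ℕ) (f g : ℕ → ZMod (p ^ 2)) (c : ZMod (p ^ 2)) (hg : g 0 = 0)
    (hf : ∀ i, i ∈ range p → i ≠ 0 → f i = (p : ZMod (p ^ 2)) * ((m : ZMod (p ^ 2)) * (c * g i)))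
    (hf0 : f 0 = 1) :
    ∑ i ∈ range p, f i = 1 + (p : ZMod (p ^ 2)) * ((m : ZMod (p ^ 2)) * (c * ∑ i ∈ range p, g i)) := by
  obtain ⟨q, hq⟩ : ∃ q, p = q + 1 := ⟨p - 1, by omega⟩
  have hr : range p = range (q + 1) := by rw [← hq]
  rw [hr, sum_range_succ', sum_range_succ' g, hf0, hg, add_zero, mul_sum, mul_sum, mul_sum,
    add_comm]
  congr 1
  apply sum_congr rfl
  intro i hi
  rw [mem_range] at hi
  rw [hf (i + 1) (by rw [mem_range]; omega) (Nat.succ_ne_zero i)]

include hp in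
theorem valC (h2 : 2 < p) (j : ℕ) :
    ((bC p (p * j) : ℤ) : ZMod (p ^ 2)) = (-(beta p) ^ 2) ^ j := by
  have hodd : Odd p := hp.out.odd_of_ne_two (by omega)
  unfold bC
  push_cast
  have hterm : ∀ i ∈ range p, (sg i : ZMod (p ^ 2))
      * ((p * j + 2 * i).choose (3 * i) : ZMod (p ^ 2)) * (-16) ^ (p * j - 1 * i)
      = (-16) ^ (p * j) * (if i = 0 then 1 else
        (p : ZMod (p ^ 2)) * ((j : ZMod (p ^ 2)) * (2 * (kap p i * rho p ^ i)))) := by
    intro i hi
    rw [mem_range] at hi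
    split_ifs with h0
    · subst h0
      have s0 : sg 0 = 1 := by decide
      simp [s0]
    · rw [termC_pos p h2 j i (Nat.pos_of_ne_zero h0) hi]
      rcases Nat.eq_zero_or_pos j with hj | hj
      · subst hj
        simp
      · have hle : i ≤ p * j := by
          have : p * 1 ≤ p * j := Nat.mul_le_mul_left p hj
          omega
        have e1 : ((-16 : ZMod (p ^ 2))) ^ (p * j)
            = (-16) ^ (p * j - 1 * i) * ((-1) ^ i * 16 ^ i) := by
          rw [← mul_pow (-1 : ZMod (p ^ 2)) 16 i, show (-1 : ZMod (p ^ 2)) * 16 = -16 by norm_num,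
            ← pow_add (-16 : ZMod (p ^ 2))]
          congr 1
          omega
        have e2 : (16 : ZMod (p ^ 2)) ^ i * rho p ^ i = 1 := by
          rw [← mul_pow, rho_mul p h2, one_pow]
        rw [e1]
        linear_combination (-(p : ZMod (p ^ 2)) * j * 2 * kap p i * (-1) ^ i
          * (-16) ^ (p * j - 1 * i)) * e2
  rw [sum_congr rfl hterm, ← mul_sum]
  rw [sum_split p h2 j _ (fun i => if i = 0 then 0 else kap p i * rho p ^ i) 2 (by simp)
    (by intro i _ hi; simp [hi]) (by simp)]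
  have hb : (-(beta p) ^ 2) = (-16) ^ p * (1 + (p : ZMod (p ^ 2)) * (2 * eta p)) := by
    unfold beta
    have e3 : ((-16 : ZMod (p ^ 2))) ^ p = -((-4) ^ p) ^ 2 := by
      rw [← pow_mul, mul_comm p 2, pow_mul (-4 : ZMod (p ^ 2)) 2 p, ← Odd.neg_pow hodd]
      norm_num
    rw [e3]
    linear_combination (-((-4 : ZMod (p ^ 2)) ^ p) ^ 2 * eta p ^ 2) * pp_zero p
  rw [hb, mul_pow, ← pow_mul, one_add_pow_nil]
  rfl

/-- The correction sum for A. -/
def etaA : ZMod (p ^ 2) := ∑ i ∈ range p, if i = 0 then 0 else nu p i * ((-8 : ZMod (p ^ 2))⁻¹) ^ i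

/-- The value at `p` for A. -/
def alph : ZMod (p ^ 2) := (-8) ^ p * (1 + p * etaA p)

include hp in
theorem valA (h2 : 2 < p) (j : ℕ) :
    ((bA p (p * j) : ℤ) : ZMod (p ^ 2)) = alph p ^ j := by
  have h8 : (-8 : ZMod (p ^ 2)) * (-8 : ZMod (p ^ 2))⁻¹ = 1 := by
    apply ZMod.mul_inv_of_unit
    rw [show (-8 : ZMod (p ^ 2)) = -(2 ^ 3) by norm_num]
    exact ((two_unit p h2).pow 3).neg
  unfold bA
  push_cast
  have hterm : ∀ i ∈ range p, (gg i : ZMod (p ^ 2))
      * ((p * j + i).choose (2 * i) : ZMod (p ^ 2)) * (-8) ^ (p * j - 1 * i)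
      = (-8) ^ (p * j) * (if i = 0 then 1 else
        (p : ZMod (p ^ 2)) * ((j : ZMod (p ^ 2)) * (1 * (nu p i * ((-8 : ZMod (p ^ 2))⁻¹) ^ i)))) := by
    intro i hi
    rw [mem_range] at hi
    split_ifs with h0
    · subst h0
      have s0 : gg 0 = 1 := by decide
      simp [s0]
    · rw [termA_pos p j i (Nat.pos_of_ne_zero h0) hi]
      rcases Nat.eq_zero_or_pos j with hj | hj
      · subst hj
        simp
      · have hle : i ≤ p * j := by
          have : p * 1 ≤ p * j := Nat.mul_le_mul_left p hj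
          omega
        have e1 : ((-8 : ZMod (p ^ 2))) ^ (p * j) = (-8) ^ (p * j - 1 * i) * (-8) ^ i := by
          rw [← pow_add (-8 : ZMod (p ^ 2))]
          congr 1
          omega
        have e2 : (-8 : ZMod (p ^ 2)) ^ i * ((-8 : ZMod (p ^ 2))⁻¹) ^ i = 1 := by
          rw [← mul_pow, h8, one_pow]
        rw [e1]
        linear_combination (-(p : ZMod (p ^ 2)) * j * nu p i * (-8) ^ (p * j - 1 * i)) * e2
  rw [sum_congr rfl hterm, ← mul_sum]
  rw [sum_split p h2 j _ (fun i => if i = 0 then 0 else nu p i * ((-8 : ZMod (p ^ 2))⁻¹) ^ i) 1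
    (by simp) (by intro i _ hi; simp [hi]) (by simp)]
  unfold alph
  rw [mul_pow, ← pow_mul, one_add_pow_nil]
  unfold etaA
  rw [one_mul]

include hp in
lemma franel_p : ((franel p : ℕ) : ZMod (p ^ 2)) = 2 := by
  unfold franel
  obtain ⟨q, hq⟩ : ∃ q, p = q + 1 := ⟨p - 1, by have := hp.out.pos; omega⟩
  push_cast
  rw [sum_range_succ]
  have hr : range p = range (q + 1) := by rw [← hq]
  rw [hr, sum_range_succ']
  have hz : ∑ k ∈ range q, ((p.choose (k + 1) : ZMod (p ^ 2))) ^ 3 = 0 := by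
    apply sum_eq_zero
    intro k hk
    rw [mem_range] at hk
    have hd : p ∣ p.choose (k + 1) := hp.out.dvd_choose_self (by omega) (by omega)
    have := dvd_mul_zero p hd hd
    linear_combination (p.choose (k + 1) : ZMod (p ^ 2)) * this
  rw [hz]
  simp
  norm_num

include hp in
lemma sg_p : ((sg p : ℕ) : ZMod (p ^ 2)) = 12 := by
  unfold sg
  push_cast
  have h1 := babbage p 2 1
  have h2 := babbage p 3 1
  rw [mul_one, mul_comm p 2] at h1
  rw [mul_one, mul_comm p 3] at h2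
  rw [h1, h2]
  norm_num

include hp in
lemma gg_p : ((gg p : ℕ) : ZMod (p ^ 2)) = 4 := by
  unfold gg
  push_cast
  have h1 := babbage p 2 1
  rw [mul_one, mul_comm p 2] at h1
  rw [h1, franel_p]
  norm_num

include hp in
lemma iB_p : ((iB p : ℤ) : ZMod (p ^ 2)) = ((bB p p : ℤ) : ZMod (p ^ 2)) := by
  have hpos := hp.out.pos
  unfold iB bB
  rw [sum_range_succ, Nat.choose_eq_zero_of_lt (by omega : p + p < 3 * p)]
  simp

include hp in
lemma iC_p : iC p = bC p p + sg p := by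
  unfold iC bC
  rw [sum_range_succ, show p + 2 * p = 3 * p by ring, Nat.choose_self]
  simp

include hp in
lemma iA_p : iA p = bA p p + gg p := by
  unfold iA bA
  rw [sum_range_succ, show p + p = 2 * p by ring, Nat.choose_self]
  simp

include hp in
lemma blkB0 (N : ℕ) : blkB p 0 N = bB p N := by
  unfold blkB bB
  simp

include hp in
/-- The three constants. -/
theorem constants (h7 : 7 < p) : beta p = -4 ∧ alph p = -8 := by
  have h2 : 2 < p := by omega
  have hB := valB p h2 0 1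
  rw [mul_zero, zero_add, mul_one, blkB0] at hB
  have s0 : sg 0 = 1 := by decide
  rw [s0, Nat.choose_zero_right] at hB
  have hC := valC p h2 1
  have hA := valA p h2 1
  rw [mul_one] at hC hA
  simp only [Nat.cast_one, one_mul, pow_one] at hB hC hA
  have eC : ((iC p : ℤ) : ZMod (p ^ 2)) = ((bC p p : ℤ) : ZMod (p ^ 2)) + 12 := by
    rw [iC_p]
    push_cast
    rw [sg_p]
  have eA : ((iA p : ℤ) : ZMod (p ^ 2)) = ((bA p p : ℤ) : ZMod (p ^ 2)) + 4 := by
    rw [iA_p]
    push_cast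
    rw [gg_p]
  rw [iC_eq_iB, iB_p, hB, hC] at eC
  rw [iA_eq_iB, iB_p, hB, hA] at eA
  -- `beta + 4` is a multiple of `p`
  have hx : ∃ x : ZMod (p ^ 2), beta p + 4 = (p : ZMod (p ^ 2)) * x := by
    have hF : (p : ℤ) ∣ (-4) ^ p + 4 := by
      rw [← ZMod.intCast_zmod_eq_zero_iff_dvd]
      push_cast
      rw [ZMod.pow_card]
      ring
    obtain ⟨y, hy⟩ := hF
    have hy' : ((-4 : ZMod (p ^ 2))) ^ p + 4 = (p : ZMod (p ^ 2)) * (y : ZMod (p ^ 2)) := by
      have := congrArg (fun t : ℤ => (t : ZMod (p ^ 2))) hy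
      push_cast at this
      exact this
    refine ⟨(y : ZMod (p ^ 2)) + (-4) ^ p * eta p, ?_⟩
    unfold beta
    linear_combination hy'
  obtain ⟨x, hx⟩ := hx
  have h7u : IsUnit (7 : ZMod (p ^ 2)) := by
    have := natCast_unit_lt p (n := 7) (by norm_num) h7
    exact_mod_cast this
  have hq : (beta p + 4) * (beta p - 3) = 0 := by linear_combination eC
  have h7x : (7 : ZMod (p ^ 2)) * ((p : ZMod (p ^ 2)) * x) = 7 * 0 := by
    have hb : beta p = (p : ZMod (p ^ 2)) * x - 4 := by linear_combination hx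
    rw [hb] at hq
    linear_combination -hq + x ^ 2 * pp_zero p
  have hpx := h7u.mul_left_cancel h7x
  have hb : beta p = -4 := by linear_combination hx + hpx
  refine ⟨hb, ?_⟩
  rw [hb] at eA
  linear_combination -eA

end

end Pool.Agent.MP8cc25e
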