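import Pool.Agent.Lib.MP_8cc25e_nt.PSq5

/-!
Generating functions: from the block structure to polynomial identities modulo `p^2`.
-/

namespace Pool.Agent.MP8cc25e

open Finset

section gen

variable {R : Type*} [CommRing R]

open PowerSeries in
/-- Generating function of one column of binomial coefficients. -/
lemma gen1 (a b k : ℕ) (hab : a ≤ b) (c : R) :
    (PowerSeries.mk fun N => ((N + (b - a) * k).choose (b * k) : R) * (-c) ^ (N - a * k))
      * (1 + C c * X) ^ (b * k + 1) = (X : R⟦X⟧) ^ (a * k) := by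
  have h1 : (PowerSeries.mk fun N => ((N + (b - a) * k).choose (b * k) : R) * (-c) ^ (N - a * k))
      = X ^ (a * k) * rescale (-c) (PowerSeries.mk fun n => ((b * k + n).choose (b * k) : R)) := by
    ext N
    rw [coeff_mk, coeff_X_pow_mul']
    have hb : (b - a) * k + a * k = b * k := by
      rw [← add_mul, Nat.sub_add_cancel hab]
    split_ifs with h
    · rw [coeff_rescale, coeff_mk, mul_comm, show N + (b - a) * k = b * k + (N - a * k) by omega]
    · rw [Nat.choose_eq_zero_of_lt (by omega)]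
      simp
  have h2 : rescale (-c) ((1 - X : R⟦X⟧)) = 1 + C c * X := by
    ext N
    rw [coeff_rescale]
    rcases N with _ | _ | N
    · simp
    · simp
    · simp [coeff_X, coeff_one]
  rw [h1, mul_assoc, ← h2, ← map_pow, ← map_mul, mk_add_choose_mul_one_sub_pow_eq_one, map_one,
    mul_one]

open PowerSeries in
/-- A sum of columns. -/
lemma gen_sum (a b M : ℕ) (hab : a ≤ b) (c : R) (s : ℕ → R) (I : Finset ℕ)
    (hI : ∀ k ∈ I, k ≤ M) :
    (PowerSeries.mk fun N => ∑ k ∈ I, s k * ((N + (b - a) * k).choose (b * k) : R)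
        * (-c) ^ (N - a * k)) * (1 + C c * X) ^ (b * M + 1)
      = ∑ k ∈ I, C (s k) * X ^ (a * k) * (1 + C c * X) ^ (b * (M - k)) := by
  have h1 : (PowerSeries.mk fun N => ∑ k ∈ I, s k * ((N + (b - a) * k).choose (b * k) : R)
        * (-c) ^ (N - a * k))
      = ∑ k ∈ I, C (s k) * (PowerSeries.mk fun N => ((N + (b - a) * k).choose (b * k) : R)
        * (-c) ^ (N - a * k)) := by
    ext N
    rw [coeff_mk, map_sum]
    apply sum_congr rfl
    intro k _
    rw [coeff_C_mul, coeff_mk]
    ring
  rw [h1, sum_mul]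
  apply sum_congr rfl
  intro k hk
  have hkM := hI k hk
  have e : b * M + 1 = (b * k + 1) + b * (M - k) := by
    have : b * M = b * k + b * (M - k) := by
      rw [← mul_add, Nat.add_sub_cancel' hkM]
    omega
  rw [e, pow_add, ← gen1 a b k hab c]
  ring

end gen

section

variable (p : ℕ) [hp : Fact p.Prime]

open PowerSeries in
/-- Series in `X^p`. -/
noncomputable def DD (α : ℕ → ZMod (p ^ 2)) : (ZMod (p ^ 2))⟦X⟧ :=
  PowerSeries.mk fun N => if p ∣ N then α (N / p) else 0

/-- `(1 + c X^p)` acts as a shift. -/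
def sh {R : Type*} [CommRing R] (c : R) (α : ℕ → R) : ℕ → R
  | 0 => α 0
  | (j + 1) => α (j + 1) + c * α j

open PowerSeries in
include hp in
lemma sh_mul (c : ZMod (p ^ 2)) (α : ℕ → ZMod (p ^ 2)) :
    (1 + C c * X ^ p) * DD p α = DD p (sh c α) := by
  have hpos := hp.out.pos
  ext N
  rw [add_mul, one_mul, mul_assoc, map_add, coeff_C_mul, coeff_X_pow_mul']
  unfold DD
  simp only [coeff_mk]
  by_cases hd : p ∣ N
  · obtain ⟨j, rfl⟩ := hd
    rw [if_pos (Dvd.intro _ rfl), if_pos (Dvd.intro _ rfl), Nat.mul_div_cancel_left _ hpos]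
    rcases j with _ | j
    · rw [if_neg (by omega)]
      simp [sh]
    · rw [if_pos (by rw [Nat.mul_succ]; omega)]
      have e : p * (j + 1) - p = p * j := by rw [Nat.mul_succ]; omega
      rw [e, if_pos (Dvd.intro _ rfl), Nat.mul_div_cancel_left _ hpos]
      rfl
  · rw [if_neg hd, if_neg hd]
    by_cases h : p ≤ N
    · rw [if_pos h, if_neg]
      · simp
      · intro h'
        apply hd
        have := Nat.dvd_add h' (dvd_refl p)
        rwa [Nat.sub_add_cancel h] at this
    · rw [if_neg h]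
      simp

/-- Truncated polynomials. -/
noncomputable def Y0 : Polynomial (ZMod (p ^ 2)) :=
  ∑ i ∈ range p, Polynomial.C (cc p i) * Polynomial.X ^ i

/-- Derivative part. -/
noncomputable def Y1 : Polynomial (ZMod (p ^ 2)) :=
  ∑ i ∈ range p, Polynomial.C (cd p i) * Polynomial.X ^ i

omit hp in
lemma trunc_coeff (f : ℕ → ZMod (p ^ 2)) (n : ℕ) :
    (∑ i ∈ range p, Polynomial.C (f i) * Polynomial.X ^ i).coeff n = if n < p then f n else 0 := by
  rw [Polynomial.finsetSum_coeff]
  simp only [Polynomial.coeff_C_mul_X_pow]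
  rw [sum_ite_eq (range p) n f]
  simp only [mem_range]

open PowerSeries in
include hp in
lemma DD_mul (α f : ℕ → ZMod (p ^ 2)) (j i : ℕ) (hi : i < p) :
    coeff (p * j + i) (DD p α
      * ((∑ i ∈ range p, Polynomial.C (f i) * Polynomial.X ^ i : Polynomial (ZMod (p ^ 2))) :
        (ZMod (p ^ 2))⟦X⟧)) = α j * f i := by
  have hpos := hp.out.pos
  rw [coeff_mul, sum_eq_single (p * j, i)]
  · unfold DD
    simp only [coeff_mk]
    rw [if_pos (Dvd.intro _ rfl), Nat.mul_div_cancel_left _ hpos, Polynomial.coeff_coe,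
      trunc_coeff, if_pos hi]
  · rintro ⟨x, y⟩ hxy hne
    rw [HasAntidiagonal.mem_antidiagonal] at hxy
    simp only at hxy ⊢
    unfold DD
    simp only [coeff_mk]
    rw [Polynomial.coeff_coe, trunc_coeff]
    by_cases hy : y < p
    · rw [if_pos hy, if_neg]
      · ring
      · rintro ⟨t, rfl⟩
        apply hne
        have h1 : (p * t + y) / p = (p * j + i) / p := by rw [hxy]
        rw [Nat.mul_add_div hpos, Nat.mul_add_div hpos, Nat.div_eq_of_lt hy,
          Nat.div_eq_of_lt hi] at h1
        have h2 : t = j := by omega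
        subst h2
        have h3 : y = i := by omega
        rw [h3]
    · rw [if_neg hy]
      ring
  · intro h
    exfalso
    apply h
    rw [HasAntidiagonal.mem_antidiagonal]

open PowerSeries in
include hp in
/-- Block structure as a power series identity. -/
theorem mk_block (a α : ℕ → ZMod (p ^ 2))
    (h : ∀ j i, i < p → a (p * j + i) = α j * (cc p i + ((p * j : ℕ) : ZMod (p ^ 2)) * cd p i)) :
    (PowerSeries.mk a : (ZMod (p ^ 2))⟦X⟧) = DD p α * ((Y0 p : Polynomial (ZMod (p ^ 2))) : (ZMod (p ^ 2))⟦X⟧)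
      + (X * d⁄dX (ZMod (p ^ 2)) (DD p α)) * ((Y1 p : Polynomial (ZMod (p ^ 2))) : (ZMod (p ^ 2))⟦X⟧) := by
  have hpos := hp.out.pos
  have hder : X * d⁄dX (ZMod (p ^ 2)) (DD p α)
      = DD p (fun j => ((p * j : ℕ) : ZMod (p ^ 2)) * α j) := by
    ext N
    unfold DD
    rcases N with _ | N
    · simp
    · rw [coeff_succ_X_mul, coeff_derivative]
      simp only [coeff_mk]
      by_cases hd : p ∣ N + 1
      · rw [if_pos hd, if_pos hd, Nat.mul_div_cancel' hd]
        push_cast
        ring
      · rw [if_neg hd, if_neg hd]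
        ring
  rw [hder]
  ext N
  have hN : N = p * (N / p) + N % p := (Nat.div_add_mod N p).symm
  have hlt : N % p < p := Nat.mod_lt _ hpos
  unfold Y0 Y1
  rw [hN, map_add, coeff_mk, DD_mul p _ _ _ _ hlt, DD_mul p _ _ _ _ hlt, h _ _ hlt]
  ring

end

end Pool.Agent.MP8cc25e
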