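import Pool.Agent.Lib.MP_8cc25e_nt.PSq6

/-!
Evaluation of the polynomial identities modulo `p^2`.
-/

namespace Pool.Agent.MP8cc25e

open Finset

section

variable (p : ℕ) [hp : Fact p.Prime]

omit hp in
lemma eval_cols (a b M : ℕ) (c : ZMod (p ^ 2)) (s : ℕ → ZMod (p ^ 2)) (I : Finset ℕ)
    (hI : ∀ k ∈ I, k ≤ M) (u w : ZMod (p ^ 2)) (huw : u ^ a = w * (1 + c * u) ^ b) :
    (∑ k ∈ I, Polynomial.C (s k) * Polynomial.X ^ (a * k)
      * (1 + Polynomial.C c * Polynomial.X) ^ (b * (M - k)) : Polynomial (ZMod (p ^ 2))).eval u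
      = (1 + c * u) ^ (b * M) * ∑ k ∈ I, s k * w ^ k := by
  rw [Polynomial.eval_finsetSum, mul_sum]
  apply sum_congr rfl
  intro k hk
  have hkM := hI k hk
  simp only [Polynomial.eval_mul, Polynomial.eval_C, Polynomial.eval_pow, Polynomial.eval_X,
    Polynomial.eval_add, Polynomial.eval_one]
  have e : (1 + c * u) ^ (b * M) = ((1 + c * u) ^ b) ^ k * (1 + c * u) ^ (b * (M - k)) := by
    rw [← pow_mul (1 + c * u) b k, ← pow_add]
    congr 1
    rw [← mul_add, Nat.add_sub_cancel' hkM]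
  rw [e, pow_mul u a k, huw, mul_pow]
  ring

open PowerSeries in
omit hp in
lemma coe_cols (a b M : ℕ) (c : ZMod (p ^ 2)) (s : ℕ → ZMod (p ^ 2)) (I : Finset ℕ) :
    ((∑ k ∈ I, Polynomial.C (s k) * Polynomial.X ^ (a * k)
      * (1 + Polynomial.C c * Polynomial.X) ^ (b * (M - k)) : Polynomial (ZMod (p ^ 2))) :
        (ZMod (p ^ 2))⟦X⟧)
      = ∑ k ∈ I, C (s k) * X ^ (a * k) * (1 + C c * X) ^ (b * (M - k)) := by
  rw [← Polynomial.coeToPowerSeries.ringHom_apply, map_sum]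
  apply sum_congr rfl
  intro k _
  simp only [map_mul, map_pow, map_add, map_one, Polynomial.coeToPowerSeries.ringHom_apply,
    Polynomial.coe_C, Polynomial.coe_X]

open PowerSeries in
include hp in
lemma geom_one (γ : ZMod (p ^ 2)) : (1 + C (-γ) * X ^ p) * DD p (fun j => γ ^ j) = 1 := by
  rw [sh_mul]
  have hpos := hp.out.pos
  ext N
  unfold DD
  rw [coeff_mk, coeff_one]
  rcases Nat.eq_zero_or_pos N with h | h
  · subst h
    rw [if_pos (dvd_zero _), if_pos rfl, Nat.zero_div]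
    simp [sh]
  · rw [if_neg (by omega : ¬ N = 0)]
    split_ifs with hd
    · obtain ⟨j, rfl⟩ := hd
      rw [Nat.mul_div_cancel_left _ hpos]
      rcases j with _ | j
      · omega
      · simp only [sh]
        rw [pow_succ γ j]
        ring
    · rfl

open PowerSeries in
include hp in
lemma der_Xp (c : ZMod (p ^ 2)) (n : ℕ) : X * d⁄dX (ZMod (p ^ 2)) (C c * X ^ (p * n))
    = C c * ((p : (ZMod (p ^ 2))⟦X⟧) * (n : (ZMod (p ^ 2))⟦X⟧)) * X ^ (p * n) := by
  rw [Derivation.leibniz, derivative_C, smul_zero, add_zero, derivative_pow, derivative_X, mul_one,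
    smul_eq_mul]
  rcases Nat.eq_zero_or_pos (p * n) with h | h
  · have hn : n = 0 := by
      rcases Nat.mul_eq_zero.mp h with h' | h'
      · exact absurd h' hp.out.ne_zero
      · exact h'
    subst hn
    simp
  · have e : (X : (ZMod (p ^ 2))⟦X⟧) ^ (p * n) = X * X ^ (p * n - 1) := by
      rw [← pow_succ']
      congr 1
      omega
    conv_rhs => rw [e]
    push_cast
    ring

open PowerSeries in
include hp in
theorem geom_block (a : ℕ → ZMod (p ^ 2)) (γ : ZMod (p ^ 2))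
    (h : ∀ j i, i < p → a (p * j + i) = γ ^ j * (cc p i + ((p * j : ℕ) : ZMod (p ^ 2)) * cd p i)) :
    (1 + C (-γ) * X ^ p) ^ 2 * (PowerSeries.mk a : (ZMod (p ^ 2))⟦X⟧)
      = (1 + C (-γ) * X ^ p) * ((Y0 p : Polynomial (ZMod (p ^ 2))) : (ZMod (p ^ 2))⟦X⟧)
        + C γ * (p : (ZMod (p ^ 2))⟦X⟧) * X ^ p
          * ((Y1 p : Polynomial (ZMod (p ^ 2))) : (ZMod (p ^ 2))⟦X⟧) := by
  have hb := mk_block p a (fun j => γ ^ j) h
  have hg := geom_one p γ
  set F := DD p (fun j => γ ^ j) with hF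
  have hd := congrArg (fun f => X * d⁄dX (ZMod (p ^ 2)) f) hg
  simp only [Derivation.leibniz, map_add, derivative_one, smul_eq_mul] at hd
  have hx := der_Xp p (-γ) 1
  rw [mul_one, Nat.cast_one, mul_one, Derivation.leibniz, smul_eq_mul, smul_eq_mul] at hx
  rw [hb]
  rw [map_neg] at *
  linear_combination ((1 + -C γ * X ^ p) * ((Y0 p : Polynomial (ZMod (p ^ 2))) : (ZMod (p ^ 2))⟦X⟧)
      + C γ * (p : (ZMod (p ^ 2))⟦X⟧) * X ^ p
        * ((Y1 p : Polynomial (ZMod (p ^ 2))) : (ZMod (p ^ 2))⟦X⟧)) * hg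
    + (1 + -C γ * X ^ p) * ((Y1 p : Polynomial (ZMod (p ^ 2))) : (ZMod (p ^ 2))⟦X⟧) * hd
    - (1 + -C γ * X ^ p) * F * ((Y1 p : Polynomial (ZMod (p ^ 2))) : (ZMod (p ^ 2))⟦X⟧) * hx

end

end Pool.Agent.MP8cc25e
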