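import Pool.Agent.Lib.MP_8cc25e_nt.PSq7

/-!
The evaluated relations for the four truncated sums.
-/

namespace Pool.Agent.MP8cc25e

open Finset

section

variable (p : ℕ) [hp : Fact p.Prime]

open PowerSeries in
include hp in
/-- Geometric type: columns `a, b, c`, value `(-c)^j` at `p j`. -/
theorem ev_geom (a b : ℕ) (hab : a ≤ b) (c : ZMod (p ^ 2)) (s : ℕ → ZMod (p ^ 2))
    (A : ℕ → ZMod (p ^ 2))
    (hA : ∀ N, A N = ∑ k ∈ range p, s k * ((N + (b - a) * k).choose (b * k) : ZMod (p ^ 2))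
      * (-c) ^ (N - a * k))
    (h : ∀ j i, i < p → A (p * j + i)
      = (-c) ^ j * (cc p i + ((p * j : ℕ) : ZMod (p ^ 2)) * cd p i))
    (u w : ZMod (p ^ 2)) (hu : IsUnit (1 + c * u)) (huw : u ^ a = w * (1 + c * u) ^ b) :
    (1 + c * u ^ p) ^ 2 * ∑ k ∈ range p, s k * w ^ k
      = (1 + c * u) * ((1 + c * u ^ p) * (Y0 p).eval u
        - c * ((p : ZMod (p ^ 2)) * u ^ p * (Y1 p).eval u)) := by
  have hpos := hp.out.pos
  have hg := geom_block p A (-c) h
  have hI : ∀ k ∈ range p, k ≤ p - 1 := by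
    intro k hk
    rw [mem_range] at hk
    omega
  have hs := gen_sum a b (p - 1) hab c s (range p) hI
  have hmk : (PowerSeries.mk A : (ZMod (p ^ 2))⟦X⟧)
      = PowerSeries.mk fun N => ∑ k ∈ range p, s k * ((N + (b - a) * k).choose (b * k) : ZMod (p ^ 2))
        * (-c) ^ (N - a * k) := by
    congr 1
    funext N
    exact hA N
  rw [← hmk, ← coe_cols] at hs
  set SB : Polynomial (ZMod (p ^ 2)) := ∑ k ∈ range p, Polynomial.C (s k) * Polynomial.X ^ (a * k)
      * (1 + Polynomial.C c * Polynomial.X) ^ (b * (p - 1 - k)) with hSB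
  rw [neg_neg] at hg
  have key : (1 + C c * X ^ p) ^ 2 * (SB : (ZMod (p ^ 2))⟦X⟧)
      = (1 + C c * X) ^ (b * (p - 1) + 1) * ((1 + C c * X ^ p)
        * ((Y0 p : Polynomial (ZMod (p ^ 2))) : (ZMod (p ^ 2))⟦X⟧)
        + C (-c) * (p : (ZMod (p ^ 2))⟦X⟧) * X ^ p
          * ((Y1 p : Polynomial (ZMod (p ^ 2))) : (ZMod (p ^ 2))⟦X⟧)) := by
    rw [← hs, ← hg]
    ring
  have poly : (1 + Polynomial.C c * Polynomial.X ^ p) ^ 2 * SB
      = (1 + Polynomial.C c * Polynomial.X) ^ (b * (p - 1) + 1)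
        * ((1 + Polynomial.C c * Polynomial.X ^ p) * Y0 p
        + Polynomial.C (-c) * (p : Polynomial (ZMod (p ^ 2))) * Polynomial.X ^ p * Y1 p) := by
    have hcp : (((p : Polynomial (ZMod (p ^ 2))) : Polynomial (ZMod (p ^ 2)))
        : (ZMod (p ^ 2))⟦X⟧) = (p : (ZMod (p ^ 2))⟦X⟧) :=
      map_natCast (Polynomial.coeToPowerSeries.ringHom (R := ZMod (p ^ 2))) p
    apply Polynomial.coe_injective
    push_cast
    rw [hcp, key]
  have hev := congrArg (Polynomial.eval u) poly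
  simp only [Polynomial.eval_mul, Polynomial.eval_pow, Polynomial.eval_add, Polynomial.eval_one,
    Polynomial.eval_C, Polynomial.eval_X, Polynomial.eval_natCast] at hev
  rw [hSB, eval_cols p a b (p - 1) c s (range p) hI u w huw] at hev
  apply (hu.pow (b * (p - 1))).mul_left_cancel
  rw [pow_succ (1 + c * u) (b * (p - 1))] at hev
  linear_combination hev

lemma defect_cast (a : ℕ → ℤ) (N : ℕ) (h : (p : ℤ) ^ 2 ∣ defect a N) :
    ((N : ZMod (p ^ 2)) + 2) ^ 3 * ((a (N + 2) : ℤ) : ZMod (p ^ 2))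
      + polR (N : ZMod (p ^ 2)) * ((a (N + 1) : ℤ) : ZMod (p ^ 2))
      + 64 * ((N : ZMod (p ^ 2)) + 1) ^ 3 * ((a N : ℤ) : ZMod (p ^ 2)) = 0 := by
  have h1 : ((defect a N : ℤ) : ZMod (p ^ 2)) = 0 := by
    rw [ZMod.intCast_zmod_eq_zero_iff_dvd]
    exact_mod_cast h
  unfold defect at h1
  unfold polR at h1 ⊢
  push_cast at h1 ⊢
  exact h1

include hp in
theorem blockB (h7 : 7 < p) (j i : ℕ) (hi : i < p) :
    ((bB p (p * j + i) : ℤ) : ZMod (p ^ 2))
      = (-4) ^ j * (cc p i + ((p * j : ℕ) : ZMod (p ^ 2)) * cd p i) := by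
  have h2 : 2 < p := by omega
  have h := block p (fun N => ((bB p N : ℤ) : ZMod (p ^ 2)))
    (fun N => defect_cast p (bB p) N (by
      have := defectB_dvd p h2 1 N
      rwa [mul_one] at this)) ?_ j i hi
  · rw [h]
    have hv := valB p h2 0 j
    rw [mul_zero, zero_add, blkB0] at hv
    have s0 : sg 0 = 1 := by decide
    rw [s0, Nat.choose_zero_right, (constants p h7).1] at hv
    simp only [Nat.cast_one, one_mul] at hv
    rw [hv]
  · have e0 : bB p 0 = 1 := by
      unfold bB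
      obtain ⟨q, hq⟩ : ∃ q, p = q + 1 := ⟨p - 1, by omega⟩
      rw [hq, sum_range_succ']
      have : ∑ k ∈ range q, ((sg (k + 1) : ℤ) * ((0 + (k + 1)).choose (3 * (k + 1))) * (-4) ^ (0 - 2 * (k + 1))) = 0 := by
        apply sum_eq_zero
        intro k _
        rw [Nat.choose_eq_zero_of_lt (by omega)]
        simp
      rw [this]
      have s0 : sg 0 = 1 := by decide
      simp [s0]
    have e1 : bB p 1 = -4 := by
      unfold bB
      obtain ⟨q, hq⟩ : ∃ q, p = q + 1 := ⟨p - 1, by omega⟩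
      rw [hq, sum_range_succ']
      have : ∑ k ∈ range q, ((sg (k + 1) : ℤ) * ((1 + (k + 1)).choose (3 * (k + 1))) * (-4) ^ (1 - 2 * (k + 1))) = 0 := by
        apply sum_eq_zero
        intro k _
        rw [Nat.choose_eq_zero_of_lt (by omega)]
        simp
      rw [this]
      have s0 : sg 0 = 1 := by decide
      simp [s0]
    simp only [e0, e1]
    push_cast
    ring

include hp in
theorem blockC (h7 : 7 < p) (j i : ℕ) (hi : i < p) :
    ((bC p (p * j + i) : ℤ) : ZMod (p ^ 2))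
      = (-16) ^ j * (cc p i + ((p * j : ℕ) : ZMod (p ^ 2)) * cd p i) := by
  have h2 : 2 < p := by omega
  have h := block p (fun N => ((bC p N : ℤ) : ZMod (p ^ 2)))
    (fun N => defect_cast p (bC p) N (defectC_dvd p h2 N)) ?_ j i hi
  · rw [h]
    have hv := valC p h2 j
    rw [(constants p h7).1] at hv
    rw [hv]
    norm_num
  · have s0 : sg 0 = 1 := by decide
    have s1 : sg 1 = 12 := by decide
    have e0 : bC p 0 = 1 := by
      unfold bC
      obtain ⟨q, hq⟩ : ∃ q, p = q + 1 := ⟨p - 1, by omega⟩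
      rw [hq, sum_range_succ']
      have : ∑ k ∈ range q, ((sg (k + 1) : ℤ) * ((0 + 2 * (k + 1)).choose (3 * (k + 1))) * (-16) ^ (0 - 1 * (k + 1))) = 0 := by
        apply sum_eq_zero
        intro k _
        rw [Nat.choose_eq_zero_of_lt (by omega)]
        simp
      rw [this]
      simp [s0]
    have e1 : bC p 1 = -4 := by
      unfold bC
      obtain ⟨q, hq⟩ : ∃ q, p = q + 1 + 1 := ⟨p - 2, by omega⟩
      rw [hq, sum_range_succ', sum_range_succ']
      have : ∑ k ∈ range q, ((sg (k + 1 + 1) : ℤ) * ((1 + 2 * (k + 1 + 1)).choose (3 * (k + 1 + 1))) * (-16) ^ (1 - 1 * (k + 1 + 1))) = 0 := by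
        apply sum_eq_zero
        intro k _
        rw [Nat.choose_eq_zero_of_lt (by omega)]
        simp
      rw [this]
      simp [s0, s1]
    simp only [e0, e1]
    push_cast
    ring

include hp in
theorem blockA (h7 : 7 < p) (j i : ℕ) (hi : i < p) :
    ((bA p (p * j + i) : ℤ) : ZMod (p ^ 2))
      = (-8) ^ j * (cc p i + ((p * j : ℕ) : ZMod (p ^ 2)) * cd p i) := by
  have h2 : 2 < p := by omega
  have h := block p (fun N => ((bA p N : ℤ) : ZMod (p ^ 2)))
    (fun N => defect_cast p (bA p) N (defectA_dvd p h2 N)) ?_ j i hi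
  · rw [h]
    have hv := valA p h2 j
    rw [(constants p h7).2] at hv
    rw [hv]
  · have s0 : gg 0 = 1 := by decide
    have s1 : gg 1 = 4 := by decide
    have e0 : bA p 0 = 1 := by
      unfold bA
      obtain ⟨q, hq⟩ : ∃ q, p = q + 1 := ⟨p - 1, by omega⟩
      rw [hq, sum_range_succ']
      have : ∑ k ∈ range q, ((gg (k + 1) : ℤ) * ((0 + (k + 1)).choose (2 * (k + 1))) * (-8) ^ (0 - 1 * (k + 1))) = 0 := by
        apply sum_eq_zero
        intro k _
        rw [Nat.choose_eq_zero_of_lt (by omega)]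
        simp
      rw [this]
      simp [s0]
    have e1 : bA p 1 = -4 := by
      unfold bA
      obtain ⟨q, hq⟩ : ∃ q, p = q + 1 + 1 := ⟨p - 2, by omega⟩
      rw [hq, sum_range_succ', sum_range_succ']
      have : ∑ k ∈ range q, ((gg (k + 1 + 1) : ℤ) * ((1 + (k + 1 + 1)).choose (2 * (k + 1 + 1))) * (-8) ^ (1 - 1 * (k + 1 + 1))) = 0 := by
        apply sum_eq_zero
        intro k _
        rw [Nat.choose_eq_zero_of_lt (by omega)]
        simp
      rw [this]
      simp [s0, s1]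
    simp only [e0, e1]
    push_cast
    ring

/-- Truncated sums modulo `p^2`. -/
def SS (w : ZMod (p ^ 2)) : ZMod (p ^ 2) := ∑ k ∈ range p, (sg k : ZMod (p ^ 2)) * w ^ k

/-- Truncated Franel sum modulo `p^2`. -/
def GG (w : ZMod (p ^ 2)) : ZMod (p ^ 2) := ∑ k ∈ range p, (gg k : ZMod (p ^ 2)) * w ^ k

include hp in
theorem evB (h7 : 7 < p) (u w : ZMod (p ^ 2)) (hu : IsUnit (1 + 4 * u))
    (huw : u ^ 2 = w * (1 + 4 * u) ^ 3) :
    (1 + 4 * u ^ p) ^ 2 * SS p w
      = (1 + 4 * u) * ((1 + 4 * u ^ p) * (Y0 p).eval u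
        - 4 * ((p : ZMod (p ^ 2)) * u ^ p * (Y1 p).eval u)) := by
  refine ev_geom p 2 3 (by norm_num) 4 (fun k => (sg k : ZMod (p ^ 2)))
    (fun N => ((bB p N : ℤ) : ZMod (p ^ 2))) ?_ (fun j i hi => blockB p h7 j i hi) u w hu huw
  intro N
  unfold bB
  push_cast
  simp only [one_mul]

include hp in
theorem evC (h7 : 7 < p) (u w : ZMod (p ^ 2)) (hu : IsUnit (1 + 16 * u))
    (huw : u ^ 1 = w * (1 + 16 * u) ^ 3) :
    (1 + 16 * u ^ p) ^ 2 * SS p w
      = (1 + 16 * u) * ((1 + 16 * u ^ p) * (Y0 p).eval u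
        - 16 * ((p : ZMod (p ^ 2)) * u ^ p * (Y1 p).eval u)) := by
  refine ev_geom p 1 3 (by norm_num) 16 (fun k => (sg k : ZMod (p ^ 2)))
    (fun N => ((bC p N : ℤ) : ZMod (p ^ 2))) ?_ (fun j i hi => blockC p h7 j i hi) u w hu huw
  intro N
  unfold bC
  push_cast
  simp only [one_mul]

include hp in
theorem evA (h7 : 7 < p) (u w : ZMod (p ^ 2)) (hu : IsUnit (1 + 8 * u))
    (huw : u ^ 1 = w * (1 + 8 * u) ^ 2) :
    (1 + 8 * u ^ p) ^ 2 * GG p w
      = (1 + 8 * u) * ((1 + 8 * u ^ p) * (Y0 p).eval u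
        - 8 * ((p : ZMod (p ^ 2)) * u ^ p * (Y1 p).eval u)) := by
  refine ev_geom p 1 2 (by norm_num) 8 (fun k => (gg k : ZMod (p ^ 2)))
    (fun N => ((bA p N : ℤ) : ZMod (p ^ 2))) ?_ (fun j i hi => blockA p h7 j i hi) u w hu huw
  intro N
  unfold bA
  push_cast
  simp only [one_mul]

end

end Pool.Agent.MP8cc25e
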