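import Pool.Agent.Lib.MP_8cc25e_nt.PSq8

/-!
The second block of the transform B.
-/

namespace Pool.Agent.MP8cc25e

open Finset

section

variable (p : ℕ) [hp : Fact p.Prime]

/-- Values of the second block at multiples of `p`, with the binomial order as a parameter. -/
def wv (t : ℕ) : ℕ → ZMod (p ^ 2)
  | 0 => 0
  | 1 => 0
  | (m + 2) => 12 * ((m + t).choose t : ZMod (p ^ 2)) * (-4) ^ m

omit hp in
lemma sh_wv (t : ℕ) : sh 4 (wv p (t + 1)) = wv p t := by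
  funext j
  rcases j with _ | _ | _ | m
  · rfl
  · simp [sh, wv]
  · simp [sh, wv]
  · simp only [sh, wv]
    have h : (m + 1 + (t + 1)).choose (t + 1) = (m + 1 + t).choose t + (m + (t + 1)).choose (t + 1) := by
      rw [show m + 1 + (t + 1) = (m + 1 + t) + 1 by ring, Nat.choose_succ_succ,
        show m + (t + 1) = m + 1 + t by ring]
    rw [h]
    push_cast
    ring

omit hp in
lemma sh_wv_zero : sh 4 (wv p 0) = fun j => if j = 2 then 12 else 0 := by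
  funext j
  rcases j with _ | _ | _ | m
  · rfl
  · simp [sh, wv]
  · simp [sh, wv]
  · simp only [sh, wv]
    rw [if_neg (by omega)]
    simp only [Nat.choose_zero_right, Nat.cast_one]
    ring

open PowerSeries in
include hp in
lemma DD_single : DD p (fun j => if j = 2 then (12 : ZMod (p ^ 2)) else 0)
    = C (12 : ZMod (p ^ 2)) * X ^ (p * 2) := by
  have hpos := hp.out.pos
  ext N
  unfold DD
  rw [coeff_mk, coeff_C_mul, coeff_X_pow]
  by_cases hd : p ∣ N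
  · obtain ⟨j, rfl⟩ := hd
    rw [if_pos (Dvd.intro _ rfl), Nat.mul_div_cancel_left _ hpos]
    by_cases hj : j = 2
    · subst hj
      simp
    · have h' : ¬ p * j = p * 2 := fun h => hj (Nat.eq_of_mul_eq_mul_left hpos h)
      simp only [if_neg hj, if_neg h', mul_zero]
  · rw [if_neg hd, if_neg]
    · simp
    · rintro rfl
      exact hd (Dvd.intro _ rfl)

open PowerSeries in
include hp in
lemma E_four : (1 + C (4 : ZMod (p ^ 2)) * X ^ p) ^ 4 * DD p (wv p 3)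
    = C (12 : ZMod (p ^ 2)) * X ^ (p * 2) := by
  rw [pow_succ' (1 + C (4 : ZMod (p ^ 2)) * X ^ p) 3,
    pow_succ' (1 + C (4 : ZMod (p ^ 2)) * X ^ p) 2,
    pow_two (1 + C (4 : ZMod (p ^ 2)) * X ^ p)]
  rw [show (1 + C (4 : ZMod (p ^ 2)) * X ^ p) * ((1 + C (4 : ZMod (p ^ 2)) * X ^ p)
    * ((1 + C (4 : ZMod (p ^ 2)) * X ^ p) * (1 + C (4 : ZMod (p ^ 2)) * X ^ p))) * DD p (wv p 3)
    = (1 + C (4 : ZMod (p ^ 2)) * X ^ p) * ((1 + C (4 : ZMod (p ^ 2)) * X ^ p)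
    * ((1 + C (4 : ZMod (p ^ 2)) * X ^ p) * ((1 + C (4 : ZMod (p ^ 2)) * X ^ p)
      * DD p (wv p 3)))) by ring]
  rw [sh_mul, sh_wv, sh_mul, sh_wv, sh_mul, sh_wv, sh_mul, sh_wv_zero, DD_single]

open PowerSeries in
include hp in
/-- The second block as a power series identity. -/
theorem second_block (a : ℕ → ZMod (p ^ 2))
    (h : ∀ j i, i < p → a (p * j + i)
      = wv p 3 j * (cc p i + ((p * j : ℕ) : ZMod (p ^ 2)) * cd p i)) :
    (1 + C (4 : ZMod (p ^ 2)) * X ^ p) ^ 5 * (PowerSeries.mk a : (ZMod (p ^ 2))⟦X⟧)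
      = C (12 : ZMod (p ^ 2)) * (X ^ (p * 2) * (1 + C (4 : ZMod (p ^ 2)) * X ^ p)
        * ((Y0 p : Polynomial (ZMod (p ^ 2))) : (ZMod (p ^ 2))⟦X⟧)
        + (p : (ZMod (p ^ 2))⟦X⟧) * (C 2 * X ^ (p * 2) - C 8 * X ^ p * X ^ (p * 2))
          * ((Y1 p : Polynomial (ZMod (p ^ 2))) : (ZMod (p ^ 2))⟦X⟧)) := by
  have hb := mk_block p a (wv p 3) h
  have hg := E_four p
  set F := DD p (wv p 3) with hF
  have hd := congrArg (fun f => X * d⁄dX (ZMod (p ^ 2)) f) hg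
  have hx := der_Xp p 4 1
  have hx2 := der_Xp p 12 2
  have hx3 : X * d⁄dX (ZMod (p ^ 2)) ((1 + C (4 : ZMod (p ^ 2)) * X ^ p) ^ 4)
      = 4 * (1 + C (4 : ZMod (p ^ 2)) * X ^ p) ^ 3
        * (C 4 * ((p : (ZMod (p ^ 2))⟦X⟧)) * X ^ p) := by
    rw [mul_one] at hx
    rw [derivative_pow, map_add, derivative_one, zero_add]
    push_cast at hx ⊢
    linear_combination (4 * (1 + C (4 : ZMod (p ^ 2)) * X ^ p) ^ 3) * hx
  rw [Derivation.leibniz, hx2, smul_eq_mul, smul_eq_mul] at hd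
  rw [hb]
  have c8 : (C (8 : ZMod (p ^ 2)) : (ZMod (p ^ 2))⟦X⟧) = 8 := map_ofNat _ 8
  have c2 : (C (2 : ZMod (p ^ 2)) : (ZMod (p ^ 2))⟦X⟧) = 2 := map_ofNat _ 2
  have c4 : (C (4 : ZMod (p ^ 2)) : (ZMod (p ^ 2))⟦X⟧) = 4 := map_ofNat _ 4
  have c12 : (C (12 : ZMod (p ^ 2)) : (ZMod (p ^ 2))⟦X⟧) = 12 := map_ofNat _ 12
  simp only [c4, c12, c2, c8] at hg hd hx3 ⊢
  push_cast at hd
  linear_combination ((1 + 4 * X ^ p) * ((Y0 p : Polynomial (ZMod (p ^ 2))) : (ZMod (p ^ 2))⟦X⟧)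
      - 16 * (p : (ZMod (p ^ 2))⟦X⟧) * X ^ p
        * ((Y1 p : Polynomial (ZMod (p ^ 2))) : (ZMod (p ^ 2))⟦X⟧)) * hg
    + (1 + 4 * X ^ p) * ((Y1 p : Polynomial (ZMod (p ^ 2))) : (ZMod (p ^ 2))⟦X⟧) * hd
    - (1 + 4 * X ^ p) * F * ((Y1 p : Polynomial (ZMod (p ^ 2))) : (ZMod (p ^ 2))⟦X⟧) * hx3

end

end Pool.Agent.MP8cc25e
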