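import Mathlib

/-!
Franel numbers, the alternating Domb numbers written as three binomial transforms, and their
common recurrence (creative telescoping with explicit certificates).
-/

namespace Pool.Agent.MP8cc25e

open Finset

/-- The Franel number. -/
def franel (n : ℕ) : ℕ := ∑ k ∈ range (n + 1), (n.choose k) ^ 3

/-- `(2k)! (3k)! / k!^5`. -/
def sg (k : ℕ) : ℕ := ((2 * k).choose k) ^ 2 * (3 * k).choose k

/-- Central binomial times Franel. -/
def gg (n : ℕ) : ℕ := (2 * n).choose n * franel n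

lemma choose_succ_left (n k : ℕ) :
    (n.choose k : ℚ) * ((n : ℚ) + 1) = ((n + 1).choose k) * ((n : ℚ) + 1 - k) := by
  rcases le_or_gt k (n + 1) with h | h
  · have h1 := Nat.choose_mul_succ_eq n k
    have h2 : ((n.choose k * (n + 1) : ℕ) : ℚ) = (((n + 1).choose k * (n + 1 - k) : ℕ) : ℚ) := by
      rw [h1]
    push_cast [Nat.cast_sub h] at h2
    linarith
  · rw [Nat.choose_eq_zero_of_lt h, Nat.choose_eq_zero_of_lt (by omega : n < k)]
    simp

lemma choose_succ_right (n k : ℕ) :
    (n.choose (k + 1) : ℚ) * ((k : ℚ) + 1) = (n.choose k) * ((n : ℚ) - k) := by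
  rcases le_or_gt k n with h | h
  · have h1 := Nat.choose_succ_right_eq n k
    have h2 : ((n.choose (k + 1) * (k + 1) : ℕ) : ℚ) = ((n.choose k * (n - k) : ℕ) : ℚ) := by
      rw [h1]
    push_cast [Nat.cast_sub h] at h2
    linarith
  · rw [Nat.choose_eq_zero_of_lt h, Nat.choose_eq_zero_of_lt (by omega : n < k + 1)]
    simp

/-- Certificate sum for the Franel recurrence. -/
lemma franel_partial (n m : ℕ) :
    ∑ k ∈ range m, (((n : ℚ) + 2) ^ 2 * ((n + 2).choose k : ℚ) ^ 3
      - (7 * (n : ℚ) ^ 2 + 21 * n + 16) * ((n + 1).choose k : ℚ) ^ 3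
      - 8 * ((n : ℚ) + 1) ^ 2 * (n.choose k : ℚ) ^ 3)
    = (4 * (m : ℚ) ^ 3 - 6 * (3 * n + 5) * (m : ℚ) ^ 2 + 3 * (n + 2) * (9 * n + 13) * m
        - 2 * (n + 2) ^ 2 * (7 * n + 9)) * ((m : ℚ) * (n + 2).choose m) ^ 3
        / (((n : ℚ) + 1) * ((n : ℚ) + 2) ^ 3) := by
  have hn1 : (n : ℚ) + 1 ≠ 0 := by positivity
  have hn2 : (n : ℚ) + 2 ≠ 0 := by positivity
  induction m with
  | zero => simp
  | succ m ih =>
    rw [sum_range_succ, ih]
    have h1 : ((n + 1).choose m : ℚ) = ((n + 2).choose m) * ((n : ℚ) + 2 - m) / (n + 2) := by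
      have := choose_succ_left (n + 1) m
      push_cast at this
      rw [eq_div_iff hn2]
      linarith
    have h0 : (n.choose m : ℚ)
        = ((n + 2).choose m) * ((n : ℚ) + 2 - m) * ((n : ℚ) + 1 - m) / ((n + 2) * (n + 1)) := by
      have := choose_succ_left n m
      rw [h1] at this
      rw [eq_div_iff (mul_ne_zero hn2 hn1)]
      field_simp at this
      linarith
    have h2 : (((m + 1 : ℕ) : ℚ) * ((n + 2).choose (m + 1) : ℚ))
        = ((n + 2).choose m) * ((n : ℚ) + 2 - m) := by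
      have := choose_succ_right (n + 2) m
      push_cast at this ⊢
      linarith
    rw [h2, h1, h0]
    push_cast
    field_simp
    ring

lemma franel_ext (n m : ℕ) (h : n + 1 ≤ m) :
    (franel n : ℚ) = ∑ k ∈ range m, (n.choose k : ℚ) ^ 3 := by
  unfold franel
  push_cast
  apply sum_subset
  · intro k hk
    simp only [mem_range] at *
    omega
  · intro k _ hk
    simp only [mem_range, not_lt] at hk
    rw [Nat.choose_eq_zero_of_lt (by omega)]
    simp

theorem franel_rec (n : ℕ) :
    ((n : ℚ) + 2) ^ 2 * franel (n + 2)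
      = (7 * (n : ℚ) ^ 2 + 21 * n + 16) * franel (n + 1) + 8 * ((n : ℚ) + 1) ^ 2 * franel n := by
  have h := franel_partial n (n + 3)
  rw [sum_sub_distrib, sum_sub_distrib, ← mul_sum, ← mul_sum, ← mul_sum,
    ← franel_ext (n + 2) (n + 3) (by omega), ← franel_ext (n + 1) (n + 3) (by omega),
    ← franel_ext n (n + 3) (by omega), Nat.choose_eq_zero_of_lt (by omega : n + 2 < n + 3)] at h
  simp only [Nat.cast_zero, mul_zero, ne_eq, OfNat.ofNat_ne_zero, not_false_eq_true, zero_pow,
    zero_div] at h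
  linarith

end Pool.Agent.MP8cc25e
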